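import Pool.Agent.V11251.DS.LinM3

set_option autoImplicit false

/-! The systems `n, Y i - n` in elementary terms. -/

namespace Pool.Agent.V11251.DS
open Finset
open Pool.Agent.Y820.LF

lemma gold_nu {s : ℕ} (Y : Fin s → ℕ) (p : ℕ) :
    nuF (Fin.cons 1 (fun _ => -1) : Fin (s + 1) → ℤ) (Fin.cons 0 (fun i => (Y i : ℤ)) : Fin (s + 1) → ℤ) p =
      ((range p).filter (fun r => r = 0 ∨ ∃ i, r = Y i % p)).card := by
  unfold nuF
  congr 1
  apply filter_congr
  intro r hr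
  rw [mem_range] at hr
  rw [Fin.exists_fin_succ]
  simp only [Fin.cons_zero, Fin.cons_succ, one_mul, add_zero]
  have h1 : (p : ℤ) ∣ (r : ℤ) ↔ r = 0 := by
    rw [Int.natCast_dvd_natCast]
    constructor
    · intro h
      exact Nat.eq_zero_of_dvd_of_lt h hr
    · rintro rfl
      exact dvd_zero _
  have h2 : ∀ i, (p : ℤ) ∣ -1 * (r : ℤ) + (Y i : ℤ) ↔ r = Y i % p := by
    intro i
    have e1 : (-1 * (r : ℤ) + (Y i : ℤ)) = (Y i : ℤ) - (r : ℤ) := by ring
    rw [e1, ← Int.modEq_iff_dvd, Int.natCast_modEq_iff]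
    constructor
    · intro h
      have h3 : r % p = Y i % p := h
      rwa [Nat.mod_eq_of_lt hr] at h3
    · intro h
      have h3 : r % p = Y i % p := by rw [Nat.mod_eq_of_lt hr]; exact h
      exact h3
  rw [h1]
  simp only [h2]

lemma gold_cnt {s : ℕ} (Y : Fin s → ℕ) (N : ℕ) :
    cntF (Fin.cons 1 (fun _ => -1) : Fin (s + 1) → ℤ) (Fin.cons 0 (fun i => (Y i : ℤ)) : Fin (s + 1) → ℤ) N =
      ((Icc 1 N).filter (fun p : ℕ => p.Prime ∧ ∀ i, (Y i - p).Prime)).card := by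
  unfold cntF
  congr 1
  apply filter_congr
  intro n _
  rw [Fin.forall_fin_succ]
  simp only [Fin.cons_zero, Fin.cons_succ, one_mul, add_zero, Int.toNat_natCast]
  have h2 : ∀ i, (-1 * (n : ℤ) + (Y i : ℤ)).toNat = Y i - n := by
    intro i
    omega
  simp only [h2]

/-- the formula in elementary terms -/
theorem gold_good {s : ℕ} (ε : ℝ) (N : ℕ) (Y : Fin s → ℕ)
    (h : GoodF ε N (Fin.cons 1 (fun _ => -1) : Fin (s + 1) → ℤ) (Fin.cons 0 (fun i => (Y i : ℤ)) : Fin (s + 1) → ℤ)) :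
    ∃ S : ℝ, 0 < S ∧ Filter.Tendsto (fun z : ℕ => ∏ p ∈ (Icc 1 z).filter Nat.Prime,
      (1 - (((range p).filter (fun r => r = 0 ∨ ∃ i, r = Y i % p)).card : ℝ) / p) / (1 - 1 / (p : ℝ)) ^ (s + 1))
        Filter.atTop (nhds S) ∧
      |(((Icc 1 N).filter (fun p : ℕ => p.Prime ∧ ∀ i, (Y i - p).Prime)).card : ℝ) - S * (N / Real.log N ^ (s + 1))| ≤
        ε * (S * (N / Real.log N ^ (s + 1))) := by
  obtain ⟨S, h0, h1, _, h3⟩ := h
  refine ⟨S, h0, ?_, ?_⟩
  · refine h1.congr fun z => ?_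
    unfold singF
    apply prod_congr rfl
    intro p _
    rw [gold_nu]
  · rw [gold_cnt] at h3
    exact h3

end Pool.Agent.V11251.DS
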