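import Pool.Agent.W93.TD5

set_option autoImplicit false

/-! The formula of Hardy and Littlewood in elementary terms. -/

namespace Pool.Agent.V11251.DS
open Finset
open Pool.Agent.H560R3.GB
open Pool.Agent.H373R2.T7
open Pool.Agent.W93.TD

theorem holds_of_HLs {s : ℕ} (ε : ℝ) (U N : ℕ) (a : Fin s → ℕ) (h : HLs ε U N a) :
    ∃ S : ℝ, Filter.Tendsto (fun z : ℕ => ∏ p ∈ (Icc 1 z).filter Nat.Prime,
        (1 - (((range p).filter (fun r => p ∣ r ∨ ∃ i, p ∣ r + a i)).card : ℝ) / p) / (1 - 1 / (p : ℝ)) ^ (s + 1))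
        Filter.atTop (nhds S) ∧
      |∑ p ∈ (Icc 1 N).filter (fun p : ℕ => p.Prime ∧ ∀ i, (p + a i).Prime), Real.log p * ∏ i, Real.log (p + a i) - S * N| ≤
        (N : ℝ) / Real.log N ^ U ∧
      ((∀ p : ℕ, p.Prime → ∃ r : ℕ, ¬ p ∣ r ∧ ∀ i, ¬ p ∣ r + a i) → 0 < S ∧
        |(((Icc 1 N).filter (fun p : ℕ => p.Prime ∧ ∀ i, (p + a i).Prime)).card : ℝ) - S * (N / Real.log N ^ (s + 1))| ≤
          ε * (S * (N / Real.log N ^ (s + 1)))) := by
  obtain ⟨S, h1, h2, h3⟩ := h
  refine ⟨S, ?_, ?_, fun hadm => ?_⟩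
  · refine h1.congr fun z => ?_
    unfold singZ
    apply prod_congr rfl
    intro p _
    have e1 : nuP (fun i => (a i : ℤ)) p = ((range p).filter (fun r => p ∣ r ∨ ∃ i, p ∣ r + a i)).card := by
      have key : ∀ (r : ℕ) (i : Fin s), (p : ℤ) ∣ (r : ℤ) + (a i : ℤ) ↔ p ∣ r + a i := by
        intro r i
        rw [← Nat.cast_add, Int.natCast_dvd_natCast]
      unfold nuP
      congr 1
      apply filter_congr
      intro r _
      constructor
      · rintro (h | ⟨i, hi⟩)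
        · exact Or.inl h
        · exact Or.inr ⟨i, (key r i).1 hi⟩
      · rintro (h | ⟨i, hi⟩)
        · exact Or.inl h
        · exact Or.inr ⟨i, (key r i).2 hi⟩
    rw [e1]
  · rw [tupleCount_nat] at h2
    exact h2
  · exact h3 (fun p hp => by
      obtain ⟨r, hr1, hr2⟩ := hadm p hp
      exact ⟨(r : ℤ), by exact_mod_cast hr1, fun i => by
        have := hr2 i
        rw [← Int.natCast_dvd_natCast, Nat.cast_add] at this
        exact this⟩)

end Pool.Agent.V11251.DS
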