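import Pool.Agent.V11251.DS.TransF
import Pool.Agent.V11186.Pal.Level

set_option autoImplicit false

/-! The level of distribution of the palindromes with given leading and middle digits. -/

namespace Pool.Agent.V11251.DS
open Finset Filter

lemma levB (b : ℕ) (hb : 2 ≤ b) : LevB b := by
  intro A
  filter_upwards [Pool.Agent.Y816.PS.er_final hb A] with L hL
  intro l e hl1 hl2 he h
  have hN : L + 1 ≤ L + 1 := le_rfl
  have hp : 0 < b ^ (2 * (L + 1)) := by positivity
  have h0 : b ^ (2 * (L + 1)) ≤ l * b ^ (2 * (L + 1)) := Nat.le_mul_of_pos_left _ hl1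
  have hx : l * b ^ (2 * (L + 1)) < b ^ (2 * (L + 1) + 1) := by
    rw [pow_succ, mul_comm (b ^ (2 * (L + 1))) b]
    exact Nat.mul_lt_mul_of_pos_right hl2 hp
  refine le_trans (sum_le_sum fun q hq => ?_) hL
  rw [mem_filter, mem_Icc] at hq
  have h1 := Pool.Agent.V11186.Pal.class_pals hb hN h0 hx he q (h q) hq.2
  have e2 : (1 : ℝ) ≤ (q.divisors.card : ℝ) := by
    exact_mod_cast Finset.card_pos.2 ⟨1, Nat.one_mem_divisors.2 (by omega)⟩
  have e3 : (1 : ℝ) ≤ (q.divisors.card : ℝ) ^ 2 := one_le_pow₀ e2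
  have h2 : OE b l e (L + 1) = Pool.Agent.V11186.Pal.pals b (L + 1) L (l * b ^ (2 * (L + 1))) e := by
    unfold OE Pool.Agent.V11186.Pal.pals
    have h3 : L + 1 + L + 1 = 2 * (L + 1) := by ring
    rw [h3, Nat.mul_div_cancel _ hp]
  rw [h2]
  refine le_trans h1 ?_
  exact le_mul_of_one_le_left ((abs_nonneg _).trans h1) e3

end Pool.Agent.V11251.DS
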