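import Pool.Agent.V11251.DS.ArbC

set_option autoImplicit false

/-! Arbitrary sets with an arbitrary finite index set. -/

namespace Pool.Agent.V11251.DS
open Finset
open Pool.Agent.H373R2.T7
open Pool.Agent.TH872.An (Spread V)
open Pool.Agent.TH872.Mir (Pals)

open Classical in
/-- the sets `A D`, `D ∈ I`, as a sequence -/
noncomputable def seqSets {ι : Type} (I : Finset ι) (A : ι → Set ℕ) (l : ℕ) : Set ℕ :=
  {n | ∃ h : l < I.card, n ∈ A (I.equivFin.symm ⟨l, h⟩).1}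

lemma seqSets_eq {ι : Type} (I : Finset ι) (A : ι → Set ℕ) (D : ι) (hD : D ∈ I) :
    ∃ l < I.card, seqSets I A l = A D := by
  classical
  refine ⟨(I.equivFin ⟨D, hD⟩ : ℕ), (I.equivFin ⟨D, hD⟩).2, ?_⟩
  unfold seqSets
  ext n
  rw [Set.mem_setOf_eq]
  constructor
  · rintro ⟨h, h1⟩
    have h2 : (I.equivFin.symm ⟨(I.equivFin ⟨D, hD⟩ : ℕ), h⟩) = ⟨D, hD⟩ := by
      rw [Fin.eta, Equiv.symm_apply_apply]
    rw [h2] at h1
    exact h1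
  · intro h1
    refine ⟨(I.equivFin ⟨D, hD⟩).2, ?_⟩
    have h2 : (I.equivFin.symm ⟨(I.equivFin ⟨D, hD⟩ : ℕ), (I.equivFin ⟨D, hD⟩).2⟩) = ⟨D, hD⟩ := by
      rw [Fin.eta, Equiv.symm_apply_apply]
    rw [h2]
    exact h1

open Classical in
/-- arbitrary sets with any index set and rearranged digits -/
theorem idx_perm (s : ℕ) (b : Fin s → ℕ) (hb : ∀ i, 2 ≤ b i) (η : ℝ) (hη : 0 < η) (κ q : Fin s → ℤ)
    (hκ : ∀ i, κ i ≠ 0) (hq : ∀ i, q i ≠ 0) (B T U : ℕ) :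
    ∃ E₀ : ℕ, ∀ E : ℕ, E₀ ≤ E → ∃ N₀ : ℕ, ∀ N, N₀ ≤ N → ∀ k : Fin s → ℕ, (∀ i, b i ^ k i ≤ B * N ∧ N ≤ B * b i ^ k i) →
    ∀ d : ∀ i, Fin (k i) → ℕ, (∀ i, Spread (b i) (k i) η (d i)) → ∀ c : Fin s → ℤ, (∀ i, |c i| ≤ B * N) →
    ∀ z : ℕ, Real.log N ^ E ≤ z → (z : ℝ) ≤ Real.log N ^ (E + 1) →
    ∀ (ι : Type) (I : Finset ι), (I.card : ℝ) ≤ Real.log N ^ T → ∀ A : ι → Set ℕ,
    ∀ G : (∀ i, Equiv.Perm (Fin (k i))) → Prop,
    (∀ σ, (∀ D ∈ I, ∀ X ≤ N, DC X z (ind (A D)) q (fun i => c i + κ i * (V (b i) (d i) (σ i) : ℕ)) ≤ N / Real.log N ^ U) → G σ) →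
    ∀ [DecidablePred fun σ => ¬ G σ], (((univ : Finset (∀ i, Equiv.Perm (Fin (k i)))).filter fun σ => ¬ G σ).card : ℝ) ≤
      (∏ i, ((k i).factorial : ℝ)) / Real.log N ^ U := by
  obtain ⟨E₀, h⟩ := set_perm s b hb η hη κ q hκ hq B T U
  refine ⟨E₀, fun E hE => ?_⟩
  obtain ⟨N₀, h1⟩ := h E hE
  refine ⟨N₀, fun N hN k hk d hd c hc z hz1 hz2 ι I hI A G hG _ => ?_⟩
  refine h1 N hN k hk d hd c hc z hz1 hz2 I.card hI (seqSets I A) G (fun σ hσ => hG σ (fun D hD X hX => ?_))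
  obtain ⟨l, hl, e⟩ := seqSets_eq I A D hD
  rw [← e]
  exact hσ l hl X hX

open Classical in
/-- arbitrary sets with any index set and palindromes -/
theorem idx_pal (s : ℕ) (b : Fin s → ℕ) (hb : ∀ i, 2 ≤ b i) (κ q : Fin s → ℤ)
    (hκ : ∀ i, κ i ≠ 0) (hq : ∀ i, q i ≠ 0) (B T U : ℕ) :
    ∃ E₀ : ℕ, ∀ E : ℕ, E₀ ≤ E → ∃ N₀ : ℕ, ∀ N, N₀ ≤ N → ∀ k : Fin s → ℕ, (∀ i, b i ^ k i ≤ B * N ∧ N ≤ B * b i ^ k i) →
    ∀ c : Fin s → ℤ, (∀ i, |c i| ≤ B * N) →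
    ∀ z : ℕ, Real.log N ^ E ≤ z → (z : ℝ) ≤ Real.log N ^ (E + 1) →
    ∀ (ι : Type) (I : Finset ι), (I.card : ℝ) ≤ Real.log N ^ T → ∀ A : ι → Set ℕ, ∀ G : (Fin s → ℕ) → Prop,
    (∀ v, (∀ D ∈ I, ∀ X ≤ N, DC X z (ind (A D)) q (fun i => c i + κ i * (v i : ℕ)) ≤ N / Real.log N ^ U) → G v) →
    ∀ [DecidablePred fun v => ¬ G v], (((Fintype.piFinset (fun i => Pals (b i) (k i))).filter fun v => ¬ G v).card : ℝ) ≤
      ((Fintype.piFinset (fun i => Pals (b i) (k i))).card : ℝ) / Real.log N ^ U := by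
  obtain ⟨E₀, h⟩ := set_pal s b hb κ q hκ hq B T U
  refine ⟨E₀, fun E hE => ?_⟩
  obtain ⟨N₀, h1⟩ := h E hE
  refine ⟨N₀, fun N hN k hk c hc z hz1 hz2 ι I hI A G hG _ => ?_⟩
  refine h1 N hN k hk c hc z hz1 hz2 I.card hI (seqSets I A) G (fun v hv => hG v (fun D hD X hX => ?_))
  obtain ⟨l, hl, e⟩ := seqSets_eq I A D hD
  rw [← e]
  exact hv l hl X hX

/-- the number of the `k`-element sets of integers up to a power of the logarithm -/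
lemma card_subsets (N k K : ℕ) (hN : 2 ≤ Real.log N) :
    (((Icc 1 ⌊Real.log N ^ K⌋₊).powersetCard k).card : ℝ) ≤ Real.log N ^ (K * k) := by
  rw [card_powersetCard, Nat.card_Icc, Nat.add_sub_cancel]
  calc ((Nat.choose ⌊Real.log N ^ K⌋₊ k : ℕ) : ℝ) ≤ ((⌊Real.log N ^ K⌋₊ ^ k : ℕ) : ℝ) :=
        Nat.cast_le.2 (Nat.choose_le_pow _ _)
    _ = (⌊Real.log N ^ K⌋₊ : ℝ) ^ k := by push_cast; ring
    _ ≤ (Real.log N ^ K) ^ k := by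
        apply pow_le_pow_left₀ (by positivity)
        exact Nat.floor_le (by positivity)
    _ = Real.log N ^ (K * k) := by rw [← pow_mul]

/-- the number of the pairs `(q, a)` of a modulus up to a power of the logarithm and a residue -/
lemma card_classes (N K : ℕ) (hN : 2 ≤ Real.log N) :
    (((Icc 1 ⌊Real.log N ^ K⌋₊) ×ˢ (range ⌊Real.log N ^ K⌋₊)).card : ℝ) ≤ Real.log N ^ (2 * K) := by
  rw [card_product, Nat.card_Icc, Nat.add_sub_cancel, card_range, Nat.cast_mul]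
  have h1 : (⌊Real.log N ^ K⌋₊ : ℝ) ≤ Real.log N ^ K := Nat.floor_le (by positivity)
  calc (⌊Real.log N ^ K⌋₊ : ℝ) * ⌊Real.log N ^ K⌋₊ ≤ Real.log N ^ K * Real.log N ^ K :=
        mul_le_mul h1 h1 (by positivity) (by positivity)
    _ = Real.log N ^ (2 * K) := by rw [← pow_add]; congr 1; ring

end Pool.Agent.V11251.DS
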