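import Pool.Agent.V11251.DS.LinM5

set_option autoImplicit false

/-! Arbitrary weights: partial summation, and primes against the sieve model. -/

namespace Pool.Agent.V11251.DS
open Finset
open Pool.Agent.H373R2.T7

lemma abel_id (G h : ℕ → ℝ) (M : ℕ) : ∑ n ∈ Icc 1 M, G n * h n =
    (∑ n ∈ Icc 1 M, G n) * h (M + 1) + ∑ n ∈ Icc 1 M, (∑ l ∈ Icc 1 n, G l) * (h n - h (n + 1)) := by
  induction M with
  | zero => simp
  | succ M ih =>
    rw [sum_Icc_succ_top (by omega), ih, sum_Icc_succ_top (by omega), sum_Icc_succ_top (by omega) (fun n => (∑ l ∈ Icc 1 n, G l) * (h n - h (n + 1))),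
      sum_Icc_succ_top (by omega)]
    ring

lemma tele (h : ℕ → ℝ) (M : ℕ) : ∑ n ∈ Icc 1 M, (h n - h (n + 1)) = h 1 - h (M + 1) := by
  induction M with
  | zero => simp
  | succ M ih =>
    rw [sum_Icc_succ_top (by omega), ih]
    ring

lemma abel_step (N : ℕ) (G h : ℕ → ℝ) (R H : ℝ) (hR : ∀ N' ≤ N, |∑ n ∈ Icc 1 N', G n| ≤ R)
    (h0 : ∀ n, 0 ≤ h n ∧ h n ≤ H) (hm : Monotone h ∨ Antitone h) : ∀ N' ≤ N, |∑ n ∈ Icc 1 N', G n * h n| ≤ 2 * H * R := by
  intro N' hN'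
  have hR0 : 0 ≤ R := (abs_nonneg _).trans (hR N' hN')
  have hH0 : 0 ≤ H := (h0 0).1.trans (h0 0).2
  rw [abel_id]
  have h1 : |(∑ n ∈ Icc 1 N', G n) * h (N' + 1)| ≤ R * h (N' + 1) := by
    rw [abs_mul, abs_of_nonneg (h0 _).1]
    exact mul_le_mul_of_nonneg_right (hR N' hN') (h0 _).1
  have h2 : |∑ n ∈ Icc 1 N', (∑ l ∈ Icc 1 n, G l) * (h n - h (n + 1))| ≤ R * ∑ n ∈ Icc 1 N', |h n - h (n + 1)| := by
    refine (abs_sum_le_sum_abs _ _).trans ?_
    rw [mul_sum]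
    apply sum_le_sum
    intro n hn
    rw [mem_Icc] at hn
    rw [abs_mul]
    exact mul_le_mul_of_nonneg_right (hR n (by omega)) (abs_nonneg _)
  have h3 : ∑ n ∈ Icc 1 N', |h n - h (n + 1)| ≤ |h 1 - h (N' + 1)| := by
    rcases hm with hm | hm
    · have e1 : ∀ n ∈ Icc 1 N', |h n - h (n + 1)| = -(h n - h (n + 1)) := fun n _ => by
        rw [abs_of_nonpos (sub_nonpos.2 (hm (Nat.le_succ n)))]
      rw [sum_congr rfl e1, sum_neg_distrib, tele]
      exact neg_le_abs _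
    · have e1 : ∀ n ∈ Icc 1 N', |h n - h (n + 1)| = (h n - h (n + 1)) := fun n _ => by
        rw [abs_of_nonneg (sub_nonneg.2 (hm (Nat.le_succ n)))]
      rw [sum_congr rfl e1, tele]
      exact le_abs_self _
  have h4 : h (N' + 1) + |h 1 - h (N' + 1)| ≤ 2 * H := by
    have e1 := h0 1
    have e2 := h0 (N' + 1)
    rcases abs_cases (h 1 - h (N' + 1)) with ⟨h5, _⟩ | ⟨h5, _⟩ <;> rw [h5] <;> linarith
  calc _ ≤ |(∑ n ∈ Icc 1 N', G n) * h (N' + 1)| + |∑ n ∈ Icc 1 N', (∑ l ∈ Icc 1 n, G l) * (h n - h (n + 1))| := abs_add_le _ _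
    _ ≤ R * h (N' + 1) + R * |h 1 - h (N' + 1)| := add_le_add h1 (h2.trans (mul_le_mul_of_nonneg_left h3 hR0))
    _ = R * (h (N' + 1) + |h 1 - h (N' + 1)|) := by ring
    _ ≤ R * (2 * H) := mul_le_mul_of_nonneg_left h4 hR0
    _ = _ := by ring

lemma abel_prod {s : ℕ} (N : ℕ) (G : ℕ → ℝ) (h : Fin s → ℕ → ℝ) (R H : ℝ) (hR : ∀ N' ≤ N, |∑ n ∈ Icc 1 N', G n| ≤ R)
    (h0 : ∀ i n, 0 ≤ h i n ∧ h i n ≤ H) (hm : ∀ i, Monotone (h i) ∨ Antitone (h i)) (J : Finset (Fin s)) :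
    ∀ N' ≤ N, |∑ n ∈ Icc 1 N', G n * ∏ i ∈ J, h i n| ≤ (2 * H) ^ J.card * R := by
  classical
  induction J using Finset.induction_on with
  | empty =>
    intro N' hN'
    simp only [prod_empty, mul_one, card_empty, pow_zero, one_mul]
    exact hR N' hN'
  | insert a J ha ih =>
    intro N' hN'
    have h1 := abel_step N (fun n => G n * ∏ i ∈ J, h i n) (h a) _ H ih (h0 a) (hm a) N' hN'
    rw [card_insert_of_notMem ha, pow_succ]
    calc |∑ n ∈ Icc 1 N', G n * ∏ i ∈ insert a J, h i n| = |∑ n ∈ Icc 1 N', (G n * ∏ i ∈ J, h i n) * h a n| := by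
          congr 1
          apply sum_congr rfl
          intro n _
          rw [prod_insert ha]
          ring
      _ ≤ _ := h1
      _ = _ := by ring

/-- the logarithm of `max x 2` -/
noncomputable def lg (x : ℤ) : ℝ := Real.log ((max x 2 : ℤ) : ℝ)

lemma lg_ge (x : ℤ) : Real.log 2 ≤ lg x := by
  unfold lg
  apply Real.log_le_log (by norm_num)
  exact_mod_cast le_max_right x 2

lemma log2_half : (1 : ℝ) / 2 ≤ Real.log 2 := by
  have := Real.log_two_gt_d9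
  linarith

lemma lg_pos (x : ℤ) : 0 < lg x := by
  have := lg_ge x
  have := log2_half
  linarith

lemma lg_inv_le (x : ℤ) : (lg x)⁻¹ ≤ 2 := by
  rw [inv_le_comm₀ (lg_pos x) (by norm_num)]
  have := lg_ge x
  have := log2_half
  linarith

lemma lg_mono : Monotone lg := by
  intro x y h
  unfold lg
  apply Real.log_le_log
  · have : (0 : ℤ) < max x 2 := lt_of_lt_of_le (by norm_num) (le_max_right _ _)
    exact_mod_cast this
  · exact_mod_cast max_le_max h le_rfl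

lemma lg_form (c a : ℤ) : Monotone (fun n : ℕ => (lg (c * (n : ℤ) + a))⁻¹) ∨ Antitone (fun n : ℕ => (lg (c * (n : ℤ) + a))⁻¹) := by
  rcases le_total 0 c with h | h
  · right
    intro n m hnm
    apply inv_anti₀ (lg_pos _)
    apply lg_mono
    have : (n : ℤ) ≤ m := by exact_mod_cast hnm
    nlinarith
  · left
    intro n m hnm
    apply inv_anti₀ (lg_pos _)
    apply lg_mono
    have : (n : ℤ) ≤ m := by exact_mod_cast hnm
    nlinarith

/-- the indicator function of the primes -/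
noncomputable def IP (x : ℤ) : ℝ := if x.toNat.Prime then 1 else 0

open Classical in
/-- the sieve model of the indicator function of the primes: the integers `x` without prime factors up to `z`
are primes with the probability `1 / (log x ∏_{p ≤ z} (1 - 1 / p))` -/
noncomputable def Mo (z : ℕ) (x : ℤ) : ℝ :=
  if 1 ≤ x ∧ ∀ p : ℕ, p.Prime → p ≤ z → ¬ (p : ℤ) ∣ x then 1 / (Real.log ((max x 2 : ℤ) : ℝ) * ∏ p ∈ (Icc 1 z).filter Nat.Prime, (1 - 1 / (p : ℝ))) else 0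

lemma Mo_eq (z : ℕ) (x : ℤ) : Mo z x = lamzI z x * (lg x)⁻¹ := by
  unfold Mo lamzI lamz
  have hV : (∏ p ∈ (Icc 1 z).filter Nat.Prime, (1 - 1 / (p : ℝ))) = Vz z := rfl
  rw [hV]
  by_cases hx : 1 ≤ x
  · rw [if_pos hx]
    have h1 : (∀ p ∈ Pool.Agent.H373R2.T7.pz z, ¬ p ∣ x.toNat) ↔ ∀ p : ℕ, p.Prime → p ≤ z → ¬ (p : ℤ) ∣ x := by
      have h2 : ((x.toNat : ℕ) : ℤ) = x := Int.toNat_of_nonneg (by omega)
      constructor
      · intro h p hp hpz hd
        apply h p (mem_pz.2 ⟨hpz, hp⟩)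
        rw [← Int.natCast_dvd_natCast, h2]
        exact hd
      · intro h p hp hd
        rw [mem_pz] at hp
        apply h p hp.2 hp.1
        rw [← h2, Int.natCast_dvd_natCast]
        exact hd
    by_cases h : ∀ p ∈ Pool.Agent.H373R2.T7.pz z, ¬ p ∣ x.toNat
    · rw [if_pos h, if_pos ⟨hx, h1.1 h⟩]
      unfold lg
      rw [one_div, mul_inv, mul_comm]
    · rw [if_neg h, if_neg (fun h2 => h (h1.2 h2.2)), zero_mul]
  · rw [if_neg hx, if_neg (fun h => hx h.1), zero_mul]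

lemma IP_eq (x : ℤ) : IP x = lamP x * (lg x)⁻¹ := by
  unfold IP lamP
  by_cases h : x.toNat.Prime
  · rw [if_pos h, if_pos h]
    have h2 := h.two_le
    have h3 : max x 2 = ((x.toNat : ℕ) : ℤ) := by omega
    have h4 : lg x = Real.log x.toNat := by
      unfold lg
      rw [h3, Int.cast_natCast]
    rw [h4, mul_inv_cancel₀]
    have := lg_pos x
    rw [h4] at this
    exact this.ne'
  · rw [if_neg h, if_neg h, zero_mul]

lemma lamI_lg (x : ℤ) : lamI x * (lg x)⁻¹ ≤ 1 := by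
  rw [← div_eq_mul_inv, div_le_one (lg_pos x)]
  unfold lg
  apply lamI_le
  · have : (1 : ℤ) ≤ max x 2 := le_trans (by norm_num) (le_max_right _ _)
    exact_mod_cast this
  · exact_mod_cast le_max_left x 2

/-- prime powers are negligible -/
lemma pp_part {s : ℕ} (q m : Fin s → ℤ) (hq : ∀ i, q i ≠ 0) (N X : ℕ) (hX : 1 ≤ X) (W : ℕ → ℝ) (T : ℝ)
    (hW : ∀ n ∈ Icc 1 N, |W n| ≤ T) (hT : 0 ≤ T) (hup : ∀ i, ∀ n ∈ Icc 1 N, q i * (n : ℤ) + m i ≤ X) :
    |∑ n ∈ Icc 1 N, W n * (∏ i, (lamI (q i * (n : ℤ) + m i) * (lg (q i * (n : ℤ) + m i))⁻¹) - ∏ i, IP (q i * (n : ℤ) + m i))| ≤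
      T * (s * (4 * √(X : ℝ) * Real.log X)) := by
  have key : ∀ n ∈ Icc 1 N, |W n * (∏ i, (lamI (q i * (n : ℤ) + m i) * (lg (q i * (n : ℤ) + m i))⁻¹) - ∏ i, IP (q i * (n : ℤ) + m i))| ≤
      T * ∑ i, 2 * (lamI (q i * (n : ℤ) + m i) - lamP (q i * (n : ℤ) + m i)) := by
    intro n hn
    obtain ⟨h1, h2⟩ := prod_sub_le (univ : Finset (Fin s)) (fun i => lamI (q i * (n : ℤ) + m i) * (lg (q i * (n : ℤ) + m i))⁻¹)
      (fun i => IP (q i * (n : ℤ) + m i)) 1 le_rfl (fun i _ => by unfold IP; split_ifs <;> norm_num)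
      (fun i _ => by rw [IP_eq]; exact mul_le_mul_of_nonneg_right (lamP_le _) (inv_pos.2 (lg_pos _)).le)
      (fun i _ => lamI_lg _)
    rw [abs_mul, abs_of_nonneg h1]
    apply mul_le_mul (hW n hn) _ h1 hT
    refine h2.trans ?_
    rw [one_pow, one_mul]
    apply sum_le_sum
    intro i _
    rw [IP_eq, ← sub_mul, mul_comm]
    apply mul_le_mul_of_nonneg_right (lg_inv_le _)
    exact sub_nonneg.2 (lamP_le _)
  refine (abs_sum_le_sum_abs _ _).trans ((sum_le_sum key).trans ?_)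
  rw [← mul_sum]
  apply mul_le_mul_of_nonneg_left _ hT
  rw [sum_comm]
  calc ∑ i, ∑ n ∈ Icc 1 N, 2 * (lamI (q i * (n : ℤ) + m i) - lamP (q i * (n : ℤ) + m i)) ≤ ∑ _i : Fin s, 2 * (2 * √(X : ℝ) * Real.log X) := by
        apply sum_le_sum
        intro i _
        rw [← mul_sum]
        apply mul_le_mul_of_nonneg_left _ (by norm_num)
        exact Pool.Agent.Y820.LF.TR.pp_sumF N X (q i) (m i) (hq i) hX (hup i)
    _ = _ := by
        rw [sum_const, card_univ, Fintype.card_fin, nsmul_eq_mul]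
        ring

end Pool.Agent.V11251.DS
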