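import Pool.Agent.V11251.DS.ArbA

set_option autoImplicit false

/-! Arbitrary weights: the exceptional vectors. -/

namespace Pool.Agent.V11251.DS
open Finset
open Pool.Agent.H807R2.Dav
open Pool.Agent.H373R2.T7
open Pool.Agent.W93.DG
open Pool.Agent.W93.RD
open Pool.Agent.W93.TD
open Pool.Agent.W93.AU
open Pool.Agent.TH872.An (Spread V)
open Pool.Agent.TH872.Mir (Pals)

/-- the vectors which are bad for one weight -/
def BD {s : ℕ} (N z U : ℕ) (W : ℕ → ℝ) (q m : Fin s → ℤ) : Prop := ∃ N' ≤ N, N / Real.log N ^ U < DM N' z W q m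

open Classical in
/-- one arbitrary weight -/
theorem arb_one (s T U : ℕ) (q : Fin s → ℤ) (A B0 : Fin s → ℕ) (E1 : ℕ)
    (hE1 : ∀ i, B0 i ≤ E1) : ∃ N₀ : ℕ, ∀ N, N₀ ≤ N → ∀ z : ℕ, Real.log N ^ E1 ≤ z → (z : ℝ) ≤ Real.log N ^ (E1 + 1) →
      ∀ (Ω : Fin s → Finset ℤ) (p : Fin s → ℤ → ℝ),
      (∀ i, ML N (A i) (B0 i) (E1 + 1) (2 * s + 1 + T) (U + 2) (q i) (Ω i) (p i)) →
      ∀ W : ℕ → ℝ, (∀ n ∈ Icc 1 N, |W n| ≤ Real.log N ^ T) →
      ∑ m ∈ Fintype.piFinset Ω, (if BD N z (U + 1) W q m then ∏ i, p i (m i) else 0) ≤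
        1 / Real.log N ^ (U + 1) := by
  obtain ⟨At, hAt⟩ : ∃ At : ℕ, At = ∑ i, (A i + (q i).natAbs) := ⟨_, rfl⟩
  have hAi : ∀ i, A i + (q i).natAbs ≤ At := fun i => by
    rw [hAt]; exact single_le_sum (f := fun i => A i + (q i).natAbs) (fun _ _ => Nat.zero_le _) (mem_univ i)
  obtain ⟨n3, h3⟩ := Vz_inv_small (E1 + 1)
  obtain ⟨n4, h4⟩ := ev_L' (2 + (4 : ℝ) ^ s + Real.log ((At + 1 : ℕ) : ℝ) + s)
  refine ⟨n3 + n4 + 1, fun N hN z hz1 hz2 Ω p hos W hW => ?_⟩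
  have hL := h4 N (by omega)
  obtain ⟨L, hLdef⟩ : ∃ L, L = Real.log (N : ℝ) := ⟨_, rfl⟩
  have q0 : 0 ≤ Real.log ((At + 1 : ℕ) : ℝ) := Real.log_natCast_nonneg _
  have q1 : 0 < (4 : ℝ) ^ s := by positivity
  have q2 : (0 : ℝ) ≤ s := by positivity
  rw [← hLdef] at hL hz1 hz2
  have hL2 : 2 ≤ L := by linarith
  have hL1 : 1 ≤ L := by linarith
  have hL0 : 0 < L := by linarith
  have hN0 : (0 : ℝ) < N := by exact_mod_cast (by omega : 0 < N)
  have hNz : (1 : ℤ) ≤ N := by exact_mod_cast (by omega : 1 ≤ N)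
  have hzn : 1 ≤ z := by
    have : (1 : ℝ) ≤ z := (one_le_pow₀ hL1).trans hz1
    exact_mod_cast this
  have hz3 : ∀ i, L ^ B0 i ≤ z := fun i => (pow_le_pow_right₀ hL1 (hE1 i)).trans hz1
  have hV := h3 N (by omega) z hzn (by rw [← hLdef]; exact hz2)
  rw [← hLdef] at hV
  have hX1 : 1 ≤ (At + 1) * N := Nat.mul_pos (by omega) (by omega)
  have hlogX : Real.log (((At + 1) * N : ℕ) : ℝ) ≤ 2 * L := by
    rw [Nat.cast_mul, Real.log_mul (by positivity) hN0.ne', ← hLdef]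
    linarith
  have hup : ∀ i, ∀ n ∈ Icc 1 N, ∀ v ∈ Ω i, ((q i * (n : ℤ) + v : ℤ) : ℝ) ≤ (((At + 1) * N : ℕ) : ℝ) := by
    intro i n hn v hv
    rw [mem_Icc] at hn
    have e1 := (hos i).size v hv
    have e2 : (A i : ℤ) + |q i| ≤ (At : ℤ) := by
      have := hAi i
      rw [Int.abs_eq_natAbs]
      exact_mod_cast this
    have e3 : ((A i : ℤ) + |q i|) * N ≤ (At : ℤ) * N := mul_le_mul_of_nonneg_right e2 (by linarith)
    have h5 : q i * (n : ℤ) ≤ |q i| * N := by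
      calc q i * (n : ℤ) ≤ |q i| * (n : ℤ) := mul_le_mul_of_nonneg_right (le_abs_self _) (by positivity)
        _ ≤ |q i| * N := mul_le_mul_of_nonneg_left (by exact_mod_cast hn.2) (abs_nonneg _)
    have h6 := le_abs_self v
    have h7 : q i * (n : ℤ) + v ≤ (((At + 1) * N : ℕ) : ℤ) := by
      push_cast
      have e5 : ((A i : ℤ) + |q i|) * N = A i * N + |q i| * N := by ring
      linarith
    exact_mod_cast h7
  have hPb : ∀ m ∈ Fintype.piFinset Ω, ∀ j, ∀ n ∈ Icc 1 N, |lamI (q j * (n : ℤ) + m j)| ≤ 2 * L := by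
    intro m hm j n hn
    rw [abs_of_nonneg (lamI_nonneg _)]
    exact (lamI_le _ _ (by exact_mod_cast hX1) (hup j n hn _ (Fintype.mem_piFinset.1 hm j))).trans hlogX
  have hQb : ∀ (m : Fin s → ℤ) j (n : ℕ), |lamzI z (q j * (n : ℤ) + m j)| ≤ 2 * L := by
    intro m j n
    rw [abs_of_nonneg (lamzI_nonneg _ _)]
    exact (lamzI_le z _).trans (by linarith)
  have hprodb : ∀ (J : Finset (Fin s)) (f : Fin s → ℝ), (∀ j, |f j| ≤ 2 * L) → |∏ j ∈ J, f j| ≤ (2 * L) ^ s := by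
    intro J f hf
    rw [abs_prod]
    calc ∏ j ∈ J, |f j| ≤ ∏ _j ∈ J, (2 * L) := prod_le_prod (fun _ _ => abs_nonneg _) (fun j _ => hf j)
      _ = (2 * L) ^ J.card := by rw [prod_const]
      _ ≤ (2 * L) ^ s := pow_le_pow_right₀ (by linarith) (by
          have := card_le_univ J
          rwa [Fintype.card_fin] at this)
  have hGb : ∀ m ∈ Fintype.piFinset Ω, ∀ i, ∀ n, |Gw N z W q i m n| ≤ L ^ (2 * s + 1 + T) := by
    intro m hm i n
    unfold Gw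
    split_ifs with hn
    · rw [abs_mul, abs_mul]
      have g1 := hprodb (univ.filter (fun j => j < i)) (fun j => lamzI z (q j * (n : ℤ) + m j)) (fun j => hQb m j n)
      have g2 := hprodb (univ.filter (fun j => i < j)) (fun j => lamI (q j * (n : ℤ) + m j)) (fun j => hPb m hm j n hn)
      have g3 := hW n hn
      rw [← hLdef] at g3
      calc |W n| * |∏ j ∈ univ.filter (fun j => j < i), lamzI z (q j * (n : ℤ) + m j)| *
            |∏ j ∈ univ.filter (fun j => i < j), lamI (q j * (n : ℤ) + m j)| ≤ L ^ T * (2 * L) ^ s * (2 * L) ^ s := by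
            apply mul_le_mul (mul_le_mul g3 g1 (abs_nonneg _) (by positivity)) g2 (abs_nonneg _) (by positivity)
        _ = (4 : ℝ) ^ s * L ^ (2 * s + T) := by
            rw [mul_pow, show (4 : ℝ) = 2 * 2 by norm_num, mul_pow, show 2 * s + T = s + s + T by ring, pow_add, pow_add]
            ring
        _ ≤ L * L ^ (2 * s + T) := mul_le_mul_of_nonneg_right (by linarith) (by positivity)
        _ = _ := by rw [show 2 * s + 1 + T = (2 * s + T) + 1 by ring, pow_succ L (2 * s + T)]; ring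
    · rw [abs_zero]; positivity
  have hP : ∀ m ∈ Fintype.piFinset Ω, 0 ≤ ∏ i, p i (m i) := fun m hm =>
    prod_nonneg fun i _ => (hos i).nonneg _ (Fintype.mem_piFinset.1 hm i)
  obtain ⟨Rm, hRm⟩ : ∃ Rm : Fin s → (Fin s → ℤ) → Prop, Rm = fun i m => ∃ N' ≤ N, N / L ^ (U + 2) <
      |∑ n ∈ Icc 1 N', Gw N z W q i m n * (lamI (q i * (n : ℤ) + m i) - lamzI z (q i * (n : ℤ) + m i))| := ⟨_, rfl⟩
  have hub := union_bound (J := Fin s) (Fintype.piFinset Ω) (fun m => ∏ i, p i (m i)) hP Rm (1 / L ^ (U + 2))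
    (by
      intro i
      apply coord_event Ω p (fun i => (hos i).nonneg) (fun i => (hos i).sum) _ i
      intro m hm
      have h5 := (hos i).one z (by rw [← hLdef]; exact hz3 i) (by rw [← hLdef]; exact hz2) (Gw N z W q i m) (by
        rw [← hLdef]; exact hGb m hm i)
      rw [← hLdef] at h5
      refine le_trans (le_of_eq ?_) h5
      apply sum_congr rfl
      intro v _
      rw [hRm]
      simp only [Gw_update, Function.update_self])
    (fun _ => 0) (fun _ _ => le_rfl) 0 1 one_pos (by simp)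
    (fun m => BD N z (U + 1) W q m) (by
      rintro m hm ⟨N', hN', hlt⟩
      rw [← hLdef] at hlt
      left
      by_contra hcon
      push Not at hcon
      refine absurd hlt (not_lt.2 ?_)
      refine (DM_le N z W q m (N / L ^ (U + 2)) N' hN' (fun i => ?_)).trans ?_
      · have h5 : ¬ Rm i m := hcon i
        rw [hRm] at h5
        push Not at h5
        exact h5 N' hN'
      · rw [← mul_div_assoc, div_le_div_iff₀ (by positivity) (by positivity)]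
        calc (s : ℝ) * N * L ^ (U + 1) ≤ L * N * L ^ (U + 1) := by
              apply mul_le_mul_of_nonneg_right _ (by positivity)
              apply mul_le_mul_of_nonneg_right _ hN0.le
              linarith
          _ = N * L ^ (U + 2) := by rw [show U + 2 = (U + 1) + 1 by ring, pow_succ L (U + 1)]; ring)
  rw [← hLdef]
  refine hub.trans ?_
  rw [Fintype.card_fin, zero_div, add_zero]
  calc (s : ℝ) * (1 / L ^ (U + 2)) = (s : ℝ) / L * (1 / L ^ (U + 1)) := by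
        rw [show U + 2 = (U + 1) + 1 by ring, pow_succ L (U + 1)]
        field_simp
    _ ≤ 1 * (1 / L ^ (U + 1)) := by
        apply mul_le_mul_of_nonneg_right _ (by positivity)
        rw [div_le_one hL0]
        linarith
    _ = _ := one_mul _

/-- the difference of the weighted number of the prime values and of the prediction of the sieve model -/
noncomputable def DC {s : ℕ} (N z : ℕ) (W : ℕ → ℝ) (q m : Fin s → ℤ) : ℝ :=
  |∑ n ∈ Icc 1 N, W n * (∏ i, IP (q i * (n : ℤ) + m i) - ∏ i, Mo z (q i * (n : ℤ) + m i))|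

/-- the vectors which are bad for one of the weights -/
def BC {s : ℕ} (N z U L : ℕ) (W : ℕ → ℕ → ℝ) (q m : Fin s → ℤ) : Prop :=
  ∃ l < L, ∃ N' ≤ N, N / Real.log N ^ U < DC N' z (W l) q m

lemma DC_le {s : ℕ} (N z : ℕ) (W : ℕ → ℝ) (q m : Fin s → ℤ) (hq : ∀ i, q i ≠ 0) (X : ℕ) (hX : 1 ≤ X) (T R : ℝ) (hT : 0 ≤ T)
    (hW : ∀ n ∈ Icc 1 N, |W n| ≤ T) (hup : ∀ i, ∀ n ∈ Icc 1 N, q i * (n : ℤ) + m i ≤ X)
    (h : ∀ N' ≤ N, DM N' z W q m ≤ R) : ∀ N' ≤ N, DC N' z W q m ≤ 4 ^ s * R + T * (s * (4 * √(X : ℝ) * Real.log X)) := by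
  intro N' hN'
  have hsub : Icc 1 N' ⊆ Icc 1 N := Icc_subset_Icc le_rfl hN'
  have h1 := abel_prod N (fun n => W n * (∏ i, lamI (q i * (n : ℤ) + m i) - ∏ i, lamzI z (q i * (n : ℤ) + m i)))
    (fun i n => (lg (q i * (n : ℤ) + m i))⁻¹) R 2 h (fun i n => ⟨(inv_pos.2 (lg_pos _)).le, lg_inv_le _⟩)
    (fun i => lg_form (q i) (m i)) univ N' hN'
  have h2 := pp_part q m hq N' X hX W T (fun n hn => hW n (hsub hn)) hT (fun i n hn => hup i n (hsub hn))
  rw [card_univ, Fintype.card_fin, show (2 * 2 : ℝ) = 4 by norm_num] at h1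
  unfold DC
  have e1 : ∑ n ∈ Icc 1 N', W n * (∏ i, IP (q i * (n : ℤ) + m i) - ∏ i, Mo z (q i * (n : ℤ) + m i)) =
      ∑ n ∈ Icc 1 N', W n * (∏ i, lamI (q i * (n : ℤ) + m i) - ∏ i, lamzI z (q i * (n : ℤ) + m i)) * ∏ i, (lg (q i * (n : ℤ) + m i))⁻¹ -
      ∑ n ∈ Icc 1 N', W n * (∏ i, (lamI (q i * (n : ℤ) + m i) * (lg (q i * (n : ℤ) + m i))⁻¹) - ∏ i, IP (q i * (n : ℤ) + m i)) := by
    rw [← sum_sub_distrib]
    apply sum_congr rfl
    intro n _
    have e2 : ∏ i, Mo z (q i * (n : ℤ) + m i) = (∏ i, lamzI z (q i * (n : ℤ) + m i)) * ∏ i, (lg (q i * (n : ℤ) + m i))⁻¹ := by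
      rw [← prod_mul_distrib]
      exact prod_congr rfl fun i _ => Mo_eq _ _
    rw [e2, prod_mul_distrib]
    ring
  rw [e1]
  exact (abs_sub _ _).trans (add_le_add h1 h2)

/-- an elementary inequality -/
lemma sqrt_small (s T U At : ℕ) : ∃ N₀ : ℕ, ∀ N : ℕ, N₀ ≤ N →
    4 ^ s * (N / Real.log N ^ (U + 2)) + Real.log N ^ T * (s * (4 * √(((At + 1) * N : ℕ) : ℝ) * Real.log (((At + 1) * N : ℕ) : ℝ))) ≤
      N / Real.log N ^ U := by
  obtain ⟨n1, h1⟩ := ev_L' (2 + (4 : ℝ) ^ s + Real.log ((At + 1 : ℕ) : ℝ) + 8 * s * √((At + 1 : ℕ) : ℝ))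
  obtain ⟨n2, h2⟩ := ev_log' (T + U + 3) 1
  refine ⟨n1 + n2 + 1, fun N hN => ?_⟩
  have hL := h1 N (by omega)
  have hS := h2 N (by omega)
  obtain ⟨L, hLdef⟩ : ∃ L, L = Real.log (N : ℝ) := ⟨_, rfl⟩
  rw [← hLdef] at hL hS ⊢
  have q0 : 0 ≤ Real.log ((At + 1 : ℕ) : ℝ) := Real.log_natCast_nonneg _
  have q1 : 0 < (4 : ℝ) ^ s := by positivity
  have q2 : (0 : ℝ) ≤ 8 * s * √((At + 1 : ℕ) : ℝ) := by positivity
  have hL1 : 1 ≤ L := by linarith
  have hL0 : 0 < L := by linarith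
  have hN0 : (0 : ℝ) < N := by exact_mod_cast (by omega : 0 < N)
  rw [one_mul] at hS
  have hlogX : Real.log (((At + 1) * N : ℕ) : ℝ) ≤ 2 * L := by
    rw [Nat.cast_mul, Real.log_mul (by positivity) hN0.ne', ← hLdef]
    linarith
  have hsq : √(N : ℝ) * √(N : ℝ) = N := Real.mul_self_sqrt hN0.le
  have hsq0 : 0 < √(N : ℝ) := Real.sqrt_pos.2 hN0
  have e1 : (4 : ℝ) ^ s * (N / L ^ (U + 2)) ≤ N / L ^ (U + 1) := by
    rw [← mul_div_assoc, div_le_div_iff₀ (by positivity) (by positivity)]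
    calc (4 : ℝ) ^ s * N * L ^ (U + 1) ≤ L * N * L ^ (U + 1) := by
          apply mul_le_mul_of_nonneg_right _ (by positivity)
          apply mul_le_mul_of_nonneg_right _ hN0.le
          linarith
      _ = _ := by rw [show U + 2 = (U + 1) + 1 by ring, pow_succ L (U + 1)]; ring
  have e2 : L ^ T * (s * (4 * √(((At + 1) * N : ℕ) : ℝ) * Real.log (((At + 1) * N : ℕ) : ℝ))) ≤ N / L ^ (U + 1) := by
    rw [le_div_iff₀ (by positivity)]
    have e3 : √(((At + 1) * N : ℕ) : ℝ) = √((At + 1 : ℕ) : ℝ) * √(N : ℝ) := by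
      rw [Nat.cast_mul, Real.sqrt_mul (by positivity)]
    rw [e3]
    calc L ^ T * (s * (4 * (√((At + 1 : ℕ) : ℝ) * √(N : ℝ)) * Real.log (((At + 1) * N : ℕ) : ℝ))) * L ^ (U + 1)
        ≤ L ^ T * (s * (4 * (√((At + 1 : ℕ) : ℝ) * √(N : ℝ)) * (2 * L))) * L ^ (U + 1) := by
          apply mul_le_mul_of_nonneg_right _ (by positivity)
          apply mul_le_mul_of_nonneg_left _ (by positivity)
          apply mul_le_mul_of_nonneg_left _ (by positivity)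
          exact mul_le_mul_of_nonneg_left hlogX (by positivity)
      _ = (8 * s * √((At + 1 : ℕ) : ℝ)) * (L ^ (T + U + 2) * √(N : ℝ)) := by
          rw [show T + U + 2 = T + (U + 1) + 1 by ring, pow_succ, pow_add]
          ring
      _ ≤ L * (L ^ (T + U + 2) * √(N : ℝ)) := mul_le_mul_of_nonneg_right (by linarith) (by positivity)
      _ = L ^ (T + U + 3) * √(N : ℝ) := by rw [show T + U + 3 = (T + U + 2) + 1 by ring, pow_succ L (T + U + 2)]; ring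
      _ ≤ √(N : ℝ) * √(N : ℝ) := mul_le_mul_of_nonneg_right hS hsq0.le
      _ = N := hsq
  have e3 : (N : ℝ) / L ^ (U + 1) + N / L ^ (U + 1) ≤ N / L ^ U := by
    rw [← add_div, div_le_div_iff₀ (by positivity) (by positivity), pow_succ]
    have : 0 ≤ (N : ℝ) * L ^ U := by positivity
    nlinarith
  linarith

open Classical in
/-- few arbitrary weights -/
theorem arb_cnt (s T U : ℕ) (q : Fin s → ℤ) (hq : ∀ i, q i ≠ 0) (A B0 : Fin s → ℕ) (E1 : ℕ)
    (hE1 : ∀ i, B0 i ≤ E1) : ∃ N₀ : ℕ, ∀ N, N₀ ≤ N → ∀ z : ℕ, Real.log N ^ E1 ≤ z → (z : ℝ) ≤ Real.log N ^ (E1 + 1) →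
      ∀ (Ω : Fin s → Finset ℤ) (p : Fin s → ℤ → ℝ),
      (∀ i, ML N (A i) (B0 i) (E1 + 1) (2 * s + 1 + T) (U + T + 3) (q i) (Ω i) (p i)) →
      ∀ L : ℕ, (L : ℝ) ≤ Real.log N ^ T → ∀ W : ℕ → ℕ → ℝ, (∀ l < L, ∀ n ∈ Icc 1 N, |W l n| ≤ Real.log N ^ T) →
      ∑ m ∈ Fintype.piFinset Ω, (if BC N z U L W q m then ∏ i, p i (m i) else 0) ≤
        1 / Real.log N ^ (U + 2) := by
  obtain ⟨At, hAt⟩ : ∃ At : ℕ, At = ∑ i, (A i + (q i).natAbs) := ⟨_, rfl⟩
  have hAi : ∀ i, A i + (q i).natAbs ≤ At := fun i => by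
    rw [hAt]; exact single_le_sum (f := fun i => A i + (q i).natAbs) (fun _ _ => Nat.zero_le _) (mem_univ i)
  obtain ⟨n1, h1⟩ := arb_one s T (U + T + 1) q A B0 E1 hE1
  obtain ⟨n2, h2⟩ := sqrt_small s T U At
  obtain ⟨n3, h3⟩ := ev_L' 1
  refine ⟨n1 + n2 + n3 + 1, fun N hN z hz1 hz2 Ω p hos L hL W hW => ?_⟩
  have hlog1 := h3 N (by omega)
  have hlog0 : 0 < Real.log N := by linarith
  have hN0 : (0 : ℝ) < N := by exact_mod_cast (by omega : 0 < N)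
  have hNz : (1 : ℤ) ≤ N := by exact_mod_cast (by omega : 1 ≤ N)
  have hP : ∀ m ∈ Fintype.piFinset Ω, 0 ≤ ∏ i, p i (m i) := fun m hm =>
    prod_nonneg fun i _ => (hos i).nonneg _ (Fintype.mem_piFinset.1 hm i)
  have hub := union_bound (J := Fin L) (Fintype.piFinset Ω) (fun m => ∏ i, p i (m i)) hP
    (fun l m => BD N z (U + T + 1 + 1) (W l) q m) (1 / Real.log N ^ (U + T + 1 + 1))
    (fun l => h1 N (by omega) z hz1 hz2 Ω p hos (W l) (hW l l.2))
    (fun _ => 0) (fun _ _ => le_rfl) 0 1 one_pos (by simp)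
    (fun m => BC N z U L W q m) (by
      rintro m hm ⟨l, hl, N', hN', hlt⟩
      left
      refine ⟨⟨l, hl⟩, ?_⟩
      by_contra hcon
      unfold BD at hcon
      push Not at hcon
      refine absurd hlt (not_lt.2 ?_)
      have hup : ∀ i, ∀ n ∈ Icc 1 N, q i * (n : ℤ) + m i ≤ (((At + 1) * N : ℕ) : ℤ) := by
        intro i n hn
        rw [mem_Icc] at hn
        have e1 := (hos i).size _ (Fintype.mem_piFinset.1 hm i)
        have e2 : (A i : ℤ) + |q i| ≤ (At : ℤ) := by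
          have := hAi i
          rw [Int.abs_eq_natAbs]
          exact_mod_cast this
        have e3 : ((A i : ℤ) + |q i|) * N ≤ (At : ℤ) * N := mul_le_mul_of_nonneg_right e2 (by linarith)
        have h5 : q i * (n : ℤ) ≤ |q i| * N := by
          calc q i * (n : ℤ) ≤ |q i| * (n : ℤ) := mul_le_mul_of_nonneg_right (le_abs_self _) (by positivity)
            _ ≤ |q i| * N := mul_le_mul_of_nonneg_left (by exact_mod_cast hn.2) (abs_nonneg _)
        have h6 := le_abs_self (m i)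
        push_cast
        have e5 : ((A i : ℤ) + |q i|) * N = A i * N + |q i| * N := by ring
        linarith
      refine (DC_le N z (W l) q m hq ((At + 1) * N) (Nat.mul_pos (by omega) (by omega)) _ _ (by positivity) (hW l hl) hup hcon
        N' hN').trans ?_
      refine le_trans (add_le_add_left ?_ _) (h2 N (by omega))
      apply mul_le_mul_of_nonneg_left _ (by positivity)
      apply div_le_div_of_nonneg_left hN0.le (by positivity)
      exact pow_le_pow_right₀ hlog1 (by omega))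
  refine hub.trans ?_
  rw [Fintype.card_fin, zero_div, add_zero]
  calc (L : ℝ) * (1 / Real.log N ^ (U + T + 1 + 1)) ≤ Real.log N ^ T * (1 / Real.log N ^ (U + T + 1 + 1)) :=
        mul_le_mul_of_nonneg_right hL (by positivity)
    _ = _ := by
        rw [show U + T + 1 + 1 = T + (U + 2) by ring, pow_add]
        have h5 : Real.log N ^ T ≠ 0 := by positivity
        field_simp

open Classical in
/-- rearranged digits, the exceptional vectors of an arbitrary kind -/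
theorem perm_gen' (s : ℕ) (b : Fin s → ℕ) (hb : ∀ i, 2 ≤ b i) (η : ℝ) (hη : 0 < η) (κ q : Fin s → ℤ)
    (hκ : ∀ i, κ i ≠ 0) (hq : ∀ i, q i ≠ 0) (B T U V' : ℕ) :
    ∃ A B0 : Fin s → ℕ, ∀ E : ℕ, ∃ N₀ : ℕ, ∀ N, N₀ ≤ N → ∀ k : Fin s → ℕ, (∀ i, b i ^ k i ≤ B * N ∧ N ≤ B * b i ^ k i) →
    ∀ d : ∀ i, Fin (k i) → ℕ, (∀ i, Spread (b i) (k i) η (d i)) → ∀ c : Fin s → ℤ, (∀ i, |c i| ≤ B * N) →
    ∀ Bad : (Fin s → ℤ) → Prop,
    (∀ (Ω : Fin s → Finset ℤ) (p : Fin s → ℤ → ℝ), (∀ i, ML N (A i) (B0 i) E T V' (q i) (Ω i) (p i)) →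
      ∑ m ∈ Fintype.piFinset Ω, (if Bad m then ∏ i, p i (m i) else 0) ≤ 1 / Real.log N ^ (U + 1)) →
    (((univ : Finset (∀ i, Equiv.Perm (Fin (k i)))).filter
      fun σ => Bad (fun i => c i + κ i * (V (b i) (d i) (σ i) : ℕ))).card : ℝ) ≤
      (∏ i, ((k i).factorial : ℝ)) / Real.log N ^ U := by
  choose A B0 h1 using fun i => an_ml (b i) (hb i) η hη (κ i) (hκ i) (q i) (hq i) B T V'
  refine ⟨A, B0, fun E => ?_⟩
  choose N2 hN2 using fun i => h1 i E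
  obtain ⟨Nt, hNt⟩ : ∃ Nt, Nt = ∑ i, N2 i := ⟨_, rfl⟩
  have hNi : ∀ i, N2 i ≤ Nt := fun i => by rw [hNt]; exact single_le_sum (fun _ _ => Nat.zero_le _) (mem_univ i)
  refine ⟨Nt + 3, fun N hN k hk d hd c hc Bad h2 => ?_⟩
  have h3 := h2 (fun i => (univ : Finset (Equiv.Perm (Fin (k i)))).image (fun σ => c i + κ i * (V (b i) (d i) σ : ℕ)))
    (fun i x => ∑ σ ∈ (univ : Finset (Equiv.Perm (Fin (k i)))).filter (fun σ => c i + κ i * (V (b i) (d i) σ : ℕ) = x),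
      1 / ((k i).factorial : ℝ))
    (fun i => hN2 i N (by have := hNi i; omega) (k i) (hk i).1 (hk i).2 (d i) (hd i) (c i) (hc i))
  have hlog := log_one (by omega : 3 ≤ N)
  rw [pushZ (fun i => Equiv.Perm (Fin (k i))) (fun _ => univ) (fun i _ => 1 / ((k i).factorial : ℝ))
    (fun i σ => c i + κ i * (V (b i) (d i) σ : ℕ)) Bad, Fintype.piFinset_univ, ← sum_filter, sum_const, nsmul_eq_mul] at h3
  have hP : (0 : ℝ) < ∏ i, ((k i).factorial : ℝ) := prod_pos fun i _ => by exact_mod_cast (k i).factorial_pos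
  have hPe : ∏ i, (1 / ((k i).factorial : ℝ)) = 1 / ∏ i, ((k i).factorial : ℝ) := by
    rw [prod_div_distrib, prod_const_one]
  rw [hPe, mul_one_div, div_le_iff₀ hP] at h3
  refine h3.trans ?_
  rw [mul_comm, mul_one_div]
  apply div_le_div_of_nonneg_left hP.le (by positivity)
  exact pow_le_pow_right₀ hlog (by omega)

open Classical in
/-- palindromes, the exceptional vectors of an arbitrary kind -/
theorem pal_gen' (s : ℕ) (b : Fin s → ℕ) (hb : ∀ i, 2 ≤ b i) (κ q : Fin s → ℤ)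
    (hκ : ∀ i, κ i ≠ 0) (hq : ∀ i, q i ≠ 0) (B T U V' : ℕ) :
    ∃ A B0 : Fin s → ℕ, ∀ E : ℕ, ∃ N₀ : ℕ, ∀ N, N₀ ≤ N → ∀ k : Fin s → ℕ, (∀ i, b i ^ k i ≤ B * N ∧ N ≤ B * b i ^ k i) →
    ∀ c : Fin s → ℤ, (∀ i, |c i| ≤ B * N) → ∀ Bad : (Fin s → ℤ) → Prop,
    (∀ (Ω : Fin s → Finset ℤ) (p : Fin s → ℤ → ℝ), (∀ i, ML N (A i) (B0 i) E T V' (q i) (Ω i) (p i)) →
      ∑ m ∈ Fintype.piFinset Ω, (if Bad m then ∏ i, p i (m i) else 0) ≤ 1 / Real.log N ^ (U + 1)) →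
    (((Fintype.piFinset (fun i => Pals (b i) (k i))).filter fun v => Bad (fun i => c i + κ i * (v i : ℕ))).card : ℝ) ≤
      ((Fintype.piFinset (fun i => Pals (b i) (k i))).card : ℝ) / Real.log N ^ U := by
  choose A B0 h1 using fun i => pal_ml (b i) (hb i) (κ i) (hκ i) (q i) (hq i) B T V'
  refine ⟨A, B0, fun E => ?_⟩
  choose N2 hN2 using fun i => h1 i E
  obtain ⟨Nt, hNt⟩ : ∃ Nt, Nt = ∑ i, N2 i := ⟨_, rfl⟩
  have hNi : ∀ i, N2 i ≤ Nt := fun i => by rw [hNt]; exact single_le_sum (fun _ _ => Nat.zero_le _) (mem_univ i)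
  refine ⟨Nt + 3, fun N hN k hk c hc Bad h2 => ?_⟩
  choose Ω p hml hmem using fun i => hN2 i N (by have := hNi i; omega) (k i) (hk i).1 (hk i).2 (c i) (hc i)
  have h3 := h2 Ω p hml
  have hlog := log_one (by omega : 3 ≤ N)
  refine (count_of_weight (fun i => Pals (b i) (k i)) (fun i v => c i + κ i * (v : ℕ)) Ω p (fun i v v' h => ?_)
    (fun i => (hml i).nonneg) hmem Bad _ h3).trans ?_
  · have h6 : κ i * ((v : ℕ) : ℤ) = κ i * ((v' : ℕ) : ℤ) := by linarith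
    exact_mod_cast mul_left_cancel₀ (hκ i) h6
  · rw [mul_one_div]
    apply div_le_div_of_nonneg_left (Nat.cast_nonneg _) (by positivity)
    exact pow_le_pow_right₀ hlog (by omega)

lemma BC_mono {s : ℕ} (N z U U' L : ℕ) (W : ℕ → ℕ → ℝ) (q m : Fin s → ℤ) (hN : 1 ≤ Real.log N) (hU : U ≤ U')
    (h : BC N z U L W q m) : BC N z U' L W q m := by
  obtain ⟨l, hl, N', hN', h1⟩ := h
  refine ⟨l, hl, N', hN', lt_of_le_of_lt ?_ h1⟩
  apply div_le_div_of_nonneg_left (Nat.cast_nonneg _) (by positivity)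
  exact pow_le_pow_right₀ hN hU

open Classical in
/-- arbitrary weights and rearranged digits -/
theorem arb_perm (s : ℕ) (b : Fin s → ℕ) (hb : ∀ i, 2 ≤ b i) (η : ℝ) (hη : 0 < η) (κ q : Fin s → ℤ)
    (hκ : ∀ i, κ i ≠ 0) (hq : ∀ i, q i ≠ 0) (B T U : ℕ) :
    ∃ E₀ : ℕ, ∀ E : ℕ, E₀ ≤ E → ∃ N₀ : ℕ, ∀ N, N₀ ≤ N → ∀ k : Fin s → ℕ, (∀ i, b i ^ k i ≤ B * N ∧ N ≤ B * b i ^ k i) →
    ∀ d : ∀ i, Fin (k i) → ℕ, (∀ i, Spread (b i) (k i) η (d i)) → ∀ c : Fin s → ℤ, (∀ i, |c i| ≤ B * N) →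
    ∀ z : ℕ, Real.log N ^ E ≤ z → (z : ℝ) ≤ Real.log N ^ (E + 1) →
    ∀ L : ℕ, (L : ℝ) ≤ Real.log N ^ T → ∀ W : ℕ → ℕ → ℝ, (∀ l < L, ∀ n ∈ Icc 1 N, |W l n| ≤ Real.log N ^ T) →
    (((univ : Finset (∀ i, Equiv.Perm (Fin (k i)))).filter
      fun σ => BC N z U L W q (fun i => c i + κ i * (V (b i) (d i) (σ i) : ℕ))).card : ℝ) ≤
      (∏ i, ((k i).factorial : ℝ)) / Real.log N ^ U := by
  obtain ⟨A, B0, h⟩ := perm_gen' s b hb η hη κ q hκ hq B (2 * s + 1 + T) (U + 1) (U + T + 3)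
  obtain ⟨E₀, hE₀⟩ : ∃ E₀, E₀ = ∑ i, B0 i := ⟨_, rfl⟩
  refine ⟨E₀, fun E hE => ?_⟩
  obtain ⟨n1, h1⟩ := h (E + 1)
  obtain ⟨n2, h2⟩ := arb_cnt s T U q hq A B0 E (fun i => by
    have := single_le_sum (f := B0) (fun _ _ => Nat.zero_le _) (mem_univ i)
    omega)
  refine ⟨n1 + n2 + 3, fun N hN k hk d hd c hc z hz1 hz2 L hL W hW => ?_⟩
  have hlog := log_one (by omega : 3 ≤ N)
  refine (h1 N (by omega) k hk d hd c hc (fun m => BC N z U L W q m) (fun Ω p hml => ?_)).trans ?_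
  · exact h2 N (by omega) z hz1 hz2 Ω p hml L hL W hW
  · apply div_le_div_of_nonneg_left (prod_nonneg fun i _ => Nat.cast_nonneg _) (by positivity)
    exact pow_le_pow_right₀ hlog (by omega)

open Classical in
/-- arbitrary weights and palindromes -/
theorem arb_pal (s : ℕ) (b : Fin s → ℕ) (hb : ∀ i, 2 ≤ b i) (κ q : Fin s → ℤ)
    (hκ : ∀ i, κ i ≠ 0) (hq : ∀ i, q i ≠ 0) (B T U : ℕ) :
    ∃ E₀ : ℕ, ∀ E : ℕ, E₀ ≤ E → ∃ N₀ : ℕ, ∀ N, N₀ ≤ N → ∀ k : Fin s → ℕ, (∀ i, b i ^ k i ≤ B * N ∧ N ≤ B * b i ^ k i) →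
    ∀ c : Fin s → ℤ, (∀ i, |c i| ≤ B * N) →
    ∀ z : ℕ, Real.log N ^ E ≤ z → (z : ℝ) ≤ Real.log N ^ (E + 1) →
    ∀ L : ℕ, (L : ℝ) ≤ Real.log N ^ T → ∀ W : ℕ → ℕ → ℝ, (∀ l < L, ∀ n ∈ Icc 1 N, |W l n| ≤ Real.log N ^ T) →
    (((Fintype.piFinset (fun i => Pals (b i) (k i))).filter
      fun v => BC N z U L W q (fun i => c i + κ i * (v i : ℕ))).card : ℝ) ≤
      ((Fintype.piFinset (fun i => Pals (b i) (k i))).card : ℝ) / Real.log N ^ U := by
  obtain ⟨A, B0, h⟩ := pal_gen' s b hb κ q hκ hq B (2 * s + 1 + T) (U + 1) (U + T + 3)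
  obtain ⟨E₀, hE₀⟩ : ∃ E₀, E₀ = ∑ i, B0 i := ⟨_, rfl⟩
  refine ⟨E₀, fun E hE => ?_⟩
  obtain ⟨n1, h1⟩ := h (E + 1)
  obtain ⟨n2, h2⟩ := arb_cnt s T U q hq A B0 E (fun i => by
    have := single_le_sum (f := B0) (fun _ _ => Nat.zero_le _) (mem_univ i)
    omega)
  refine ⟨n1 + n2 + 3, fun N hN k hk c hc z hz1 hz2 L hL W hW => ?_⟩
  have hlog := log_one (by omega : 3 ≤ N)
  refine (h1 N (by omega) k hk c hc (fun m => BC N z U L W q m) (fun Ω p hml => ?_)).trans ?_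
  · exact h2 N (by omega) z hz1 hz2 Ω p hml L hL W hW
  · apply div_le_div_of_nonneg_left (Nat.cast_nonneg _) (by positivity)
    exact pow_le_pow_right₀ hlog (by omega)

end Pool.Agent.V11251.DS
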