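import Pool.Agent.V11251.DS.ArbB

set_option autoImplicit false

/-! Arbitrary sets instead of arbitrary weights. -/

namespace Pool.Agent.V11251.DS
open Finset
open Pool.Agent.H373R2.T7
open Pool.Agent.TH872.An (Spread V)
open Pool.Agent.TH872.Mir (Pals)

lemma IP_prod {s : ℕ} (x : Fin s → ℤ) : ∏ i, IP (x i) = if (∀ i, (x i).toNat.Prime) then (1 : ℝ) else 0 := by
  unfold IP
  by_cases h : ∀ i, (x i).toNat.Prime
  · rw [if_pos h]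
    exact prod_eq_one fun i _ => if_pos (h i)
  · rw [if_neg h]
    push Not at h
    obtain ⟨i, hi⟩ := h
    exact prod_eq_zero (mem_univ i) (if_neg hi)

/-- the indicator function of a set -/
noncomputable def ind (A : Set ℕ) (n : ℕ) : ℝ := by classical exact if n ∈ A then 1 else 0

open Classical in
lemma DC_set {s : ℕ} (A : Set ℕ) (N z : ℕ) (q m : Fin s → ℤ) : DC N z (ind A) q m =
    |(((Icc 1 N).filter (fun n : ℕ => n ∈ A ∧ ∀ i, (q i * (n : ℤ) + m i).toNat.Prime)).card : ℝ) -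
      ∑ n ∈ (Icc 1 N).filter (fun n => n ∈ A), ∏ i, Mo z (q i * (n : ℤ) + m i)| := by
  unfold DC
  congr 1
  rw [card_filter, Nat.cast_sum, sum_filter, ← sum_sub_distrib]
  apply sum_congr rfl
  intro n _
  rw [IP_prod]
  unfold ind
  by_cases h1 : n ∈ A
  · by_cases h2 : ∀ i, (q i * (n : ℤ) + m i).toNat.Prime
    · have h3 : n ∈ A ∧ ∀ i, (q i * (n : ℤ) + m i).toNat.Prime := ⟨h1, h2⟩
      simp only [if_pos h1, if_pos h2, if_pos h3, one_mul, Nat.cast_one]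
    · have h3 : ¬ (n ∈ A ∧ ∀ i, (q i * (n : ℤ) + m i).toNat.Prime) := fun h => h2 h.2
      simp only [if_pos h1, if_neg h2, if_neg h3, one_mul, Nat.cast_zero]
  · have h3 : ¬ (n ∈ A ∧ ∀ i, (q i * (n : ℤ) + m i).toNat.Prime) := fun h => h1 h.1
    simp only [if_neg h1, if_neg h3, zero_mul, Nat.cast_zero, sub_zero]

lemma DC_set' {s : ℕ} (A : Set ℕ) (N z : ℕ) (q m : Fin s → ℤ) (F G : Finset ℕ) (M : ℕ → ℝ)
    (hF : ∀ n, n ∈ F ↔ n ∈ Icc 1 N ∧ n ∈ A) (hG : ∀ n, n ∈ G ↔ n ∈ Icc 1 N ∧ n ∈ A ∧ ∀ i, (q i * (n : ℤ) + m i).toNat.Prime)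
    (hM : ∀ n ∈ F, M n = ∏ i, Mo z (q i * (n : ℤ) + m i)) :
    DC N z (ind A) q m = |(G.card : ℝ) - ∑ n ∈ F, M n| := by
  classical
  rw [DC_set]
  have h1 : (Icc 1 N).filter (fun n : ℕ => n ∈ A ∧ ∀ i, (q i * (n : ℤ) + m i).toNat.Prime) = G := by
    ext n
    rw [mem_filter, hG]
  have h2 : (Icc 1 N).filter (fun n => n ∈ A) = F := by
    ext n
    rw [mem_filter, hF]
  rw [h1, h2, sum_congr rfl hM]

/-- the vectors which are good for all the sets -/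
lemma good_set {s : ℕ} (N z U L : ℕ) (A : ℕ → Set ℕ) (q m : Fin s → ℤ) (h : ¬ BC N z U L (fun l => ind (A l)) q m) :
    ∀ l < L, ∀ X ≤ N, DC X z (ind (A l)) q m ≤ N / Real.log N ^ U := by
  intro l hl X hX
  by_contra hcon
  push Not at hcon
  exact h ⟨l, hl, X, hX, hcon⟩

lemma ind_le (A : Set ℕ) (n : ℕ) : |ind A n| ≤ 1 := by
  unfold ind
  split_ifs <;> simp

open Classical in
/-- arbitrary sets and rearranged digits -/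
theorem set_perm (s : ℕ) (b : Fin s → ℕ) (hb : ∀ i, 2 ≤ b i) (η : ℝ) (hη : 0 < η) (κ q : Fin s → ℤ)
    (hκ : ∀ i, κ i ≠ 0) (hq : ∀ i, q i ≠ 0) (B T U : ℕ) :
    ∃ E₀ : ℕ, ∀ E : ℕ, E₀ ≤ E → ∃ N₀ : ℕ, ∀ N, N₀ ≤ N → ∀ k : Fin s → ℕ, (∀ i, b i ^ k i ≤ B * N ∧ N ≤ B * b i ^ k i) →
    ∀ d : ∀ i, Fin (k i) → ℕ, (∀ i, Spread (b i) (k i) η (d i)) → ∀ c : Fin s → ℤ, (∀ i, |c i| ≤ B * N) →
    ∀ z : ℕ, Real.log N ^ E ≤ z → (z : ℝ) ≤ Real.log N ^ (E + 1) →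
    ∀ L : ℕ, (L : ℝ) ≤ Real.log N ^ T → ∀ A : ℕ → Set ℕ, ∀ G : (∀ i, Equiv.Perm (Fin (k i))) → Prop,
    (∀ σ, (∀ l < L, ∀ X ≤ N, DC X z (ind (A l)) q (fun i => c i + κ i * (V (b i) (d i) (σ i) : ℕ)) ≤ N / Real.log N ^ U) → G σ) →
    ∀ [DecidablePred fun σ => ¬ G σ], (((univ : Finset (∀ i, Equiv.Perm (Fin (k i)))).filter fun σ => ¬ G σ).card : ℝ) ≤
      (∏ i, ((k i).factorial : ℝ)) / Real.log N ^ U := by
  obtain ⟨E₀, h⟩ := arb_perm s b hb η hη κ q hκ hq B T U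
  refine ⟨E₀, fun E hE => ?_⟩
  obtain ⟨N₀, h1⟩ := h E hE
  refine ⟨N₀ + 3, fun N hN k hk d hd c hc z hz1 hz2 L hL A G hGood _ => ?_⟩
  have hlog := log_one (by omega : 3 ≤ N)
  refine le_trans (Nat.cast_le.2 (card_le_card ?_)) (h1 N (by omega) k hk d hd c hc z hz1 hz2 L hL (fun l => ind (A l))
    (fun l _ n _ => (ind_le _ _).trans (one_le_pow₀ hlog)))
  intro σ hσ
  rw [mem_filter] at hσ ⊢
  refine ⟨hσ.1, ?_⟩
  by_contra hcon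
  exact hσ.2 (hGood σ (good_set N z U L A q _ hcon))

open Classical in
/-- arbitrary sets and palindromes -/
theorem set_pal (s : ℕ) (b : Fin s → ℕ) (hb : ∀ i, 2 ≤ b i) (κ q : Fin s → ℤ)
    (hκ : ∀ i, κ i ≠ 0) (hq : ∀ i, q i ≠ 0) (B T U : ℕ) :
    ∃ E₀ : ℕ, ∀ E : ℕ, E₀ ≤ E → ∃ N₀ : ℕ, ∀ N, N₀ ≤ N → ∀ k : Fin s → ℕ, (∀ i, b i ^ k i ≤ B * N ∧ N ≤ B * b i ^ k i) →
    ∀ c : Fin s → ℤ, (∀ i, |c i| ≤ B * N) →
    ∀ z : ℕ, Real.log N ^ E ≤ z → (z : ℝ) ≤ Real.log N ^ (E + 1) →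
    ∀ L : ℕ, (L : ℝ) ≤ Real.log N ^ T → ∀ A : ℕ → Set ℕ, ∀ G : (Fin s → ℕ) → Prop,
    (∀ v, (∀ l < L, ∀ X ≤ N, DC X z (ind (A l)) q (fun i => c i + κ i * (v i : ℕ)) ≤ N / Real.log N ^ U) → G v) →
    ∀ [DecidablePred fun v => ¬ G v], (((Fintype.piFinset (fun i => Pals (b i) (k i))).filter fun v => ¬ G v).card : ℝ) ≤
      ((Fintype.piFinset (fun i => Pals (b i) (k i))).card : ℝ) / Real.log N ^ U := by
  obtain ⟨E₀, h⟩ := arb_pal s b hb κ q hκ hq B T U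
  refine ⟨E₀, fun E hE => ?_⟩
  obtain ⟨N₀, h1⟩ := h E hE
  refine ⟨N₀ + 3, fun N hN k hk c hc z hz1 hz2 L hL A G hGood _ => ?_⟩
  have hlog := log_one (by omega : 3 ≤ N)
  refine le_trans (Nat.cast_le.2 (card_le_card ?_)) (h1 N (by omega) k hk c hc z hz1 hz2 L hL (fun l => ind (A l))
    (fun l _ n _ => (ind_le _ _).trans (one_le_pow₀ hlog)))
  intro v hv
  rw [mem_filter] at hv ⊢
  refine ⟨hv.1, ?_⟩
  by_contra hcon
  exact hv.2 (hGood v (good_set N z U L A q _ hcon))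

open Classical in
/-- the sieve model on the natural numbers -/
noncomputable def moN (z x : ℕ) : ℝ :=
  if 1 ≤ x ∧ ∀ p : ℕ, p.Prime → p ≤ z → ¬ p ∣ x then
    1 / (Real.log (max x 2 : ℕ) * ∏ p ∈ (Icc 1 z).filter Nat.Prime, (1 - 1 / (p : ℝ))) else 0

lemma Mo_cast (z x : ℕ) : Mo z (x : ℤ) = moN z x := by
  unfold Mo moN
  have h1 : (1 ≤ (x : ℤ) ∧ ∀ p : ℕ, p.Prime → p ≤ z → ¬ (p : ℤ) ∣ (x : ℤ)) ↔ (1 ≤ x ∧ ∀ p : ℕ, p.Prime → p ≤ z → ¬ p ∣ x) := by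
    simp only [Int.natCast_dvd_natCast, Nat.one_le_cast]
  have h2 : (((max (x : ℤ) 2 : ℤ)) : ℝ) = ((max x 2 : ℕ) : ℝ) := by push_cast; rfl
  rw [h2]
  by_cases h : 1 ≤ x ∧ ∀ p : ℕ, p.Prime → p ≤ z → ¬ p ∣ x
  · rw [if_pos h, if_pos (h1.2 h)]
  · rw [if_neg h, if_neg (fun h3 => h (h1.1 h3))]

lemma Mo_neg (z : ℕ) (x : ℤ) (hx : x ≤ 0) : Mo z x = 0 := by
  unfold Mo
  rw [if_neg]
  rintro ⟨h, _⟩
  omega

lemma moN_zero (z : ℕ) : moN z 0 = 0 := by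
  unfold moN
  rw [if_neg]
  rintro ⟨h, _⟩
  omega

lemma Mo_sub (z Y n : ℕ) : Mo z (-1 * (n : ℤ) + (Y : ℤ)) = moN z (Y - n) := by
  by_cases h : n ≤ Y
  · rw [← Mo_cast]
    congr 1
    push_cast [h]
    ring
  · rw [Mo_neg z _ (by omega), Nat.sub_eq_zero_of_le (by omega), moN_zero]

lemma Mo_add (z Y n : ℕ) : Mo z (1 * (n : ℤ) + (Y : ℤ)) = moN z (n + Y) := by
  rw [← Mo_cast]
  congr 1
  push_cast
  ring

end Pool.Agent.V11251.DS
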