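import Pool.Agent.V11251.DS.Corr
import Pool.Agent.TH893.CL.Twist

set_option autoImplicit false

/-! Sums of products of consecutive values of the Liouville function: random lengths. -/

namespace Pool.Agent.V11251.DS
open Finset
open Pool.Agent.H373R2.T7 (exI liR)
open Pool.Agent.TH893.CL (Pk twist_le)

/-- the Liouville function along a progression -/
noncomputable def lq (a c n : ℕ) : ℝ := (-1 : ℝ) ^ ArithmeticFunction.cardFactors (a * n + c)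

lemma lq_pm (a c n : ℕ) : lq a c n = 1 ∨ lq a c n = -1 := neg_one_pow_eq_or ℝ _

lemma lq_abs (a c n : ℕ) : |lq a c n| = 1 := by
  rcases lq_pm a c n with h | h <;> rw [h] <;> simp

/-- the four real weights -/
noncomputable def th (a c : ℕ) (ξ : ℕ → ℂ) (t n : ℕ) : ℝ :=
  (if t = 0 then (ξ n).re * (ξ (n + 1)).re else if t = 1 then (ξ n).re * (ξ (n + 1)).im else
    if t = 2 then (ξ n).im * (ξ (n + 1)).re else (ξ n).im * (ξ (n + 1)).im) * lq a c n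

lemma th_le (a c : ℕ) (ξ : ℕ → ℂ) (hξ : ∀ n, ‖ξ n‖ ≤ 1) (t n : ℕ) : |th a c ξ t n| ≤ 1 := by
  have hre : ∀ n, |(ξ n).re| ≤ 1 := fun n => (Complex.abs_re_le_norm _).trans (hξ n)
  have him : ∀ n, |(ξ n).im| ≤ 1 := fun n => (Complex.abs_im_le_norm _).trans (hξ n)
  unfold th
  rw [abs_mul, lq_abs, mul_one]
  split_ifs <;> rw [abs_mul]
  · exact mul_le_one₀ (hre _) (abs_nonneg _) (hre _)
  · exact mul_le_one₀ (hre _) (abs_nonneg _) (him _)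
  · exact mul_le_one₀ (him _) (abs_nonneg _) (hre _)
  · exact mul_le_one₀ (him _) (abs_nonneg _) (him _)

lemma exI_lq (a c v n : ℕ) (h : 1 ≤ a * n) : exI liR (((a * n : ℕ) : ℤ) + ((c + a * v : ℕ) : ℤ)) = ((lq a c (n + v) : ℝ) : ℂ) := by
  have e1 : (((a * n : ℕ) : ℤ) + ((c + a * v : ℕ) : ℤ)) = ((a * (n + v) + c : ℕ) : ℤ) := by push_cast; ring
  rw [e1]
  unfold exI liR lq
  have h2 : 1 ≤ a * (n + v) + c := by
    have : a * n ≤ a * (n + v) := Nat.mul_le_mul_left _ (by omega)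
    omega
  rw [if_pos (by exact_mod_cast h2), Int.toNat_natCast]
  simp

lemma Ioc_sub {f : ℕ → ℝ} {Y X : ℕ} (h : Y ≤ X) : ∑ n ∈ Ioc Y X, f n = ∑ n ∈ Icc 1 X, f n - ∑ n ∈ Icc 1 Y, f n := by
  have h1 : ∀ Z : ℕ, Icc 1 Z = Ioc 0 Z := by intro Z; ext n; simp only [mem_Icc, mem_Ioc]; omega
  rw [h1, h1, ← sum_Ioc_consecutive f (Nat.zero_le Y) h]
  abel

/-- the bound for one length -/
lemma half_of (a c v : ℕ) (ha : 1 ≤ a) (ξ : ℕ → ℂ) (hξ : ∀ n, ‖ξ n‖ ≤ 1) (Q : ℕ) (M : ℝ)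
    (h : ∀ t < 4, ∀ x ≤ Q, ‖∑ n ∈ Icc 1 x, ((th a c ξ t n : ℝ) : ℂ) * exI liR (((a * n : ℕ) : ℤ) + ((c + a * v : ℕ) : ℤ))‖ ≤ M)
    (Y X : ℕ) (hYX : Y ≤ X) (hX : X ≤ Q) :
    ‖∑ n ∈ Ioc Y X, ξ n * (Pk (lq a c) v n : ℂ)‖ ≤ ((X : ℝ) - Y) / 2 + 4 * M + 1 := by
  have key : ∀ t < 4, ∀ x ≤ Q, |∑ n ∈ Icc 1 x, th a c ξ t n * lq a c (n + v)| ≤ M := by
    intro t ht x hx
    have h1 := h t ht x hx
    have h2 : ∑ n ∈ Icc 1 x, ((th a c ξ t n : ℝ) : ℂ) * exI liR (((a * n : ℕ) : ℤ) + ((c + a * v : ℕ) : ℤ)) =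
        ((∑ n ∈ Icc 1 x, th a c ξ t n * lq a c (n + v) : ℝ) : ℂ) := by
      push_cast
      apply sum_congr rfl
      intro n hn
      rw [mem_Icc] at hn
      have h3 := exI_lq a c v n (Nat.mul_pos (by omega) (by omega))
      push_cast at h3
      rw [h3]
    rw [h2, Complex.norm_real, Real.norm_eq_abs] at h1
    exact h1
  have key2 : ∀ t < 4, |∑ n ∈ Ioc Y X, th a c ξ t n * lq a c (n + v)| ≤ 2 * M := by
    intro t ht
    rw [Ioc_sub hYX]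
    have h1 := key t ht X hX
    have h2 := key t ht Y (hYX.trans hX)
    refine (abs_sub _ _).trans ?_
    linarith
  have h5 := twist_le (l := lq a c) (lq_pm a c) v (ξ := ξ) hξ hYX (M := 2 * M)
    (by simpa [th] using key2 0 (by norm_num)) (by simpa [th] using key2 1 (by norm_num))
    (by simpa [th] using key2 2 (by norm_num)) (by simpa [th] using key2 3 (by norm_num))
  linarith

/-- the weights, in one sequence -/
noncomputable def gg4 (a c L : ℕ) (ξ : Fin L → ℕ → ℂ) (i m : ℕ) : ℂ :=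
  if h : i / 4 < L then (if a ∣ m then ((th a c (ξ ⟨i / 4, h⟩) (i % 4) (m / a) : ℝ) : ℂ) else 0) else 0

lemma gg4_le (a c L : ℕ) (ξ : Fin L → ℕ → ℂ) (hξ : ∀ l n, ‖ξ l n‖ ≤ 1) (i m : ℕ) : ‖gg4 a c L ξ i m‖ ≤ 1 := by
  unfold gg4
  split_ifs with h h2
  · rw [Complex.norm_real, Real.norm_eq_abs]
    exact th_le a c _ (hξ _) _ _
  · rw [norm_zero]; norm_num
  · rw [norm_zero]; norm_num

lemma gg4_sum (a c L : ℕ) (ha : 1 ≤ a) (ξ : Fin L → ℕ → ℂ) (l : Fin L) (t : ℕ) (ht : t < 4) (x : ℕ) (s : ℤ) :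
    ∑ n ∈ Icc 1 x, ((th a c (ξ l) t n : ℝ) : ℂ) * exI liR (((a * n : ℕ) : ℤ) + s) =
      ∑ m ∈ Icc 1 (a * x), gg4 a c L ξ (4 * (l : ℕ) + t) m * exI liR ((m : ℤ) + s) := by
  have h1 : (4 * (l : ℕ) + t) / 4 = l := by omega
  have h2 : (4 * (l : ℕ) + t) % 4 = t := by omega
  have h3 : ∀ m, gg4 a c L ξ (4 * (l : ℕ) + t) m = if a ∣ m then ((th a c (ξ l) t (m / a) : ℝ) : ℂ) else 0 := by
    intro m
    unfold gg4
    have h4 : (4 * (l : ℕ) + t) / 4 < L := by rw [h1]; exact l.2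
    rw [dif_pos h4, h2]
    have h5 : (⟨(4 * (l : ℕ) + t) / 4, h4⟩ : Fin L) = l := by
      apply Fin.ext
      exact h1
    rw [h5]
  simp only [h3]
  exact Pool.Agent.W93.LM.spread (fun m => exI liR ((m : ℤ) + s)) (fun n => ((th a c (ξ l) t n : ℝ) : ℂ)) a x ha

/-- the error terms -/
lemma err_small (b U : ℕ) (hb : 2 ≤ b) : ∃ k₀ : ℕ, ∀ k : ℕ, k₀ ≤ k →
    4 * (((b ^ k : ℕ) : ℝ) / (k : ℝ) ^ (U + 1)) + 1 ≤ (b : ℝ) ^ k / (k : ℝ) ^ U := by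
  have hlim := isLittleO_pow_const_const_pow_of_one_lt (R := ℝ) (U + 1) (r := (b : ℝ)) (by exact_mod_cast (by omega : 1 < b))
  have h2 := hlim.def (c := 1) one_pos
  rw [Filter.eventually_atTop] at h2
  obtain ⟨k2, hk2⟩ := h2
  refine ⟨k2 + 5, fun k hk => ?_⟩
  have h3 := hk2 k (by omega)
  rw [Real.norm_of_nonneg (by positivity), Real.norm_of_nonneg (by positivity), one_mul] at h3
  have hk0 : (5 : ℝ) ≤ k := by exact_mod_cast (by omega : 5 ≤ k)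
  have hkp : (0 : ℝ) < (k : ℝ) ^ (U + 1) := by positivity
  have h4 : (1 : ℝ) ≤ (b : ℝ) ^ k / (k : ℝ) ^ (U + 1) := by rwa [le_div_iff₀ hkp, one_mul]
  have h5 : 5 * ((b : ℝ) ^ k / (k : ℝ) ^ (U + 1)) ≤ (b : ℝ) ^ k / (k : ℝ) ^ U := by
    rw [← mul_div_assoc, div_le_div_iff₀ hkp (by positivity), pow_succ]
    have h6 : 0 ≤ (b : ℝ) ^ k * (k : ℝ) ^ U := by positivity
    nlinarith
  push_cast
  linarith

/-- the shifts at which the bound for the products of consecutive values may fail -/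
def LenBad (a c Q : ℕ) {L : ℕ} (ξ : Fin L → ℕ → ℂ) (M : ℝ) (s : ℤ) : Prop :=
  ∃ l : Fin L, ∃ t < 4, ∃ x ≤ Q, M < ‖∑ n ∈ Icc 1 x, ((th a c (ξ l) t n : ℝ) : ℂ) * exI liR (((a * n : ℕ) : ℤ) + s)‖

/-- outside of the bad shifts the bound holds -/
lemma half_ok (b U a c k v L Q : ℕ) (ha : 1 ≤ a) (ξ : Fin L → ℕ → ℂ) (hξ : ∀ l n, ‖ξ l n‖ ≤ 1)
    (herr : 4 * (((b ^ k : ℕ) : ℝ) / (k : ℝ) ^ (U + 1)) + 1 ≤ (b : ℝ) ^ k / (k : ℝ) ^ U)
    (h : ¬ LenBad a c Q ξ (((b ^ k : ℕ) : ℝ) / (k : ℝ) ^ (U + 1)) ((c + a * v : ℕ) : ℤ)) (l : Fin L) (Y X : ℕ) (hYX : Y ≤ X)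
    (hX : X ≤ Q) : ‖∑ n ∈ Ioc Y X, ξ l n * (Pk (lq a c) v n : ℂ)‖ ≤ ((X : ℝ) - Y) / 2 + (b : ℝ) ^ k / (k : ℝ) ^ U := by
  have h1 := half_of a c v ha (ξ l) (hξ l) Q (((b ^ k : ℕ) : ℝ) / (k : ℝ) ^ (U + 1)) (by
    intro t ht x hx
    by_contra hcon
    push Not at hcon
    exact h ⟨l, t, ht, x, hx, hcon⟩) Y X hYX hX
  linarith

end Pool.Agent.V11251.DS
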