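import Pool.Agent.V11251.DS.ArbI

set_option autoImplicit false

/-! Almost all the translates of the palindromes, by duality from the law for arbitrary sets. -/

namespace Pool.Agent.V11251.DS
open Finset
open Pool.Agent.H373R2.T7
open Pool.Agent.TH872.An (Spread V)
open Pool.Agent.TH872.Mir (Pals)

/-- the error for one value of a form -/
noncomputable def FF (z : ℕ) (x : ℤ) : ℝ := IP x - Mo z x

/-- one side of the duality -/
lemma dual_half {α : Type} [DecidableEq α] (S : Finset ℕ) (Ω : Finset α) (F : ℕ → α → ℝ) (M R t δ : ℝ) (hM : 0 ≤ M) (hR : 0 ≤ R)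
    (hδ : 0 ≤ δ)
    (hF : ∀ n ∈ S, ∀ v ∈ Ω, F n v ≤ M) (Bad : Finset α) (hBad : (Bad.card : ℝ) ≤ Ω.card * δ) (hB : Bad ⊆ Ω)
    (A : Finset ℕ) (hA : A ⊆ S) (hA2 : ∀ n ∈ A, t * Ω.card ≤ ∑ v ∈ Ω, F n v)
    (hgood : ∀ v ∈ Ω, v ∉ Bad → ∑ n ∈ A, F n v ≤ R) :
    (A.card : ℝ) * (t * Ω.card) ≤ Ω.card * R + Ω.card * δ * (S.card * M) := by
  have h1 : (A.card : ℝ) * (t * Ω.card) ≤ ∑ n ∈ A, ∑ v ∈ Ω, F n v := by
    rw [← nsmul_eq_mul, ← sum_const]
    exact sum_le_sum hA2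
  have h2 : ∑ n ∈ A, ∑ v ∈ Ω, F n v = ∑ v ∈ Ω \ Bad, ∑ n ∈ A, F n v + ∑ v ∈ Bad, ∑ n ∈ A, F n v := by
    rw [sum_comm, sum_sdiff hB]
  have h3 : ∑ v ∈ Ω \ Bad, ∑ n ∈ A, F n v ≤ Ω.card * R := by
    calc ∑ v ∈ Ω \ Bad, ∑ n ∈ A, F n v ≤ ∑ _v ∈ Ω \ Bad, R := sum_le_sum (fun v hv => by
          rw [mem_sdiff] at hv
          exact hgood v hv.1 hv.2)
      _ = ((Ω \ Bad).card : ℝ) * R := by rw [sum_const, nsmul_eq_mul]
      _ ≤ Ω.card * R := mul_le_mul_of_nonneg_right (Nat.cast_le.2 (card_le_card sdiff_subset)) hR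
  have h4 : ∑ v ∈ Bad, ∑ n ∈ A, F n v ≤ Ω.card * δ * (S.card * M) := by
    calc ∑ v ∈ Bad, ∑ n ∈ A, F n v ≤ ∑ _v ∈ Bad, ((S.card : ℝ) * M) := sum_le_sum (fun v hv => by
          calc ∑ n ∈ A, F n v ≤ ∑ _n ∈ A, M := sum_le_sum (fun n hn => hF n (hA hn) v (hB hv))
            _ = (A.card : ℝ) * M := by rw [sum_const, nsmul_eq_mul]
            _ ≤ S.card * M := mul_le_mul_of_nonneg_right (Nat.cast_le.2 (card_le_card hA)) hM)
      _ = (Bad.card : ℝ) * (S.card * M) := by rw [sum_const, nsmul_eq_mul]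
      _ ≤ Ω.card * δ * (S.card * M) := mul_le_mul_of_nonneg_right hBad (by positivity)
  linarith

lemma IP_le (x : ℤ) : 0 ≤ IP x ∧ IP x ≤ 1 := by
  unfold IP
  split_ifs <;> norm_num

lemma Mo_bd (z : ℕ) (x : ℤ) (L : ℝ) (hV : (Vz z)⁻¹ ≤ L) (hL : 0 ≤ L) : 0 ≤ Mo z x ∧ Mo z x ≤ L * 2 := by
  rw [Mo_eq]
  have h1 := lamzI_nonneg z x
  have h2 := (lamzI_le z x).trans hV
  have h3 := lg_inv_le x
  have h4 := (inv_pos.2 (lg_pos x)).le
  exact ⟨mul_nonneg h1 h4, mul_le_mul h2 h3 h4 hL⟩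

lemma FF_bd (z : ℕ) (x : ℤ) (L : ℝ) (hV : (Vz z)⁻¹ ≤ L) (hL : 1 ≤ L) : |FF z x| ≤ 3 * L := by
  unfold FF
  have h1 := IP_le x
  have h2 := Mo_bd z x L hV (by linarith)
  rw [abs_le]
  constructor <;> linarith [h1.1, h1.2, h2.1, h2.2]

/-- one of two sums is large -/
def BadF {α : Type} (A : ℕ → Finset ℕ) (F : ℕ → α → ℝ) (R : ℝ) (v : α) : Prop := ∃ l < 2, ¬ |∑ n ∈ A l, F n v| ≤ R

open Classical in
/-- the duality in the form which is used -/
lemma dual_final {α : Type} [DecidableEq α] (N : ℕ) (Ω : Finset α) (hΩ : 0 < Ω.card) (F : ℕ → α → ℝ) (L : ℝ) (hL : 2 ≤ L) (U : ℕ)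
    (hF : ∀ n ∈ Icc 1 N, ∀ v ∈ Ω, |F n v| ≤ 3 * L)
    (hlaw : ∀ A : ℕ → Finset ℕ, (∀ l, A l ⊆ Icc 1 N) → ((Ω.filter (fun v => BadF A F (N / L ^ (2 * U + 4)) v)).card : ℝ) ≤
      Ω.card * (1 / L ^ (2 * U + 4)))
    (G : ℕ → Prop) (hG : ∀ n, |∑ v ∈ Ω, F n v| ≤ Ω.card / L ^ U → G n) [DecidablePred fun n => ¬ G n] :
    (((Icc 1 N).filter fun n => ¬ G n).card : ℝ) ≤ N / L ^ U := by
  classical
  have hL0 : 0 < L := by linarith
  obtain ⟨A0, hA0⟩ : ∃ A0 : Finset ℕ, A0 = (Icc 1 N).filter (fun n => (1 / L ^ U) * Ω.card ≤ ∑ v ∈ Ω, F n v) := ⟨_, rfl⟩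
  obtain ⟨A1, hA1⟩ : ∃ A1 : Finset ℕ, A1 = (Icc 1 N).filter (fun n => (1 / L ^ U) * Ω.card ≤ ∑ v ∈ Ω, -F n v) := ⟨_, rfl⟩
  obtain ⟨A, hA⟩ : ∃ A : ℕ → Finset ℕ, A = fun l => if l = 0 then A0 else A1 := ⟨_, rfl⟩
  have e0 : A 0 = A0 := by rw [hA]; simp
  have e1 : A 1 = A1 := by rw [hA]; simp
  have s0 : A0 ⊆ Icc 1 N := by rw [hA0]; exact filter_subset _ _
  have s1 : A1 ⊆ Icc 1 N := by rw [hA1]; exact filter_subset _ _
  have hs : ∀ l, A l ⊆ Icc 1 N := by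
    intro l
    rw [hA]
    show (if l = 0 then A0 else A1) ⊆ Icc 1 N
    split_ifs
    · exact s0
    · exact s1
  have hb := hlaw A hs
  obtain ⟨Bad, hBad⟩ : ∃ Bad : Finset α, Bad = Ω.filter (fun v => BadF A F (N / L ^ (2 * U + 4)) v) := ⟨_, rfl⟩
  rw [← hBad] at hb
  have hBs : Bad ⊆ Ω := by rw [hBad]; exact filter_subset _ _
  have hgood : ∀ l < 2, ∀ v ∈ Ω, v ∉ Bad → |∑ n ∈ A l, F n v| ≤ N / L ^ (2 * U + 4) := by
    intro l hl v hv hvb
    by_contra hcon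
    apply hvb
    rw [hBad, mem_filter]
    exact ⟨hv, l, hl, hcon⟩
  have hc : ((Icc 1 N).card : ℝ) = N := by rw [Nat.card_Icc, Nat.add_sub_cancel]
  have k0 := dual_half (Icc 1 N) Ω F (3 * L) (N / L ^ (2 * U + 4)) (1 / L ^ U) (1 / L ^ (2 * U + 4)) (by positivity) (by positivity)
    (by positivity) (fun n hn v hv => (le_abs_self _).trans (hF n hn v hv)) Bad hb hBs A0 s0 (fun n hn => by
      rw [hA0, mem_filter] at hn
      exact hn.2) (fun v hv hvb => by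
      have := hgood 0 (by norm_num) v hv hvb
      rw [e0] at this
      exact (le_abs_self _).trans this)
  have k1 := dual_half (Icc 1 N) Ω (fun n v => -F n v) (3 * L) (N / L ^ (2 * U + 4)) (1 / L ^ U) (1 / L ^ (2 * U + 4)) (by positivity) (by positivity)
    (by positivity) (fun n hn v hv => (neg_le_abs _).trans (hF n hn v hv)) Bad hb hBs A1 s1 (fun n hn => by
      rw [hA1, mem_filter] at hn
      exact hn.2) (fun v hv hvb => by
      have := hgood 1 (by norm_num) v hv hvb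
      rw [e1] at this
      rw [sum_neg_distrib]
      exact (neg_le_abs _).trans this)
  rw [hc] at k0 k1
  have hΩ0 : (0 : ℝ) < Ω.card := by exact_mod_cast hΩ
  have hN0 : (0 : ℝ) ≤ N := Nat.cast_nonneg _
  have hsub : ((Icc 1 N).filter fun n => ¬ G n) ⊆ A0 ∪ A1 := by
    intro n hn
    rw [mem_filter] at hn
    have h1 : ¬ |∑ v ∈ Ω, F n v| ≤ Ω.card / L ^ U := fun h => hn.2 (hG n h)
    push Not at h1
    rw [mem_union, hA0, hA1, mem_filter, mem_filter]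
    rcases lt_abs.1 h1 with h2 | h2
    · left
      refine ⟨hn.1, ?_⟩
      rw [one_div_mul_eq_div]
      exact h2.le
    · right
      refine ⟨hn.1, ?_⟩
      rw [one_div_mul_eq_div, sum_neg_distrib]
      exact h2.le
  have key : ∀ a : ℝ, a * (1 / L ^ U * (Ω.card : ℝ)) ≤ Ω.card * (N / L ^ (2 * U + 4)) + Ω.card * (1 / L ^ (2 * U + 4)) * (N * (3 * L)) →
      a ≤ N / L ^ U / 2 := by
    intro a ha
    have hP : 0 < L ^ U := by positivity
    have hP2 : L ^ (2 * U + 4) = L ^ U * L ^ U * L ^ 4 := by ring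
    have h3 : a * (1 / L ^ U * (Ω.card : ℝ)) = (a / L ^ U) * Ω.card := by ring
    have h4 : (Ω.card : ℝ) * (N / L ^ (2 * U + 4)) + Ω.card * (1 / L ^ (2 * U + 4)) * (N * (3 * L)) =
        (N * (1 + 3 * L) / L ^ (2 * U + 4)) * Ω.card := by ring
    rw [h3, h4] at ha
    have h5 := le_of_mul_le_mul_right ha hΩ0
    rw [div_le_iff₀ hP, hP2] at h5
    refine h5.trans ?_
    have h6 : N * (1 + 3 * L) / (L ^ U * L ^ U * L ^ 4) * L ^ U = N / L ^ U * ((1 + 3 * L) / L ^ 4) := by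
      field_simp
    rw [h6]
    have h7 : (1 + 3 * L) / L ^ 4 ≤ 1 / 2 := by
      rw [div_le_div_iff₀ (by positivity) (by norm_num)]
      have : 2 * 2 * 2 * L ≤ L * L * L * L := by
        have a1 : 2 * 2 ≤ L * L := by nlinarith
        have a2 : 2 * 2 * 2 ≤ L * L * L := by nlinarith
        nlinarith
      nlinarith
    calc N / L ^ U * ((1 + 3 * L) / L ^ 4) ≤ N / L ^ U * (1 / 2) := mul_le_mul_of_nonneg_left h7 (by positivity)
      _ = N / L ^ U / 2 := by ring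
  have m0 := key _ k0
  have m1 := key _ k1
  calc (((Icc 1 N).filter fun n => ¬ G n).card : ℝ) ≤ ((A0 ∪ A1).card : ℝ) := Nat.cast_le.2 (card_le_card hsub)
    _ ≤ ((A0.card + A1.card : ℕ) : ℝ) := Nat.cast_le.2 (card_union_le _ _)
    _ = A0.card + A1.card := by push_cast; rfl
    _ ≤ N / L ^ U := by linarith

lemma DC_one (A : Finset ℕ) (N z : ℕ) (hA : A ⊆ Icc 1 N) (q m : ℤ) :
    DC N z (ind (A : Set ℕ)) (fun _ : Fin 1 => q) (fun _ => m) = |∑ n ∈ A, FF z (q * (n : ℤ) + m)| := by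
  unfold DC
  congr 1
  rw [← sum_subset hA (fun n _ hn => ?_)]
  · apply sum_congr rfl
    intro n hn
    unfold ind FF
    rw [if_pos (by exact_mod_cast hn), one_mul, Fin.prod_univ_one, Fin.prod_univ_one]
  · unfold ind
    rw [if_neg (by exact_mod_cast hn), zero_mul]

open Classical in
/-- almost all translates of the palindromes -/
theorem trans_pal (b : ℕ) (hb : 2 ≤ b) (κ q : ℤ) (hκ : κ ≠ 0) (hq : q ≠ 0) (B U : ℕ) :
    ∃ E₀ : ℕ, ∀ E : ℕ, E₀ ≤ E → ∃ N₀ : ℕ, ∀ N, N₀ ≤ N → ∀ k : ℕ, b ^ k ≤ B * N → N ≤ B * b ^ k →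
    ∀ c : ℤ, |c| ≤ B * N → ∀ z : ℕ, Real.log N ^ E ≤ z → (z : ℝ) ≤ Real.log N ^ (E + 1) →
    ∀ G : ℕ → Prop, (∀ n : ℕ, |∑ v ∈ Pals b k, FF z (q * ((n : ℕ) : ℤ) + (c + κ * (v : ℤ)))| ≤ (Pals b k).card / Real.log N ^ U → G n) →
    ∀ [DecidablePred fun n => ¬ G n], 0 < (Pals b k).card → (((Icc 1 N).filter fun n => ¬ G n).card : ℝ) ≤ N / Real.log N ^ U := by
  obtain ⟨E₀, h⟩ := set_pal 1 (fun _ => b) (fun _ => hb) (fun _ => κ) (fun _ => q) (fun _ => hκ) (fun _ => hq) B 1 (2 * U + 4)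
  refine ⟨E₀, fun E hE => ?_⟩
  obtain ⟨N₀, h1⟩ := h E hE
  obtain ⟨n3, h3⟩ := Vz_inv_small (E + 1)
  obtain ⟨n4, h4⟩ := ev_L' 2
  refine ⟨N₀ + n3 + n4 + 1, fun N hN k hk1 hk2 c hc z hz1 hz2 G hG _ hpos => ?_⟩
  have hL := h4 N (by omega)
  have hzn : 1 ≤ z := by
    have : (1 : ℝ) ≤ z := (one_le_pow₀ (by linarith)).trans hz1
    exact_mod_cast this
  have hV := h3 N (by omega) z hzn hz2
  refine dual_final N (Pals b k) hpos (fun n v => FF z (q * (n : ℤ) + (c + κ * (v : ℤ)))) (Real.log N) (by linarith) U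
    (fun n _ v _ => FF_bd z _ _ hV (by linarith)) (fun A hA => ?_) G hG
  have h5 := h1 N (by omega) (fun _ => k) (fun _ => ⟨hk1, hk2⟩) (fun _ => c) (fun _ => hc) z hz1 hz2 2 (by
      rw [pow_one]; push_cast; linarith) (fun l => (A l : Set ℕ))
    (fun v => ¬ BadF A (fun n v => FF z (q * (n : ℤ) + (c + κ * (v : ℤ)))) (N / Real.log N ^ (2 * U + 4)) (v 0)) (fun v hv hcon => by
      obtain ⟨l, hl, h9⟩ := hcon
      apply h9
      have h6 := hv l hl N le_rfl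
      have h7 := DC_one (A l) N z (hA l) q (c + κ * (v 0 : ℤ))
      have h8 : (fun i : Fin 1 => c + κ * ((v i : ℕ) : ℤ)) = (fun _ => c + κ * (v 0 : ℤ)) := by
        funext i
        rw [Subsingleton.elim i 0]
      rw [h8, h7] at h6
      exact h6)
  have h6 : ((Fintype.piFinset (fun _ : Fin 1 => Pals b k)).card : ℝ) = (Pals b k).card := by
    rw [Fintype.card_piFinset, Fin.prod_univ_one]
  rw [h6] at h5
  rw [mul_one_div]
  refine le_trans (Nat.cast_le.2 (card_le_card_of_injOn (fun v => fun _ : Fin 1 => v) ?_ ?_)) h5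
  · intro v hv
    rw [mem_coe, mem_filter] at hv
    rw [mem_coe, mem_filter, Fintype.mem_piFinset]
    refine ⟨fun _ => hv.1, ?_⟩
    intro hcon
    exact hcon hv.2
  · intro v _ w _ hvw
    exact congrFun hvw 0

open Classical in
/-- the count of the primes in a translate -/
lemma sum_FF {α : Type} (Ω : Finset α) (z : ℕ) (x : α → ℤ) :
    ∑ v ∈ Ω, FF z (x v) = ((Ω.filter (fun v => (x v).toNat.Prime)).card : ℝ) - ∑ v ∈ Ω, Mo z (x v) := by
  unfold FF IP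
  rw [sum_sub_distrib, card_filter, Nat.cast_sum]
  congr 1
  apply sum_congr rfl
  intro v _
  split_ifs <;> simp

open Classical in
/-- almost all translates of the palindromes -/
theorem trans_pal' (b : ℕ) (hb : 2 ≤ b) (κ q : ℤ) (hκ : κ ≠ 0) (hq : q ≠ 0) (B U : ℕ) :
    ∃ E₀ : ℕ, ∀ E : ℕ, E₀ ≤ E → ∃ N₀ : ℕ, ∀ N, N₀ ≤ N → ∀ k : ℕ, b ^ k ≤ B * N → N ≤ B * b ^ k →
    ∀ c : ℤ, |c| ≤ B * N → ∀ z : ℕ, Real.log N ^ E ≤ z → (z : ℝ) ≤ Real.log N ^ (E + 1) →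
    ∀ G : ℕ → Prop, (∀ n : ℕ, |(((Pals b k).filter (fun v => (c + q * (n : ℤ) + κ * ((v : ℕ) : ℤ)).toNat.Prime)).card : ℝ) -
        ∑ v ∈ Pals b k, Mo z (c + q * (n : ℤ) + κ * ((v : ℕ) : ℤ))| ≤ (Pals b k).card / Real.log N ^ U → G n) →
    ∀ [DecidablePred fun n => ¬ G n], (((Icc 1 N).filter fun n => ¬ G n).card : ℝ) ≤ N / Real.log N ^ U := by
  obtain ⟨E₀, h⟩ := trans_pal b hb κ q hκ hq B U
  refine ⟨E₀, fun E hE => ?_⟩
  obtain ⟨N₀, h1⟩ := h E hE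
  refine ⟨N₀, fun N hN k hk1 hk2 c hc z hz1 hz2 G hG _ => ?_⟩
  rcases Nat.eq_zero_or_pos (Pals b k).card with h0 | h0
  · have h2 : ((Icc 1 N).filter fun n => ¬ G n) = ∅ := by
      rw [filter_eq_empty_iff]
      intro n _
      rw [not_not]
      apply hG
      rw [card_eq_zero] at h0
      rw [h0]
      simp
    rw [h2, card_empty, Nat.cast_zero]
    have : 0 ≤ Real.log N := Real.log_natCast_nonneg _
    positivity
  · refine h1 N hN k hk1 hk2 c hc z hz1 hz2 G (fun n hn => hG n ?_) h0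
    rw [← sum_FF]
    have e : ∀ v : ℕ, c + q * (n : ℤ) + κ * ((v : ℕ) : ℤ) = q * (n : ℤ) + (c + κ * (v : ℤ)) := fun v => by ring
    simp only [e]
    exact hn

lemma dig_iff (b k v : ℕ) (hb : 2 ≤ b) (hk : 1 ≤ k) (h1 : b ^ (k - 1) ≤ v) (h2 : v < b ^ k) :
    (Nat.digits b v).reverse = Nat.digits b v ↔ ∀ j < k, v / b ^ j % b = v / b ^ (k - 1 - j) % b := by
  have hv : v ≠ 0 := by
    have : 0 < b ^ (k - 1) := by positivity
    omega
  have hlen : (Nat.digits b v).length = k := by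
    rw [Nat.digits_len b v (by omega) hv]
    have h3 : Nat.log b v = k - 1 := by
      rw [Nat.log_eq_iff (Or.inr ⟨by omega, hv⟩)]
      exact ⟨h1, by rwa [Nat.sub_add_cancel hk]⟩
    rw [h3, Nat.sub_add_cancel hk]
  have hd : ∀ j (hj : j < (Nat.digits b v).length), (Nat.digits b v)[j] = v / b ^ j % b := by
    intro j hj
    rw [← Nat.getD_digits v j hb, List.getD_eq_getElem _ _ hj]
  constructor
  · intro h j hj
    have hj' : j < (Nat.digits b v).length := by omega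
    have hj2 : j < (Nat.digits b v).reverse.length := by rw [List.length_reverse]; exact hj'
    have h4 : (Nat.digits b v).reverse[j]'hj2 = (Nat.digits b v)[j] := by
      congr 1
    rw [List.getElem_reverse, hd, hd, hlen] at h4
    exact h4.symm
  · intro h
    apply List.ext_getElem
    · rw [List.length_reverse]
    · intro j h5 h6
      rw [List.getElem_reverse, hd, hd, hlen]
      exact (h j (by omega)).symm

open Classical in
/-- the palindromes through `Nat.digits` -/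
lemma pals_digits (b k : ℕ) (hb : 2 ≤ b) (hk : 1 ≤ k) :
    (range (b ^ k)).filter (fun v => b ^ (k - 1) ≤ v ∧ (Nat.digits b v).reverse = Nat.digits b v) = Pals b k := by
  unfold Pool.Agent.TH872.Mir.Pals
  ext v
  rw [mem_filter, mem_filter, mem_range]
  constructor
  · rintro ⟨h1, h2, h3⟩
    exact ⟨h1, h2, h1, (dig_iff b k v hb hk h2 h1).1 h3⟩
  · rintro ⟨h1, h2, _, h3⟩
    exact ⟨h1, h2, (dig_iff b k v hb hk h2 h1).2 h3⟩

end Pool.Agent.V11251.DS
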