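import Pool.Agent.V11251.DS.Trans
import Pool.Agent.H373R2.T7.Fund
import Pool.Agent.H181R5.PB_T9

set_option autoImplicit false

/-! The number of the palindromes in a translate without small prime factors. -/

namespace Pool.Agent.V11251.DS
open Finset
open Pool.Agent.H373R2.T7
open Pool.Agent.H39R3.PB (cnt pv BVB fr)
open Pool.Agent.H181R5.PBT9 (pvl pvl_pv modEq_shift pvl_inj palin palin_eq)

open Classical in
/-- the palindromes with `2L+1` digits and leading digit `l` -/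
noncomputable def OmL (b l L : ℕ) : Finset ℕ := (univ : Finset (Fin L → Fin b)).image (pvl b l L)

open Classical in
lemma cnt_OmL (b l L a q : ℕ) (hb : 2 ≤ b) (hL : 1 ≤ L) (hl1 : 1 ≤ l) (hl2 : l < b) (hq : 1 ≤ q) :
    (((OmL b l L).filter (fun v => q ∣ a + v)).card : ℝ) = cnt b L q ((q - 1) * (a + (l - 1) * (b ^ (2 * L) + 1))) := by
  unfold OmL cnt
  rw [filter_image, card_image_of_injOn]
  · congr 2
    apply filter_congr
    intro m _
    rw [pvl_pv hl1]
    have h1 : q ∣ a + (pv b L m + (l - 1) * (b ^ (2 * L) + 1)) ↔ pv b L m + (a + (l - 1) * (b ^ (2 * L) + 1)) ≡ 0 [MOD q] := by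
      rw [Nat.modEq_zero_iff_dvd, show a + (pv b L m + (l - 1) * (b ^ (2 * L) + 1)) = pv b L m + (a + (l - 1) * (b ^ (2 * L) + 1)) by ring]
    rw [h1, modEq_shift hq, zero_add]
  · intro m _ m' _ h
    have h2 := pvl_inj hb L hL (show ((l, m) : ℕ × (Fin L → Fin b)) ∈ {x : ℕ × (Fin L → Fin b) | x.1 < b} from hl2)
      (show ((l, m') : ℕ × (Fin L → Fin b)) ∈ {x : ℕ × (Fin L → Fin b) | x.1 < b} from hl2) h
    exact (Prod.mk.inj h2).2

open Classical in
/-- inclusion and exclusion over the small primes -/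
lemma incl (S0 T Ω : Finset ℕ) (hit : ℕ → ℕ → Prop) :
    (((Ω.filter (fun v => ∀ p ∈ S0, ¬ hit p v)).filter (fun v => ∀ p ∈ T, hit p v)).card : ℝ) =
    ∑ D ∈ S0.powerset, (-1 : ℝ) ^ D.card * ((Ω.filter (fun v => ∀ p ∈ D ∪ T, hit p v)).card : ℝ) := by
  rw [filter_filter, card_filter, Nat.cast_sum]
  have h1 : ∀ D ∈ S0.powerset, (-1 : ℝ) ^ D.card * ((Ω.filter (fun v => ∀ p ∈ D ∪ T, hit p v)).card : ℝ) =
      ∑ v ∈ Ω, (-1 : ℝ) ^ D.card * (if ∀ p ∈ D ∪ T, hit p v then 1 else 0) := by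
    intro D _
    rw [card_filter, Nat.cast_sum, mul_sum]
    apply sum_congr rfl
    intro v _
    congr 1
    split_ifs <;> simp
  rw [sum_congr rfl h1, sum_comm]
  apply sum_congr rfl
  intro v _
  have h2 := prod_add (fun p => -(if hit p v then (1 : ℝ) else 0)) (fun _ => 1) S0
  have h3 : ∀ (A : Finset ℕ), ∏ p ∈ A, (if hit p v then (1 : ℝ) else 0) = if ∀ p ∈ A, hit p v then 1 else 0 := by
    intro A
    split_ifs with h
    · exact prod_eq_one (fun p hp => by rw [if_pos (h p hp)])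
    · push Not at h
      obtain ⟨p, hp, h4⟩ := h
      exact prod_eq_zero hp (by rw [if_neg h4])
  have h4 : ∏ p ∈ S0, (-(if hit p v then (1 : ℝ) else 0) + 1) = if ∀ p ∈ S0, ¬ hit p v then 1 else 0 := by
    split_ifs with h
    · exact prod_eq_one (fun p hp => by rw [if_neg (h p hp)]; ring)
    · push Not at h
      obtain ⟨p, hp, h4⟩ := h
      exact prod_eq_zero hp (by rw [if_pos h4]; ring)
  rw [h4] at h2
  have h5 : ((if (∀ p ∈ S0, ¬ hit p v) ∧ ∀ p ∈ T, hit p v then 1 else 0 : ℕ) : ℝ) =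
      (if ∀ p ∈ S0, ¬ hit p v then (1 : ℝ) else 0) * (if ∀ p ∈ T, hit p v then (1 : ℝ) else 0) := by
    by_cases a1 : ∀ p ∈ S0, ¬ hit p v
    · by_cases a2 : ∀ p ∈ T, hit p v
      · rw [if_pos a1, if_pos a2, if_pos ⟨a1, a2⟩]; simp
      · rw [if_pos a1, if_neg a2, if_neg (fun h => a2 h.2)]; simp
    · rw [if_neg a1, if_neg (fun h => a1 h.1)]; simp
  rw [h5, h2, sum_mul]
  apply sum_congr rfl
  intro D _
  rw [prod_const_one, mul_one, prod_neg, h3]
  have h6 : (if ∀ p ∈ D ∪ T, hit p v then (1 : ℝ) else 0) = (if ∀ p ∈ D, hit p v then (1 : ℝ) else 0) * (if ∀ p ∈ T, hit p v then (1 : ℝ) else 0) := by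
    by_cases a1 : ∀ p ∈ D, hit p v
    · by_cases a2 : ∀ p ∈ T, hit p v
      · rw [if_pos a1, if_pos a2, if_pos (fun p hp => (mem_union.1 hp).elim (a1 p) (a2 p))]; simp
      · rw [if_neg a2, if_neg (fun h => a2 (fun p hp => h p (mem_union_right _ hp)))]; simp
    · rw [if_neg a1, if_neg (fun h => a1 (fun p hp => h p (mem_union_left _ hp)))]; simp
  rw [h6]
  ring

/-- the same for the products of `1 - 1/p` -/
lemma incl_prod (S0 : Finset ℕ) : ∏ p ∈ S0, (1 - 1 / (p : ℝ)) = ∑ D ∈ S0.powerset, (-1 : ℝ) ^ D.card * ∏ p ∈ D, (1 / (p : ℝ)) := by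
  classical
  have h2 := prod_add (fun p : ℕ => -(1 / (p : ℝ))) (fun _ => 1) S0
  have h3 : ∏ p ∈ S0, (1 - 1 / (p : ℝ)) = ∏ p ∈ S0, (-(1 / (p : ℝ)) + 1) := prod_congr rfl (fun p _ => by ring)
  rw [h3, h2]
  apply sum_congr rfl
  intro D _
  rw [prod_const_one, mul_one, prod_neg]

end Pool.Agent.V11251.DS
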