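import Pool.Agent.V11251.DS.TransA

set_option autoImplicit false

/-! The fundamental lemma for the translates of the palindromes. -/

namespace Pool.Agent.V11251.DS
open Finset
open Pool.Agent.H373R2.T7
open Pool.Agent.H39R3.PB (cnt pv BVB fr)
open Pool.Agent.H181R5.PBT9 (pvl pvl_pv modEq_shift pvl_inj palin palin_eq)

/-- sums over sets of primes against sums over integers -/
lemma sum_inj2 (P T0 : Finset ℕ) (hP : ∀ p ∈ P, p.Prime) (hT0 : ∀ p ∈ T0, p.Prime) (hd : Disjoint T0 P) (D : ℕ) (f : ℕ → ℝ) (hf : ∀ d, 0 ≤ f d) :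
    ∑ T ∈ P.powerset.filter (fun T : Finset ℕ => ∏ p ∈ T, p ≤ D), f (∏ p ∈ T0 ∪ T, p) ≤ ∑ d ∈ Icc 1 ((∏ p ∈ T0, p) * D), f d := by
  classical
  have hK : 0 < ∏ p ∈ T0, p := Nat.pos_of_ne_zero (prod_ne_zero_iff.2 fun p hp => (hT0 p hp).ne_zero)
  have hinj : Set.InjOn (fun T : Finset ℕ => ∏ p ∈ T0 ∪ T, p) (P.powerset.filter (fun T : Finset ℕ => ∏ p ∈ T, p ≤ D) : Set (Finset ℕ)) := by
    intro T hT T' hT' h
    rw [mem_coe, mem_filter, mem_powerset] at hT hT'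
    simp only at h
    rw [prod_union (disjoint_of_subset_right hT.1 hd), prod_union (disjoint_of_subset_right hT'.1 hd)] at h
    have h2 := Nat.eq_of_mul_eq_mul_left hK h
    exact prod_inj T T' (fun p hp => hP p (hT.1 hp)) (fun p hp => hP p (hT'.1 hp)) h2
  rw [← sum_image (f := f) hinj]
  apply sum_le_sum_of_subset_of_nonneg
  · intro d hd'
    rw [mem_image] at hd'
    obtain ⟨T, hT, rfl⟩ := hd'
    rw [mem_filter, mem_powerset] at hT
    rw [prod_union (disjoint_of_subset_right hT.1 hd), mem_Icc]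
    have h1 : 0 < ∏ p ∈ T, p := Nat.pos_of_ne_zero (prod_ne_zero_iff.2 fun p hp => (hP p (hT.1 hp)).ne_zero)
    exact ⟨Nat.mul_pos hK h1, Nat.mul_le_mul_left _ hT.2⟩
  · intro _ _ _
    exact hf _

/-- the error of the count of the multiples of `d` -/
noncomputable def fD (b L a l d : ℕ) : ℝ :=
  if d.Coprime (2 * b) then |cnt b L d ((d - 1) * (a + (l - 1) * (b ^ (2 * L) + 1))) - (b : ℝ) ^ L / d| else 0

lemma fD_nonneg (b L a l d : ℕ) : 0 ≤ fD b L a l d := by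
  unfold fD
  split_ifs
  · exact abs_nonneg _
  · exact le_rfl

/-- `p` divides `a + v` -/
def hitA (a p v : ℕ) : Prop := p ∣ a + v

/-- the primes up to `z` which do not divide `b` -/
noncomputable def pzb (b z : ℕ) : Finset ℕ := (Pool.Agent.H373R2.T7.pz z).filter (fun p => ¬ p ∣ b)

lemma mem_pzb {b z p : ℕ} : p ∈ pzb b z ↔ (p ≤ z ∧ p.Prime) ∧ ¬ p ∣ b := by
  unfold pzb
  rw [mem_filter, mem_pz]

open Classical in
lemma count_T (b L a l : ℕ) (hb : 3 ≤ b) (hev : Even b) (hL : 1 ≤ L) (hl1 : 1 ≤ l) (hl2 : l < b) (T : Finset ℕ)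
    (hT : ∀ p ∈ T, p.Prime ∧ ¬ p ∣ b) :
    |(((OmL b l L).filter (fun v => ∀ p ∈ T, hitA a p v)).card : ℝ) - (b : ℝ) ^ L * ∏ p ∈ T, (1 / (p : ℝ))| ≤ fD b L a l (∏ p ∈ T, p) := by
  have hTp : ∀ p ∈ T, p.Prime := fun p hp => (hT p hp).1
  have h0 : 0 < ∏ p ∈ T, p := Nat.pos_of_ne_zero (prod_ne_zero_iff.2 fun p hp => (hTp p hp).ne_zero)
  have h1 : (OmL b l L).filter (fun v => ∀ p ∈ T, hitA a p v) = (OmL b l L).filter (fun v => (∏ p ∈ T, p) ∣ a + v) := by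
    apply filter_congr
    intro v _
    exact prod_dvd_iff T hTp _
  have h2 : (∏ p ∈ T, p).Coprime (2 * b) := by
    apply Nat.Coprime.prod_left
    intro p hp
    rw [(hTp p hp).coprime_iff_not_dvd]
    intro h
    apply (hT p hp).2
    rcases ((hTp p hp).dvd_mul).1 h with h3 | h3
    · have : p = 2 := (Nat.prime_dvd_prime_iff_eq (hTp p hp) Nat.prime_two).1 h3
      rw [this]
      exact hev.two_dvd
    · exact h3
  have h3 : (b : ℝ) ^ L * ∏ p ∈ T, (1 / (p : ℝ)) = (b : ℝ) ^ L / ((∏ p ∈ T, p : ℕ) : ℝ) := by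
    rw [Nat.cast_prod]
    simp only [one_div]
    rw [prod_inv_distrib]
    rfl
  rw [h1, h3, cnt_OmL b l L a _ (by omega) hL hl1 hl2 h0]
  unfold fD
  rw [if_pos h2]

open Classical in
theorem sieve_core (b : ℕ) (hb : 3 ≤ b) (hev : Even b) : ∃ C0 : ℕ, 1 ≤ C0 ∧ ∀ b' : ℕ, C0 ≤ b' → ∀ z L a l : ℕ, 1 ≤ L → 1 ≤ l →
    l < b → C0 + b ≤ z →
    |(((OmL b l L).filter (fun v => ∀ p ∈ pzb b z, ¬ hitA a p v)).card : ℝ) - (b : ℝ) ^ L * ∏ p ∈ pzb b z, (1 - 1 / (p : ℝ))| ≤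
      (1 / 2 : ℝ) ^ b' * ((b : ℝ) ^ L * ∏ p ∈ pzb b z, (1 - 1 / (p : ℝ))) +
      ((JJ z : ℝ) + 2) * (2 ^ (pzb b (C0 + b)).card *
        ∑ d ∈ Icc 1 ((∏ p ∈ pzb b (C0 + b), p) * (2 ^ 2 ^ JJ z) ^ (C0 * b')), fD b L a l d) := by
  obtain ⟨C0, hC0, hFL⟩ := Pool.Agent.H20R2.fLem 1
  refine ⟨C0, hC0, fun b' hb' z L a l hL hl1 hl2 hz => ?_⟩
  obtain ⟨S0, hS0⟩ : ∃ S0 : Finset ℕ, S0 = pzb b (C0 + b) := ⟨_, rfl⟩
  obtain ⟨P, hP⟩ : ∃ P : Finset ℕ, P = (Pool.Agent.H373R2.T7.pz z).filter (fun p => C0 + b < p) := ⟨_, rfl⟩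
  have hPp : ∀ p ∈ P, p.Prime ∧ C0 + b < p ∧ p ≤ z := by
    intro p hp
    rw [hP, mem_filter, mem_pz] at hp
    exact ⟨hp.1.2, hp.2, hp.1.1⟩
  have hPb : ∀ p ∈ P, ¬ p ∣ b := fun p hp h => by
    have h1 := Nat.le_of_dvd (by omega) h
    have h2 := (hPp p hp).2.1
    omega
  have hS0p : ∀ p ∈ S0, p.Prime ∧ ¬ p ∣ b := by
    intro p hp
    rw [hS0, mem_pzb] at hp
    exact ⟨hp.1.2, hp.2⟩
  have hunion : pzb b z = S0 ∪ P := by
    ext p
    rw [mem_union, mem_pzb, hS0, mem_pzb, hP, mem_filter, mem_pz]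
    constructor
    · rintro ⟨⟨h1, h2⟩, h3⟩
      rcases Nat.lt_or_ge (C0 + b) p with h | h
      · exact Or.inr ⟨⟨h1, h2⟩, h⟩
      · exact Or.inl ⟨⟨h, h2⟩, h3⟩
    · rintro (⟨⟨h1, h2⟩, h3⟩ | ⟨⟨h1, h2⟩, h4⟩)
      · exact ⟨⟨by omega, h2⟩, h3⟩
      · exact ⟨⟨h1, h2⟩, fun h => by
          have := Nat.le_of_dvd (by omega) h
          omega⟩
  have hdisj : Disjoint S0 P := by
    rw [disjoint_left]
    intro p hp hp'
    rw [hS0, mem_pzb] at hp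
    have := (hPp p hp').2.1
    omega
  have hbL : 0 < (b : ℝ) ^ L := by
    have : (0 : ℝ) < b := by exact_mod_cast (by omega : 0 < b)
    positivity
  obtain ⟨A0, hA0⟩ : ∃ A0 : ℝ, A0 = (b : ℝ) ^ L * ∏ p ∈ S0, (1 - 1 / (p : ℝ)) := ⟨_, rfl⟩
  have hfac : ∀ p : ℕ, p.Prime → 0 ≤ 1 - 1 / (p : ℝ) := by
    intro p hp
    have hp2 : (2 : ℝ) ≤ p := by exact_mod_cast hp.two_le
    rw [sub_nonneg, div_le_one (by linarith)]
    linarith
  have hA00 : 0 ≤ A0 := by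
    rw [hA0]
    exact mul_nonneg hbL.le (prod_nonneg (fun p hp => hfac p (hS0p p hp).1))
  have key := hFL b' (JJ z) (C0 + b) P (fun p => 1 / (p : ℝ)) hb' (by omega)
    (fun p hp => ⟨(hPp p hp).1, (hPp p hp).2.1, (hPp p hp).2.2.trans (JJ_lt z).le⟩) (fun p hp => by
      have hp2 : (2 : ℝ) ≤ p := by exact_mod_cast (hPp p hp).1.two_le
      refine ⟨by positivity, ?_⟩
      push_cast
      exact one_div_le_one_div_of_le (by linarith) (by linarith))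
    ((OmL b l L).filter (fun v => ∀ p ∈ S0, ¬ hitA a p v)) (fun _ => 1) (hitA a) A0
    (fun T => ∑ D ∈ S0.powerset, fD b L a l (∏ p ∈ D ∪ T, p)) (fun _ _ => zero_le_one) hA00 (by
      intro T hT _
      have hTp : ∀ p ∈ T, p.Prime ∧ ¬ p ∣ b := fun p hp => ⟨(hPp p (hT hp)).1, hPb p (hT hp)⟩
      have e1 : ∑ m ∈ ((OmL b l L).filter (fun v => ∀ p ∈ S0, ¬ hitA a p v)).filter (fun v => ∀ p ∈ T, hitA a p v), (1 : ℝ) =
          ((((OmL b l L).filter (fun v => ∀ p ∈ S0, ¬ hitA a p v)).filter (fun v => ∀ p ∈ T, hitA a p v)).card : ℝ) := by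
        rw [sum_const, nsmul_eq_mul, mul_one]
      have e2 := incl S0 T (OmL b l L) (hitA a)
      have e3 : A0 * ∏ p ∈ T, (1 / (p : ℝ)) = ∑ D ∈ S0.powerset, (-1 : ℝ) ^ D.card * ((b : ℝ) ^ L * ∏ p ∈ D ∪ T, (1 / (p : ℝ))) := by
        rw [hA0, incl_prod, mul_sum, sum_mul]
        apply sum_congr rfl
        intro D hD
        rw [mem_powerset] at hD
        rw [prod_union (disjoint_of_subset_left hD (disjoint_of_subset_right hT hdisj))]
        ring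
      rw [e1, e2, e3, ← sum_sub_distrib]
      refine (abs_sum_le_sum_abs _ _).trans (sum_le_sum fun D hD => ?_)
      rw [mem_powerset] at hD
      rw [← mul_sub, abs_mul, abs_pow, abs_neg, abs_one, one_pow, one_mul]
      exact count_T b L a l hb hev hL hl1 hl2 (D ∪ T) (fun p hp => (mem_union.1 hp).elim (fun h => hS0p p (hD h)) (hTp p)))
  have f1 : A0 * ∏ p ∈ P, (1 - 1 / (p : ℝ)) = (b : ℝ) ^ L * ∏ p ∈ pzb b z, (1 - 1 / (p : ℝ)) := by
    rw [hunion, prod_union hdisj, hA0]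
    ring
  have f2 : ∑ m ∈ ((OmL b l L).filter (fun v => ∀ p ∈ S0, ¬ hitA a p v)).filter (fun v => ∀ p ∈ P, ¬ hitA a p v), (1 : ℝ) =
      (((OmL b l L).filter (fun v => ∀ p ∈ pzb b z, ¬ hitA a p v)).card : ℝ) := by
    rw [sum_const, nsmul_eq_mul, mul_one, filter_filter, hunion]
    congr 2
    apply filter_congr
    intro v _
    constructor
    · rintro ⟨h1, h2⟩ p hp
      exact (mem_union.1 hp).elim (h1 p) (h2 p)
    · intro h
      exact ⟨fun p hp => h p (mem_union_left _ hp), fun p hp => h p (mem_union_right _ hp)⟩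
  rw [f1, f2] at key
  refine key.trans (add_le_add le_rfl (mul_le_mul_of_nonneg_left ?_ (by positivity)))
  rw [sum_comm]
  have g1 : ∀ D ∈ S0.powerset, ∑ T ∈ P.powerset.filter (fun T : Finset ℕ => ∏ p ∈ T, p ≤ (2 ^ 2 ^ JJ z) ^ (C0 * b')), fD b L a l (∏ p ∈ D ∪ T, p) ≤
      ∑ d ∈ Icc 1 ((∏ p ∈ pzb b (C0 + b), p) * (2 ^ 2 ^ JJ z) ^ (C0 * b')), fD b L a l d := by
    intro D hD
    rw [mem_powerset] at hD
    refine (sum_inj2 P D (fun p hp => (hPp p hp).1) (fun p hp => (hS0p p (hD hp)).1) (disjoint_of_subset_left hD hdisj) _ _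
      (fD_nonneg b L a l)).trans ?_
    apply sum_le_sum_of_subset_of_nonneg
    · apply Icc_subset_Icc le_rfl
      apply Nat.mul_le_mul_right
      rw [← hS0]
      exact prod_le_prod_of_subset_of_one_le' hD (fun p hp _ => (hS0p p hp).1.one_le)
    · intro _ _ _
      exact fD_nonneg _ _ _ _ _
  calc _ ≤ ∑ D ∈ S0.powerset, ∑ d ∈ Icc 1 ((∏ p ∈ pzb b (C0 + b), p) * (2 ^ 2 ^ JJ z) ^ (C0 * b')), fD b L a l d := sum_le_sum g1
    _ = _ := by
      rw [sum_const, card_powerset, nsmul_eq_mul, hS0]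
      push_cast
      rfl

end Pool.Agent.V11251.DS
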