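import Pool.Agent.V11251.DS.TransB

set_option autoImplicit false

/-! The number of the palindromes with a given leading digit in a translate without small prime factors: asymptotics. -/

namespace Pool.Agent.V11251.DS
open Finset Filter
open Pool.Agent.H373R2.T7
open Pool.Agent.H39R3.PB (cnt pv BVB fr)
open Pool.Agent.H181R5.PBT9 (pvl pvl_pv modEq_shift pvl_inj palin palin_eq)

/-- the product over the primes up to `z` which do not divide `b` -/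
noncomputable def Wb (b z : ℕ) : ℝ := ∏ p ∈ pzb b z, (1 - 1 / (p : ℝ))

lemma fac01 (p : ℕ) (hp : p.Prime) : 0 < 1 - 1 / (p : ℝ) ∧ 1 - 1 / (p : ℝ) ≤ 1 := by
  have hp2 : (2 : ℝ) ≤ p := by exact_mod_cast hp.two_le
  have h1 : 0 < 1 / (p : ℝ) := by positivity
  have h2 : 1 / (p : ℝ) ≤ 1 / 2 := one_div_le_one_div_of_le (by norm_num) hp2
  constructor <;> linarith

lemma Vz_split (b z : ℕ) (hb : 1 ≤ b) (hz : b ≤ z) : Vz z = Wb b z * ((Nat.totient b : ℝ) / b) := by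
  have h1 : Vz z = ∏ p ∈ Pool.Agent.H373R2.T7.pz z, (1 - 1 / (p : ℝ)) := rfl
  have h2 : (Pool.Agent.H373R2.T7.pz z).filter (fun p => p ∣ b) = b.primeFactors := by
    ext p
    rw [mem_filter, mem_pz, Nat.mem_primeFactors]
    constructor
    · rintro ⟨⟨_, h4⟩, h5⟩
      exact ⟨h4, h5, by omega⟩
    · rintro ⟨h4, h5, _⟩
      exact ⟨⟨(Nat.le_of_dvd (by omega) h5).trans hz, h4⟩, h5⟩
  have h3 := Nat.totient_eq_mul_prod_factors b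
  have h4 : (Nat.totient b : ℝ) = b * ∏ p ∈ b.primeFactors, (1 - (p : ℝ)⁻¹) := by
    have h5 : ((Nat.totient b : ℚ) : ℝ) = ((b * ∏ p ∈ b.primeFactors, (1 - (p : ℚ)⁻¹) : ℚ) : ℝ) := by rw [h3]
    push_cast at h5
    exact h5
  have hb0 : (b : ℝ) ≠ 0 := by
    have : (0 : ℝ) < b := by exact_mod_cast hb
    exact this.ne'
  rw [h1, ← prod_filter_mul_prod_filter_not _ (fun p => p ∣ b), h2, h4, mul_div_cancel_left₀ _ hb0, mul_comm]
  unfold Wb pzb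
  simp only [one_div]

lemma Wb_pos (b z : ℕ) : 0 < Wb b z := prod_pos (fun p hp => (fac01 p (mem_pzb.1 hp).1.2).1)

lemma Wb_ge (b z : ℕ) (hb : 1 ≤ b) (hbz : b ≤ z) (hz : 1 ≤ z) : 1 / (z : ℝ) ≤ Wb b z := by
  have h1 := Vz_ge z hz
  rw [Vz_split b z hb hbz] at h1
  have h2 : (Nat.totient b : ℝ) / b ≤ 1 := by
    have hb0 : (0 : ℝ) < b := by exact_mod_cast hb
    rw [div_le_one hb0]
    exact_mod_cast Nat.totient_le b
  have h3 := Wb_pos b z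
  calc 1 / (z : ℝ) ≤ _ := h1
    _ ≤ Wb b z * 1 := mul_le_mul_of_nonneg_left h2 h3.le
    _ = Wb b z := mul_one _

lemma ev_pow (b : ℕ) (hb : 3 ≤ b) (K M : ℕ) : ∀ᶠ L : ℕ in atTop, (K : ℝ) * (L : ℝ) ^ M ≤ (b : ℝ) ^ ((1 / 2 - 1 / 4 : ℝ) * L) := by
  have hb1 : (1 : ℝ) < b := by exact_mod_cast (by omega : 1 < b)
  have hr : 1 < (b : ℝ) ^ (1 / 4 : ℝ) := Real.one_lt_rpow hb1 (by norm_num)
  have h := tendsto_pow_const_div_const_pow_of_one_lt M hr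
  have h2 : ∀ᶠ L : ℕ in atTop, (L : ℝ) ^ M / ((b : ℝ) ^ (1 / 4 : ℝ)) ^ L < 1 / ((K : ℝ) + 1) :=
    h.eventually (gt_mem_nhds (by positivity))
  filter_upwards [h2] with L hL
  have h3 : ((b : ℝ) ^ (1 / 4 : ℝ)) ^ L = (b : ℝ) ^ ((1 / 2 - 1 / 4 : ℝ) * L) := by
    rw [← Real.rpow_natCast, ← Real.rpow_mul (by linarith)]
    congr 1
    norm_num
  rw [h3] at hL
  have h4 : 0 < (b : ℝ) ^ ((1 / 2 - 1 / 4 : ℝ) * L) := Real.rpow_pos_of_pos (by linarith) _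
  rw [div_lt_div_iff₀ h4 (by positivity)] at hL
  have h5 : (0 : ℝ) ≤ (L : ℝ) ^ M := by positivity
  nlinarith

theorem sieve_l (b : ℕ) (hb : 3 ≤ b) (hev : Even b) (hBV : BVB b) (ε : ℝ) (hε : 0 < ε) (E : ℕ) : ∃ L₀ z₀ : ℕ, b ≤ z₀ ∧ ∀ L : ℕ, L₀ ≤ L →
    ∀ z : ℕ, z₀ ≤ z → (z : ℝ) ≤ (L : ℝ) ^ E → ∀ a l : ℕ, 1 ≤ l → l < b → ∀ [DecidablePred fun v => ∀ p ∈ pzb b z, ¬ hitA a p v],
    |(((OmL b l L).filter (fun v => ∀ p ∈ pzb b z, ¬ hitA a p v)).card : ℝ) - (b : ℝ) ^ L * Wb b z| ≤ ε * ((b : ℝ) ^ L * Wb b z) := by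
  classical
  obtain ⟨C0, hC0, hcore⟩ := sieve_core b hb hev
  obtain ⟨b1, hb1⟩ := exists_pow_lt_of_lt_one (show (0 : ℝ) < ε / 2 by positivity) (show (1 / 2 : ℝ) < 1 by norm_num)
  obtain ⟨b', hb'⟩ : ∃ b' : ℕ, b' = C0 + b1 := ⟨_, rfl⟩
  have hbe : (1 / 2 : ℝ) ^ b' ≤ ε / 2 := by
    rw [hb']
    exact (pow_le_pow_of_le_one (by norm_num) (by norm_num) (Nat.le_add_left b1 C0)).trans hb1.le
  obtain ⟨S, hS⟩ : ∃ S : ℕ, S = (pzb b (C0 + b)).card := ⟨_, rfl⟩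
  obtain ⟨K0, hK0⟩ : ∃ K0 : ℕ, K0 = ∏ p ∈ pzb b (C0 + b), p := ⟨_, rfl⟩
  obtain ⟨M, hM⟩ : ∃ M : ℕ, M = E * (2 * (C0 * b')) := ⟨_, rfl⟩
  have h1 := hBV (1 / 4) (by norm_num) (2 * E + 1)
  obtain ⟨L₀, h2⟩ := eventually_atTop.1 (h1.and ((ev_pow b hb K0 M).and (eventually_ge_atTop (⌈(2 : ℝ) ^ (S + 2) / ε⌉₊ + 1))))
  refine ⟨L₀, C0 + b + 3, by omega, fun L hL z hz hzL a l hl1 hl2 _ => ?_⟩
  obtain ⟨g1, g2, g3⟩ := h2 L hL
  have hL1 : 1 ≤ L := by omega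
  have hLr : (1 : ℝ) ≤ L := by exact_mod_cast hL1
  have hL0 : (0 : ℝ) < L := by linarith
  have hbr : (1 : ℝ) < b := by exact_mod_cast (by omega : 1 < b)
  have hbL : 0 < (b : ℝ) ^ L := by positivity
  have hW := Wb_pos b z
  have key := hcore b' (by omega) z L a l hL1 hl1 hl2 (by omega)
  rw [← hS, ← hK0] at key
  have hkey : |(((OmL b l L).filter (fun v => ∀ p ∈ pzb b z, ¬ hitA a p v)).card : ℝ) - (b : ℝ) ^ L * Wb b z| ≤
      (1 / 2 : ℝ) ^ b' * ((b : ℝ) ^ L * Wb b z) +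
      ((JJ z : ℝ) + 2) * (2 ^ S * ∑ d ∈ Icc 1 (K0 * (2 ^ 2 ^ JJ z) ^ (C0 * b')), fD b L a l d) := by
    unfold Wb
    convert key
  -- the size of the moduli
  have hsz : K0 * (2 ^ 2 ^ JJ z) ^ (C0 * b') ≤ ⌊(b : ℝ) ^ ((1 / 2 - 1 / 4 : ℝ) * L)⌋₊ := by
    apply Nat.le_floor
    refine le_trans ?_ g2
    push_cast
    apply mul_le_mul_of_nonneg_left _ (Nat.cast_nonneg _)
    have e1 : ((2 : ℝ) ^ 2 ^ JJ z) ≤ (z : ℝ) ^ 2 := by exact_mod_cast JJ_le z (by omega)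
    calc ((2 : ℝ) ^ 2 ^ JJ z) ^ (C0 * b') ≤ ((z : ℝ) ^ 2) ^ (C0 * b') := pow_le_pow_left₀ (by positivity) e1 _
      _ ≤ (((L : ℝ) ^ E) ^ 2) ^ (C0 * b') := by
          apply pow_le_pow_left₀ (by positivity)
          exact pow_le_pow_left₀ (Nat.cast_nonneg _) hzL _
      _ = (L : ℝ) ^ M := by rw [← pow_mul, ← pow_mul, hM]
  have hsum : ∑ d ∈ Icc 1 (K0 * (2 ^ 2 ^ JJ z) ^ (C0 * b')), fD b L a l d ≤ (b : ℝ) ^ L / (L : ℝ) ^ (2 * E + 1) := by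
    refine le_trans ?_ (g1 (fun q => (q - 1) * (a + (l - 1) * (b ^ (2 * L) + 1))))
    rw [sum_filter]
    calc ∑ d ∈ Icc 1 (K0 * (2 ^ 2 ^ JJ z) ^ (C0 * b')), fD b L a l d ≤ ∑ d ∈ Icc 1 ⌊(b : ℝ) ^ ((1 / 2 - 1 / 4 : ℝ) * L)⌋₊, fD b L a l d :=
          sum_le_sum_of_subset_of_nonneg (Icc_subset_Icc le_rfl hsz) (fun _ _ _ => fD_nonneg _ _ _ _ _)
      _ ≤ _ := by
          apply sum_le_sum
          intro d hd
          rw [mem_Icc] at hd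
          unfold fD
          split_ifs
          · have e2 : (1 : ℝ) ≤ (d.divisors.card : ℝ) := by
              exact_mod_cast Finset.card_pos.2 ⟨1, Nat.one_mem_divisors.2 (by omega)⟩
            have e3 : (1 : ℝ) ≤ (d.divisors.card : ℝ) ^ 2 := one_le_pow₀ e2
            exact le_mul_of_one_le_left (abs_nonneg _) e3
          · exact le_rfl
  have hWge := Wb_ge b z (by omega) (by omega) (by omega)
  have hz0 : (0 : ℝ) < z := by exact_mod_cast (by omega : 0 < z)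
  have hWL : 1 / (L : ℝ) ^ E ≤ Wb b z := (one_div_le_one_div_of_le hz0 hzL).trans hWge
  have hJ : ((JJ z : ℝ) + 2) ≤ 2 * (L : ℝ) ^ E := by
    have e1 : ((JJ z + 2 : ℕ) : ℝ) ≤ ((2 * z : ℕ) : ℝ) := Nat.cast_le.2 (JJ_small z (by omega))
    push_cast at e1
    linarith
  have hg3 : (2 : ℝ) ^ (S + 2) / ε ≤ L := by
    have e1 := Nat.le_ceil ((2 : ℝ) ^ (S + 2) / ε)
    have e2 : ((⌈(2 : ℝ) ^ (S + 2) / ε⌉₊ : ℕ) : ℝ) ≤ L := by exact_mod_cast (by omega : ⌈(2 : ℝ) ^ (S + 2) / ε⌉₊ ≤ L)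
    linarith
  have hfin : ((JJ z : ℝ) + 2) * (2 ^ S * ∑ d ∈ Icc 1 (K0 * (2 ^ 2 ^ JJ z) ^ (C0 * b')), fD b L a l d) ≤ ε / 2 * ((b : ℝ) ^ L * Wb b z) := by
    calc ((JJ z : ℝ) + 2) * (2 ^ S * ∑ d ∈ Icc 1 (K0 * (2 ^ 2 ^ JJ z) ^ (C0 * b')), fD b L a l d) ≤
          (2 * (L : ℝ) ^ E) * (2 ^ S * ((b : ℝ) ^ L / (L : ℝ) ^ (2 * E + 1))) := by
          apply mul_le_mul hJ _ _ (by positivity)
          · exact mul_le_mul_of_nonneg_left hsum (by positivity)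
          · apply mul_nonneg (by positivity)
            exact sum_nonneg (fun d _ => fD_nonneg _ _ _ _ _)
      _ = ((2 : ℝ) ^ (S + 2) / L) / 2 * ((b : ℝ) ^ L * (1 / (L : ℝ) ^ E)) := by
          have e5 : (L : ℝ) ^ (2 * E + 1) = (L : ℝ) ^ E * (L : ℝ) ^ E * L := by ring
          rw [e5]
          field_simp
          ring
      _ ≤ ε / 2 * ((b : ℝ) ^ L * Wb b z) := by
          apply mul_le_mul _ _ (by positivity) (by positivity)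
          · apply div_le_div_of_nonneg_right _ (by norm_num)
            rw [div_le_iff₀ hL0]
            rw [div_le_iff₀ hε] at hg3
            linarith
          · exact mul_le_mul_of_nonneg_left hWL hbL.le
  have hBW : 0 < (b : ℝ) ^ L * Wb b z := by positivity
  have := mul_le_mul_of_nonneg_right hbe hBW.le
  linarith

end Pool.Agent.V11251.DS
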