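import Pool.Agent.V11251.DS.TransC

set_option autoImplicit false

/-! The model sums over the translates of the palindromes, evaluated. -/

namespace Pool.Agent.V11251.DS
open Finset Filter
open Pool.Agent.H373R2.T7
open Pool.Agent.TH872.Mir (Pals)
open Pool.Agent.H39R3.PB (cnt pv BVB fr)
open Pool.Agent.H181R5.PBT9 (pvl pvl_pv modEq_shift pvl_inj palin palin_eq)

lemma pvl_mod (b l L : ℕ) (hL : 1 ≤ L) (m : Fin L → Fin b) : pvl b l L m ≡ l [MOD b] := by
  unfold pvl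
  have h1 : l * (b ^ (2 * L) + 1) ≡ l [MOD b] := by
    have h2 : b ∣ l * b ^ (2 * L) := Dvd.dvd.mul_left (dvd_pow_self b (by omega)) l
    have h3 : l * (b ^ (2 * L) + 1) = l * b ^ (2 * L) + l := by ring
    rw [h3]
    exact (Nat.modEq_zero_iff_dvd.2 h2).add_right l |>.trans (by rw [zero_add])
  have h4 : b ∣ ∑ c : Fin L, (m c : ℕ) * fr b L c := by
    apply dvd_sum
    intro c _
    apply Dvd.dvd.mul_left
    unfold fr
    split_ifs with h
    · exact dvd_pow_self b (by omega)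
    · have := c.2
      exact dvd_add (dvd_pow_self b (by omega)) (dvd_pow_self b (by omega))
  exact h1.add (Nat.modEq_zero_iff_dvd.2 h4)

open Classical in
lemma sum_pals (b L : ℕ) (hb : 2 ≤ b) (hL : 1 ≤ L) (F : ℕ → ℝ) :
    ∑ v ∈ Pals b (2 * L + 1), F v = ∑ l ∈ Icc 1 (b - 1), ∑ v ∈ OmL b l L, F v := by
  have h1 : Pals b (2 * L + 1) = palin b L := by
    rw [← pals_digits b (2 * L + 1) hb (by omega)]
    unfold palin
    rw [Nat.add_sub_cancel]
  rw [h1, palin_eq hb L hL, sum_image, sum_product]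
  · apply sum_congr rfl
    intro l hl
    rw [mem_Icc] at hl
    unfold OmL
    rw [sum_image]
    intro m _ m' _ h
    have h2 := pvl_inj hb L hL (show ((l, m) : ℕ × (Fin L → Fin b)) ∈ {x : ℕ × (Fin L → Fin b) | x.1 < b} from (by
      show l < b; omega))
      (show ((l, m') : ℕ × (Fin L → Fin b)) ∈ {x : ℕ × (Fin L → Fin b) | x.1 < b} from (by show l < b; omega)) h
    exact (Prod.mk.inj h2).2
  · intro x hx y hy hxy
    rw [mem_coe, mem_product, mem_Icc] at hx hy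
    exact pvl_inj hb L hL (show x.1 < b by omega) (show y.1 < b by omega) hxy

lemma OmL_sub (b l L : ℕ) (hb : 2 ≤ b) (hL : 1 ≤ L) (hl1 : 1 ≤ l) (hl2 : l < b) (v : ℕ) (hv : v ∈ OmL b l L) :
    b ^ (2 * L) ≤ v ∧ v < b ^ (2 * L + 1) ∧ v ≡ l [MOD b] := by
  classical
  have h1 : v ∈ palin b L := by
    rw [palin_eq hb L hL, mem_image]
    unfold OmL at hv
    rw [mem_image] at hv
    obtain ⟨m, _, h⟩ := hv
    refine ⟨(l, m), ?_, h⟩
    rw [mem_product, mem_Icc]
    exact ⟨⟨hl1, by show l ≤ b - 1; omega⟩, mem_univ _⟩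
  unfold palin at h1
  rw [mem_filter, mem_range] at h1
  refine ⟨h1.2.1, h1.1, ?_⟩
  unfold OmL at hv
  rw [mem_image] at hv
  obtain ⟨m, _, h⟩ := hv
  rw [← h]
  exact pvl_mod b l L hL m

open Classical in
/-- the model sum over the palindromes with a leading digit -/
lemma model_l (b : ℕ) (hb : 3 ≤ b) (L z a l : ℕ) (hL : 1 ≤ L) (hl1 : 1 ≤ l) (hl2 : l < b) (hz : b ≤ z) (ε : ℝ) (hε : 0 < ε) (hε1 : ε ≤ 1)
    (Λ C : ℝ) (hΛ : Λ = Real.log b * (2 * L)) (hC : 0 ≤ C) (hCΛ : C ≤ ε * Λ) (hΛ0 : 0 < Λ)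
    (ha : Real.log ((a + b ^ (2 * L + 1) : ℕ) : ℝ) ≤ Λ + C)
    (hs : |(((OmL b l L).filter (fun v => ∀ p ∈ pzb b z, ¬ hitA a p v)).card : ℝ) - (b : ℝ) ^ L * Wb b z| ≤ ε * ((b : ℝ) ^ L * Wb b z)) :
    |∑ v ∈ OmL b l L, Mo z ((a + v : ℕ) : ℤ) - (if (a + l).Coprime b then (b : ℝ) ^ L * (b / Nat.totient b) / Λ else 0)| ≤
      2 * ε * ((b : ℝ) ^ L * (b / Nat.totient b) / Λ) := by
  have hbr : (1 : ℝ) < b := by exact_mod_cast (by omega : 1 < b)
  have hb0 : (0 : ℝ) < b := by linarith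
  have hbL : 0 < (b : ℝ) ^ L := by positivity
  have hφ : (0 : ℝ) < Nat.totient b := by exact_mod_cast Nat.totient_pos.2 (by omega)
  have hW := Wb_pos b z
  have hVs := Vz_split b z (by omega) hz
  have hV0 : 0 < Vz z := Vz_pos z
  split_ifs with hcop
  · -- the count
    obtain ⟨c, hc⟩ : ∃ c : ℕ, c = ((OmL b l L).filter (fun v => ∀ p ∈ pzb b z, ¬ hitA a p v)).card := ⟨_, rfl⟩
    rw [← hc] at hs
    have hMo : ∀ v ∈ OmL b l L, Mo z ((a + v : ℕ) : ℤ) = if ∀ p ∈ pzb b z, ¬ hitA a p v then 1 / (Real.log ((a + v : ℕ) : ℝ) * Vz z) else 0 := by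
      intro v hv
      obtain ⟨h1, h2, h3⟩ := OmL_sub b l L (by omega) hL hl1 hl2 v hv
      have hv2 : 2 ≤ a + v := by
        have : 2 ≤ b ^ (2 * L) := by
          calc 2 ≤ b := by omega
            _ ≤ b ^ (2 * L) := Nat.le_self_pow (by omega) b
        omega
      rw [Mo_cast]
      unfold moN
      have hV : (∏ p ∈ (Icc 1 z).filter Nat.Prime, (1 - 1 / (p : ℝ))) = Vz z := rfl
      rw [hV, max_eq_left hv2]
      have hiff : (1 ≤ a + v ∧ ∀ p : ℕ, p.Prime → p ≤ z → ¬ p ∣ a + v) ↔ ∀ p ∈ pzb b z, ¬ hitA a p v := by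
        constructor
        · rintro ⟨_, h⟩ p hp
          rw [mem_pzb] at hp
          exact h p hp.1.2 hp.1.1
        · intro h
          refine ⟨by omega, fun p hp hpz hd => ?_⟩
          by_cases hpb : p ∣ b
          · have e1 : a + v ≡ a + l [MOD b] := Nat.ModEq.add_left a h3
            have e2 : p ∣ a + l := (Nat.ModEq.dvd_iff (e1.of_dvd hpb) dvd_rfl).1 hd
            have e3 := Nat.dvd_gcd e2 hpb
            rw [hcop] at e3
            exact hp.one_lt.ne' (Nat.dvd_one.1 e3)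
          · exact h p (mem_pzb.2 ⟨⟨hpz, hp⟩, hpb⟩) hd
      by_cases h : ∀ p ∈ pzb b z, ¬ hitA a p v
      · rw [if_pos h, if_pos (hiff.2 h)]
      · rw [if_neg h, if_neg (fun h' => h (hiff.1 h'))]
    rw [sum_congr rfl hMo, ← sum_filter]
    have hlog : ∀ v ∈ OmL b l L, Λ ≤ Real.log ((a + v : ℕ) : ℝ) ∧ Real.log ((a + v : ℕ) : ℝ) ≤ Λ + C := by
      intro v hv
      obtain ⟨h1, h2, h3⟩ := OmL_sub b l L (by omega) hL hl1 hl2 v hv
      constructor
      · have e1 : Λ = Real.log (((b ^ (2 * L) : ℕ) : ℝ)) := by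
          rw [hΛ]
          push_cast
          rw [Real.log_pow]
          push_cast
          ring
        rw [e1]
        apply Real.log_le_log
        · exact_mod_cast Nat.pos_of_ne_zero (pow_ne_zero _ (by omega))
        · exact_mod_cast (by omega : b ^ (2 * L) ≤ a + v)
      · refine le_trans (Real.log_le_log ?_ ?_) ha
        · have : 0 < b ^ (2 * L) := Nat.pos_of_ne_zero (pow_ne_zero _ (by omega))
          exact_mod_cast (by omega : 0 < a + v)
        · exact_mod_cast (by omega : a + v ≤ a + b ^ (2 * L + 1))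
    have hup : ∑ v ∈ (OmL b l L).filter (fun v => ∀ p ∈ pzb b z, ¬ hitA a p v), 1 / (Real.log ((a + v : ℕ) : ℝ) * Vz z) ≤ c * (1 / (Λ * Vz z)) := by
      rw [hc, ← nsmul_eq_mul, ← sum_const]
      apply sum_le_sum
      intro v hv
      rw [mem_filter] at hv
      exact one_div_le_one_div_of_le (by positivity) (mul_le_mul_of_nonneg_right (hlog v hv.1).1 hV0.le)
    have hlow : c * (1 / ((Λ + C) * Vz z)) ≤ ∑ v ∈ (OmL b l L).filter (fun v => ∀ p ∈ pzb b z, ¬ hitA a p v), 1 / (Real.log ((a + v : ℕ) : ℝ) * Vz z) := by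
      rw [hc, ← nsmul_eq_mul, ← sum_const]
      apply sum_le_sum
      intro v hv
      rw [mem_filter] at hv
      have h1 := hlog v hv.1
      exact one_div_le_one_div_of_le (mul_pos (by linarith) hV0) (mul_le_mul_of_nonneg_right h1.2 hV0.le)
    obtain ⟨Q, hQ⟩ : ∃ Q : ℝ, Q = (b : ℝ) ^ L * (b / Nat.totient b) / Λ := ⟨_, rfl⟩
    have hQ0 : 0 < Q := by rw [hQ]; positivity
    rw [← hQ]
    have hQW : (b : ℝ) ^ L * Wb b z * (1 / (Λ * Vz z)) = Q := by
      rw [hQ, hVs]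
      field_simp
    rw [abs_le] at hs
    have hc1 : (c : ℝ) * (1 / (Λ * Vz z)) ≤ (1 + ε) * Q := by
      rw [← hQW]
      have e1 : (c : ℝ) ≤ (1 + ε) * ((b : ℝ) ^ L * Wb b z) := by linarith [hs.2]
      calc (c : ℝ) * (1 / (Λ * Vz z)) ≤ (1 + ε) * ((b : ℝ) ^ L * Wb b z) * (1 / (Λ * Vz z)) := mul_le_mul_of_nonneg_right e1 (by positivity)
        _ = _ := by ring
    have hc2 : (1 - ε) * Q ≤ (c : ℝ) * (1 / (Λ * Vz z)) := by
      rw [← hQW]
      have e1 : (1 - ε) * ((b : ℝ) ^ L * Wb b z) ≤ c := by linarith [hs.1]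
      calc _ = (1 - ε) * ((b : ℝ) ^ L * Wb b z) * (1 / (Λ * Vz z)) := by ring
        _ ≤ _ := mul_le_mul_of_nonneg_right e1 (by positivity)
    have hc3 : (1 - ε) * ((1 - ε) * Q) ≤ (c : ℝ) * (1 / ((Λ + C) * Vz z)) := by
      have e1 : (c : ℝ) * (1 / ((Λ + C) * Vz z)) = (c : ℝ) * (1 / (Λ * Vz z)) * (Λ / (Λ + C)) := by
        have : Λ + C ≠ 0 := by linarith
        field_simp
      rw [e1, mul_comm]
      have e2 : 1 - ε ≤ Λ / (Λ + C) := by
        rw [le_div_iff₀ (by linarith)]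
        nlinarith
      have e3 : 0 ≤ (c : ℝ) * (1 / (Λ * Vz z)) := by positivity
      apply mul_le_mul hc2 e2 (by linarith) e3
    rw [abs_le]
    constructor
    · nlinarith [hlow, hc3, hQ0, mul_pos hε hQ0, mul_pos (mul_pos hε hε) hQ0]
    · nlinarith [hup, hc1, hQ0, mul_pos hε hQ0]
  · have h0 : ∑ v ∈ OmL b l L, Mo z ((a + v : ℕ) : ℤ) = 0 := by
      apply sum_eq_zero
      intro v hv
      obtain ⟨h1, h2, h3⟩ := OmL_sub b l L (by omega) hL hl1 hl2 v hv
      rw [Mo_cast]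
      unfold moN
      rw [if_neg]
      rintro ⟨_, h⟩
      obtain ⟨p, hp, h4, h5⟩ := Nat.Prime.not_coprime_iff_dvd.1 hcop
      have e1 : a + v ≡ a + l [MOD b] := Nat.ModEq.add_left a h3
      exact h p hp ((Nat.le_of_dvd (by omega) h5).trans hz) ((Nat.ModEq.dvd_iff (e1.of_dvd h5) dvd_rfl).2 h4)
    rw [h0, sub_zero, abs_zero]
    positivity

end Pool.Agent.V11251.DS
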