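import Pool.Agent.V11251.DS.TransD

set_option autoImplicit false

/-! All bases: the palindromes with a given leading digit and a given middle digit. -/

namespace Pool.Agent.V11251.DS
open Finset Filter
open Pool.Agent.H373R2.T7
open Pool.Agent.TH872.Mir (Pals)
open Pool.Agent.H181R5.PBT9 (modEq_shift)

/-- the palindromes with `2N+1` digits, leading digit `l`, middle digit `e` -/
def OE (b l e N : ℕ) : Finset ℕ :=
  (range (b ^ (2 * N + 1))).filter (fun n => (Nat.digits b n).reverse = Nat.digits b n ∧ n / b ^ (2 * N) = l ∧ n / b ^ N % b = e)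

/-- the level of distribution -/
def LevB (b : ℕ) : Prop := ∀ A : ℕ, ∀ᶠ K : ℕ in atTop, ∀ l e : ℕ, 1 ≤ l → l < b → e < b → ∀ h : ℕ → ℕ,
  ∑ q ∈ (Icc 1 ⌊(b : ℝ) ^ ((49 / 100 : ℝ) * K)⌋₊).filter (fun q => q.Coprime (2 * b)),
    |(((OE b l e (K + 1)).filter (fun n => n ≡ h q [MOD q])).card : ℝ) - (b : ℝ) ^ K / q| ≤ (b : ℝ) ^ K / (K : ℝ) ^ A

/-- the error of the count of the multiples of `d` -/
noncomputable def fE (b K a l e d : ℕ) : ℝ :=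
  if d.Coprime (2 * b) then |(((OE b l e (K + 1)).filter (fun n => n ≡ (d - 1) * a [MOD d])).card : ℝ) - (b : ℝ) ^ K / d| else 0

lemma fE_nonneg (b K a l e d : ℕ) : 0 ≤ fE b K a l e d := by
  unfold fE
  split_ifs
  · exact abs_nonneg _
  · exact le_rfl

open Classical in
lemma count_T2 (b K a l e : ℕ) (T : Finset ℕ) (hT : ∀ p ∈ T, p.Prime ∧ ¬ p ∣ 2 * b) :
    |(((OE b l e (K + 1)).filter (fun v => ∀ p ∈ T, hitA a p v)).card : ℝ) - (b : ℝ) ^ K * ∏ p ∈ T, (1 / (p : ℝ))| ≤ fE b K a l e (∏ p ∈ T, p) := by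
  have hTp : ∀ p ∈ T, p.Prime := fun p hp => (hT p hp).1
  have h0 : 0 < ∏ p ∈ T, p := Nat.pos_of_ne_zero (prod_ne_zero_iff.2 fun p hp => (hTp p hp).ne_zero)
  have h1 : (OE b l e (K + 1)).filter (fun v => ∀ p ∈ T, hitA a p v) = (OE b l e (K + 1)).filter (fun v => v ≡ ((∏ p ∈ T, p) - 1) * a [MOD ∏ p ∈ T, p]) := by
    apply filter_congr
    intro v _
    have e1 := prod_dvd_iff T hTp (a + v)
    have e2 := modEq_shift (q := ∏ p ∈ T, p) (x := v) (y := a) (h := 0) h0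
    rw [zero_add, Nat.modEq_zero_iff_dvd, add_comm] at e2
    exact e1.trans e2
  have h2 : (∏ p ∈ T, p).Coprime (2 * b) := by
    apply Nat.Coprime.prod_left
    intro p hp
    rw [(hTp p hp).coprime_iff_not_dvd]
    exact (hT p hp).2
  have h3 : (b : ℝ) ^ K * ∏ p ∈ T, (1 / (p : ℝ)) = (b : ℝ) ^ K / ((∏ p ∈ T, p : ℕ) : ℝ) := by
    rw [Nat.cast_prod]
    simp only [one_div]
    rw [prod_inv_distrib]
    rfl
  rw [h1, h3]
  unfold fE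
  rw [if_pos h2]

open Classical in
theorem sieve_core2 (b : ℕ) (hb : 2 ≤ b) : ∃ C0 : ℕ, 1 ≤ C0 ∧ ∀ b' : ℕ, C0 ≤ b' → ∀ z K a l e : ℕ, C0 + 2 * b ≤ z →
    |(((OE b l e (K + 1)).filter (fun v => ∀ p ∈ pzb (2 * b) z, ¬ hitA a p v)).card : ℝ) - (b : ℝ) ^ K * ∏ p ∈ pzb (2 * b) z, (1 - 1 / (p : ℝ))| ≤
      (1 / 2 : ℝ) ^ b' * ((b : ℝ) ^ K * ∏ p ∈ pzb (2 * b) z, (1 - 1 / (p : ℝ))) +
      ((JJ z : ℝ) + 2) * (2 ^ (pzb (2 * b) (C0 + 2 * b)).card *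
        ∑ d ∈ Icc 1 ((∏ p ∈ pzb (2 * b) (C0 + 2 * b), p) * (2 ^ 2 ^ JJ z) ^ (C0 * b')), fE b K a l e d) := by
  obtain ⟨C0, hC0, hFL⟩ := Pool.Agent.H20R2.fLem 1
  refine ⟨C0, hC0, fun b' hb' z K a l e hz => ?_⟩
  obtain ⟨S0, hS0⟩ : ∃ S0 : Finset ℕ, S0 = pzb (2 * b) (C0 + 2 * b) := ⟨_, rfl⟩
  obtain ⟨P, hP⟩ : ∃ P : Finset ℕ, P = (Pool.Agent.H373R2.T7.pz z).filter (fun p => C0 + 2 * b < p) := ⟨_, rfl⟩
  have hPp : ∀ p ∈ P, p.Prime ∧ C0 + 2 * b < p ∧ p ≤ z := by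
    intro p hp
    rw [hP, mem_filter, mem_pz] at hp
    exact ⟨hp.1.2, hp.2, hp.1.1⟩
  have hPb : ∀ p ∈ P, ¬ p ∣ 2 * b := fun p hp h => by
    have h1 := Nat.le_of_dvd (by omega) h
    have h2 := (hPp p hp).2.1
    omega
  have hS0p : ∀ p ∈ S0, p.Prime ∧ ¬ p ∣ 2 * b := by
    intro p hp
    rw [hS0, mem_pzb] at hp
    exact ⟨hp.1.2, hp.2⟩
  have hunion : pzb (2 * b) z = S0 ∪ P := by
    ext p
    rw [mem_union, mem_pzb, hS0, mem_pzb, hP, mem_filter, mem_pz]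
    constructor
    · rintro ⟨⟨h1, h2⟩, h3⟩
      rcases Nat.lt_or_ge (C0 + 2 * b) p with h | h
      · exact Or.inr ⟨⟨h1, h2⟩, h⟩
      · exact Or.inl ⟨⟨h, h2⟩, h3⟩
    · rintro (⟨⟨h1, h2⟩, h3⟩ | ⟨⟨h1, h2⟩, h4⟩)
      · exact ⟨⟨by omega, h2⟩, h3⟩
      · exact ⟨⟨h1, h2⟩, fun h => by
          have := Nat.le_of_dvd (by omega) h
          omega⟩
  have hdisj : Disjoint S0 P := by
    rw [disjoint_left]
    intro p hp hp'
    rw [hS0, mem_pzb] at hp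
    have := (hPp p hp').2.1
    omega
  have hbL : 0 < (b : ℝ) ^ K := by
    have : (0 : ℝ) < b := by exact_mod_cast (by omega : 0 < b)
    positivity
  obtain ⟨A0, hA0⟩ : ∃ A0 : ℝ, A0 = (b : ℝ) ^ K * ∏ p ∈ S0, (1 - 1 / (p : ℝ)) := ⟨_, rfl⟩
  have hA00 : 0 ≤ A0 := by
    rw [hA0]
    exact mul_nonneg hbL.le (prod_nonneg (fun p hp => (fac01 p (hS0p p hp).1).1.le))
  have key := hFL b' (JJ z) (C0 + 2 * b) P (fun p => 1 / (p : ℝ)) hb' (by omega)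
    (fun p hp => ⟨(hPp p hp).1, (hPp p hp).2.1, (hPp p hp).2.2.trans (JJ_lt z).le⟩) (fun p hp => by
      have hp2 : (2 : ℝ) ≤ p := by exact_mod_cast (hPp p hp).1.two_le
      refine ⟨by positivity, ?_⟩
      push_cast
      exact one_div_le_one_div_of_le (by linarith) (by linarith))
    ((OE b l e (K + 1)).filter (fun v => ∀ p ∈ S0, ¬ hitA a p v)) (fun _ => 1) (hitA a) A0
    (fun T => ∑ D ∈ S0.powerset, fE b K a l e (∏ p ∈ D ∪ T, p)) (fun _ _ => zero_le_one) hA00 (by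
      intro T hT _
      have hTp : ∀ p ∈ T, p.Prime ∧ ¬ p ∣ 2 * b := fun p hp => ⟨(hPp p (hT hp)).1, hPb p (hT hp)⟩
      have e1 : ∑ m ∈ ((OE b l e (K + 1)).filter (fun v => ∀ p ∈ S0, ¬ hitA a p v)).filter (fun v => ∀ p ∈ T, hitA a p v), (1 : ℝ) =
          ((((OE b l e (K + 1)).filter (fun v => ∀ p ∈ S0, ¬ hitA a p v)).filter (fun v => ∀ p ∈ T, hitA a p v)).card : ℝ) := by
        rw [sum_const, nsmul_eq_mul, mul_one]
      have e2 := incl S0 T (OE b l e (K + 1)) (hitA a)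
      have e3 : A0 * ∏ p ∈ T, (1 / (p : ℝ)) = ∑ D ∈ S0.powerset, (-1 : ℝ) ^ D.card * ((b : ℝ) ^ K * ∏ p ∈ D ∪ T, (1 / (p : ℝ))) := by
        rw [hA0, incl_prod, mul_sum, sum_mul]
        apply sum_congr rfl
        intro D hD
        rw [mem_powerset] at hD
        rw [prod_union (disjoint_of_subset_left hD (disjoint_of_subset_right hT hdisj))]
        ring
      rw [e1, e2, e3, ← sum_sub_distrib]
      refine (abs_sum_le_sum_abs _ _).trans (sum_le_sum fun D hD => ?_)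
      rw [mem_powerset] at hD
      rw [← mul_sub, abs_mul, abs_pow, abs_neg, abs_one, one_pow, one_mul]
      exact count_T2 b K a l e (D ∪ T) (fun p hp => (mem_union.1 hp).elim (fun h => hS0p p (hD h)) (hTp p)))
  have f1 : A0 * ∏ p ∈ P, (1 - 1 / (p : ℝ)) = (b : ℝ) ^ K * ∏ p ∈ pzb (2 * b) z, (1 - 1 / (p : ℝ)) := by
    rw [hunion, prod_union hdisj, hA0]
    ring
  have f2 : ∑ m ∈ ((OE b l e (K + 1)).filter (fun v => ∀ p ∈ S0, ¬ hitA a p v)).filter (fun v => ∀ p ∈ P, ¬ hitA a p v), (1 : ℝ) =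
      (((OE b l e (K + 1)).filter (fun v => ∀ p ∈ pzb (2 * b) z, ¬ hitA a p v)).card : ℝ) := by
    rw [sum_const, nsmul_eq_mul, mul_one, filter_filter, hunion]
    congr 2
    ext v
    simp only [mem_filter]
    apply and_congr_right
    intro _
    constructor
    · rintro ⟨h1, h2⟩ p hp
      exact (mem_union.1 hp).elim (h1 p) (h2 p)
    · intro h
      exact ⟨fun p hp => h p (mem_union_left _ hp), fun p hp => h p (mem_union_right _ hp)⟩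
  rw [f1, f2] at key
  refine key.trans (add_le_add le_rfl (mul_le_mul_of_nonneg_left ?_ (by positivity)))
  rw [sum_comm]
  have g1 : ∀ D ∈ S0.powerset, ∑ T ∈ P.powerset.filter (fun T : Finset ℕ => ∏ p ∈ T, p ≤ (2 ^ 2 ^ JJ z) ^ (C0 * b')), fE b K a l e (∏ p ∈ D ∪ T, p) ≤
      ∑ d ∈ Icc 1 ((∏ p ∈ pzb (2 * b) (C0 + 2 * b), p) * (2 ^ 2 ^ JJ z) ^ (C0 * b')), fE b K a l e d := by
    intro D hD
    rw [mem_powerset] at hD
    refine (sum_inj2 P D (fun p hp => (hPp p hp).1) (fun p hp => (hS0p p (hD hp)).1) (disjoint_of_subset_left hD hdisj) _ _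
      (fE_nonneg b K a l e)).trans ?_
    apply sum_le_sum_of_subset_of_nonneg
    · apply Icc_subset_Icc le_rfl
      apply Nat.mul_le_mul_right
      rw [← hS0]
      exact prod_le_prod_of_subset_of_one_le' hD (fun p hp _ => (hS0p p hp).1.one_le)
    · intro _ _ _
      exact fE_nonneg _ _ _ _ _ _
  calc _ ≤ ∑ D ∈ S0.powerset, ∑ d ∈ Icc 1 ((∏ p ∈ pzb (2 * b) (C0 + 2 * b), p) * (2 ^ 2 ^ JJ z) ^ (C0 * b')), fE b K a l e d := sum_le_sum g1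
    _ = _ := by
      rw [sum_const, card_powerset, nsmul_eq_mul, hS0]
      push_cast
      rfl

lemma ev_pow2 (b : ℕ) (hb : 2 ≤ b) (K M : ℕ) : ∀ᶠ L : ℕ in atTop, (K : ℝ) * (L : ℝ) ^ M ≤ (b : ℝ) ^ ((49 / 100 : ℝ) * L) := by
  have hb1 : (1 : ℝ) < b := by exact_mod_cast (by omega : 1 < b)
  have hr : 1 < (b : ℝ) ^ (49 / 100 : ℝ) := Real.one_lt_rpow hb1 (by norm_num)
  have h := tendsto_pow_const_div_const_pow_of_one_lt M hr
  have h2 : ∀ᶠ L : ℕ in atTop, (L : ℝ) ^ M / ((b : ℝ) ^ (49 / 100 : ℝ)) ^ L < 1 / ((K : ℝ) + 1) :=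
    h.eventually (gt_mem_nhds (by positivity))
  filter_upwards [h2] with L hL
  have h3 : ((b : ℝ) ^ (49 / 100 : ℝ)) ^ L = (b : ℝ) ^ ((49 / 100 : ℝ) * L) := by
    rw [← Real.rpow_natCast, ← Real.rpow_mul (by linarith)]
  rw [h3] at hL
  have h4 : 0 < (b : ℝ) ^ ((49 / 100 : ℝ) * L) := Real.rpow_pos_of_pos (by linarith) _
  rw [div_lt_div_iff₀ h4 (by positivity)] at hL
  have h5 : (0 : ℝ) ≤ (L : ℝ) ^ M := by positivity
  nlinarith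

theorem sieve_l2 (b : ℕ) (hb : 2 ≤ b) (hBV : LevB b) (ε : ℝ) (hε : 0 < ε) (E : ℕ) : ∃ L₀ z₀ : ℕ, 2 * b ≤ z₀ ∧ ∀ K : ℕ, L₀ ≤ K →
    ∀ z : ℕ, z₀ ≤ z → (z : ℝ) ≤ (K : ℝ) ^ E → ∀ a l e : ℕ, 1 ≤ l → l < b → e < b → ∀ [DecidablePred fun v => ∀ p ∈ pzb (2 * b) z, ¬ hitA a p v],
    |(((OE b l e (K + 1)).filter (fun v => ∀ p ∈ pzb (2 * b) z, ¬ hitA a p v)).card : ℝ) - (b : ℝ) ^ K * Wb (2 * b) z| ≤ ε * ((b : ℝ) ^ K * Wb (2 * b) z) := by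
  classical
  obtain ⟨C0, hC0, hcore⟩ := sieve_core2 b hb
  obtain ⟨b1, hb1⟩ := exists_pow_lt_of_lt_one (show (0 : ℝ) < ε / 2 by positivity) (show (1 / 2 : ℝ) < 1 by norm_num)
  obtain ⟨b', hb'⟩ : ∃ b' : ℕ, b' = C0 + b1 := ⟨_, rfl⟩
  have hbe : (1 / 2 : ℝ) ^ b' ≤ ε / 2 := by
    rw [hb']
    exact (pow_le_pow_of_le_one (by norm_num) (by norm_num) (Nat.le_add_left b1 C0)).trans hb1.le
  obtain ⟨S, hS⟩ : ∃ S : ℕ, S = (pzb (2 * b) (C0 + 2 * b)).card := ⟨_, rfl⟩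
  obtain ⟨K0, hK0⟩ : ∃ K0 : ℕ, K0 = ∏ p ∈ pzb (2 * b) (C0 + 2 * b), p := ⟨_, rfl⟩
  obtain ⟨M, hM⟩ : ∃ M : ℕ, M = E * (2 * (C0 * b')) := ⟨_, rfl⟩
  have h1 := hBV (2 * E + 1)
  obtain ⟨L₀, h2⟩ := eventually_atTop.1 (h1.and ((ev_pow2 b hb K0 M).and (eventually_ge_atTop (⌈(2 : ℝ) ^ (S + 2) / ε⌉₊ + 1))))
  refine ⟨L₀, C0 + 2 * b + 3, by omega, fun L hL z hz hzL a l e hl1 hl2 he _ => ?_⟩
  obtain ⟨g1, g2, g3⟩ := h2 L hL
  have hL1 : 1 ≤ L := by omega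
  have hLr : (1 : ℝ) ≤ L := by exact_mod_cast hL1
  have hL0 : (0 : ℝ) < L := by linarith
  have hbr : (1 : ℝ) < b := by exact_mod_cast (by omega : 1 < b)
  have hbL : 0 < (b : ℝ) ^ L := by positivity
  have hW := Wb_pos (2 * b) z
  have key := hcore b' (by omega) z L a l e (by omega)
  rw [← hS, ← hK0] at key
  have hkey : |(((OE b l e (L + 1)).filter (fun v => ∀ p ∈ pzb (2 * b) z, ¬ hitA a p v)).card : ℝ) - (b : ℝ) ^ L * Wb (2 * b) z| ≤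
      (1 / 2 : ℝ) ^ b' * ((b : ℝ) ^ L * Wb (2 * b) z) +
      ((JJ z : ℝ) + 2) * (2 ^ S * ∑ d ∈ Icc 1 (K0 * (2 ^ 2 ^ JJ z) ^ (C0 * b')), fE b L a l e d) := by
    unfold Wb
    convert key
  have hsz : K0 * (2 ^ 2 ^ JJ z) ^ (C0 * b') ≤ ⌊(b : ℝ) ^ ((49 / 100 : ℝ) * L)⌋₊ := by
    apply Nat.le_floor
    refine le_trans ?_ g2
    push_cast
    apply mul_le_mul_of_nonneg_left _ (Nat.cast_nonneg _)
    have e1 : ((2 : ℝ) ^ 2 ^ JJ z) ≤ (z : ℝ) ^ 2 := by exact_mod_cast JJ_le z (by omega)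
    calc ((2 : ℝ) ^ 2 ^ JJ z) ^ (C0 * b') ≤ ((z : ℝ) ^ 2) ^ (C0 * b') := pow_le_pow_left₀ (by positivity) e1 _
      _ ≤ (((L : ℝ) ^ E) ^ 2) ^ (C0 * b') := by
          apply pow_le_pow_left₀ (by positivity)
          exact pow_le_pow_left₀ (Nat.cast_nonneg _) hzL _
      _ = (L : ℝ) ^ M := by rw [← pow_mul, ← pow_mul, hM]
  have hsum : ∑ d ∈ Icc 1 (K0 * (2 ^ 2 ^ JJ z) ^ (C0 * b')), fE b L a l e d ≤ (b : ℝ) ^ L / (L : ℝ) ^ (2 * E + 1) := by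
    refine le_trans ?_ (g1 l e hl1 hl2 he (fun q => (q - 1) * a))
    rw [sum_filter]
    calc ∑ d ∈ Icc 1 (K0 * (2 ^ 2 ^ JJ z) ^ (C0 * b')), fE b L a l e d ≤ ∑ d ∈ Icc 1 ⌊(b : ℝ) ^ ((49 / 100 : ℝ) * L)⌋₊, fE b L a l e d :=
          sum_le_sum_of_subset_of_nonneg (Icc_subset_Icc le_rfl hsz) (fun _ _ _ => fE_nonneg _ _ _ _ _ _)
      _ ≤ _ := by
          apply sum_le_sum
          intro d hd
          unfold fE
          exact le_rfl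
  have hWge := Wb_ge (2 * b) z (by omega) (by omega) (by omega)
  have hz0 : (0 : ℝ) < z := by exact_mod_cast (by omega : 0 < z)
  have hWL : 1 / (L : ℝ) ^ E ≤ Wb (2 * b) z := (one_div_le_one_div_of_le hz0 hzL).trans hWge
  have hJ : ((JJ z : ℝ) + 2) ≤ 2 * (L : ℝ) ^ E := by
    have e1 : ((JJ z + 2 : ℕ) : ℝ) ≤ ((2 * z : ℕ) : ℝ) := Nat.cast_le.2 (JJ_small z (by omega))
    push_cast at e1
    linarith
  have hg3 : (2 : ℝ) ^ (S + 2) / ε ≤ L := by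
    have e1 := Nat.le_ceil ((2 : ℝ) ^ (S + 2) / ε)
    have e2 : ((⌈(2 : ℝ) ^ (S + 2) / ε⌉₊ : ℕ) : ℝ) ≤ L := by exact_mod_cast (by omega : ⌈(2 : ℝ) ^ (S + 2) / ε⌉₊ ≤ L)
    linarith
  have hfin : ((JJ z : ℝ) + 2) * (2 ^ S * ∑ d ∈ Icc 1 (K0 * (2 ^ 2 ^ JJ z) ^ (C0 * b')), fE b L a l e d) ≤ ε / 2 * ((b : ℝ) ^ L * Wb (2 * b) z) := by
    calc ((JJ z : ℝ) + 2) * (2 ^ S * ∑ d ∈ Icc 1 (K0 * (2 ^ 2 ^ JJ z) ^ (C0 * b')), fE b L a l e d) ≤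
          (2 * (L : ℝ) ^ E) * (2 ^ S * ((b : ℝ) ^ L / (L : ℝ) ^ (2 * E + 1))) := by
          apply mul_le_mul hJ _ _ (by positivity)
          · exact mul_le_mul_of_nonneg_left hsum (by positivity)
          · apply mul_nonneg (by positivity)
            exact sum_nonneg (fun d _ => fE_nonneg _ _ _ _ _ _)
      _ = ((2 : ℝ) ^ (S + 2) / L) / 2 * ((b : ℝ) ^ L * (1 / (L : ℝ) ^ E)) := by
          have e5 : (L : ℝ) ^ (2 * E + 1) = (L : ℝ) ^ E * (L : ℝ) ^ E * L := by ring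
          rw [e5]
          field_simp
          ring
      _ ≤ ε / 2 * ((b : ℝ) ^ L * Wb (2 * b) z) := by
          apply mul_le_mul _ _ (by positivity) (by positivity)
          · apply div_le_div_of_nonneg_right _ (by norm_num)
            rw [div_le_iff₀ hL0]
            rw [div_le_iff₀ hε] at hg3
            linarith
          · exact mul_le_mul_of_nonneg_left hWL hbL.le
  have hBW : 0 < (b : ℝ) ^ L * Wb (2 * b) z := by positivity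
  have := mul_le_mul_of_nonneg_right hbe hBW.le
  linarith

end Pool.Agent.V11251.DS
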