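import Pool.Agent.V11251.DS.TransF

set_option autoImplicit false

/-! All bases: the model sums. -/

namespace Pool.Agent.V11251.DS
open Finset Filter
open Pool.Agent.H373R2.T7
open Pool.Agent.TH872.Mir (Pals)

/-- in an odd base a number is congruent to the sum of its digits modulo 2 -/
lemma dig_par (b : ℕ) (hb : b % 2 = 1) (k : ℕ) : ∀ v < b ^ k, v % 2 = (∑ j ∈ range k, v / b ^ j % b) % 2 := by
  induction k with
  | zero =>
    intro v hv
    rw [pow_zero] at hv
    have : v = 0 := by omega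
    rw [this]
    simp
  | succ k ih =>
    intro v hv
    have h1 : v / b < b ^ k := by
      apply Nat.div_lt_of_lt_mul
      rw [pow_succ] at hv
      rwa [mul_comm]
    have h2 := ih (v / b) h1
    rw [sum_range_succ']
    have h3 : ∀ j ∈ range k, v / b ^ (j + 1) % b = v / b / b ^ j % b := by
      intro j _
      rw [Nat.div_div_eq_div_mul, pow_succ, mul_comm]
    rw [sum_congr rfl h3, pow_zero, Nat.div_one, Nat.add_mod, ← h2, ← Nat.add_mod]
    have h4 : v = b * (v / b) + v % b := (Nat.div_add_mod v b).symm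
    conv_lhs => rw [h4]
    rw [Nat.add_mod, Nat.mul_mod, hb, one_mul, Nat.mod_mod, ← Nat.add_mod]

lemma OE_facts (b l e N : ℕ) (hb : 2 ≤ b) (hl1 : 1 ≤ l) (v : ℕ) (hv : v ∈ OE b l e N) :
    b ^ (2 * N) ≤ v ∧ v < b ^ (2 * N + 1) ∧ v ≡ l [MOD b] ∧ (b % 2 = 1 → v % 2 = e % 2) := by
  unfold OE at hv
  rw [mem_filter, mem_range] at hv
  obtain ⟨h1, h2, h3, h4⟩ := hv
  have hp : 0 < b ^ (2 * N) := by positivity
  have h5 : b ^ (2 * N) ≤ v := by
    by_contra hcon
    push Not at hcon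
    rw [Nat.div_eq_of_lt hcon] at h3
    omega
  have h6 := (dig_iff b (2 * N + 1) v hb (by omega) (by rw [Nat.add_sub_cancel]; exact h5) h1).1 h2
  rw [Nat.add_sub_cancel] at h6
  refine ⟨h5, h1, ?_, fun hodd => ?_⟩
  · have h7 := h6 0 (by omega)
    rw [pow_zero, Nat.div_one, Nat.sub_zero, h3] at h7
    exact h7
  · rw [dig_par b hodd (2 * N + 1) v h1, show 2 * N + 1 = N + (N + 1) by ring, sum_range_add, sum_range_succ']
    have h8 : ∑ x ∈ range N, v / b ^ (N + (x + 1)) % b = ∑ j ∈ range N, v / b ^ j % b := by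
      rw [← sum_range_reflect (fun j => v / b ^ j % b) N]
      apply sum_congr rfl
      intro x hx
      rw [mem_range] at hx
      rw [h6 (N + (x + 1)) (by omega)]
      congr 3
      omega
    rw [h8, add_zero, h4]
    omega

open Classical in
lemma sum_pals2 (b N : ℕ) (hb : 2 ≤ b) (F : ℕ → ℝ) :
    ∑ v ∈ Pals b (2 * N + 1), F v = ∑ x ∈ Icc 1 (b - 1) ×ˢ range b, ∑ v ∈ OE b x.1 x.2 N, F v := by
  rw [← pals_digits b (2 * N + 1) hb (by omega)]
  rw [← sum_fiberwise_of_maps_to (g := fun v => (v / b ^ (2 * N), v / b ^ N % b)) (t := Icc 1 (b - 1) ×ˢ range b)]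
  · apply sum_congr rfl
    intro x hx
    rw [mem_product, mem_Icc] at hx
    apply sum_congr _ (fun _ _ => rfl)
    ext v
    unfold OE
    simp only [mem_filter, mem_range, Nat.add_sub_cancel, Prod.ext_iff]
    constructor
    · rintro ⟨⟨h1, h2, h3⟩, h4, h5⟩
      exact ⟨h1, h3, h4, h5⟩
    · rintro ⟨h1, h3, h4, h5⟩
      refine ⟨⟨h1, ?_, h3⟩, h4, h5⟩
      by_contra hcon
      push Not at hcon
      rw [Nat.div_eq_of_lt hcon] at h4
      omega
  · intro v hv
    rw [mem_filter, mem_range, Nat.add_sub_cancel] at hv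
    rw [mem_product, mem_Icc, mem_range]
    have hp : 0 < b ^ (2 * N) := by positivity
    refine ⟨⟨?_, ?_⟩, Nat.mod_lt _ (by omega)⟩
    · exact (Nat.one_le_div_iff hp).2 hv.2.1
    · have : v / b ^ (2 * N) < b := by
        apply Nat.div_lt_of_lt_mul
        rw [← pow_succ]
        exact hv.1
      show v / b ^ (2 * N) ≤ b - 1
      omega

/-- the leading digit and the middle digit do not force a common factor with `2 b` -/
def okD (b a l e : ℕ) : Prop := (a + l).Coprime b ∧ (Even b ∨ Odd (a + e))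

/-- `a + v` has no prime factor up to `z` outside of `2 b` -/
def GG (b z a v : ℕ) : Prop := ∀ p ∈ pzb (2 * b) z, ¬ hitA a p v

open Classical in
/-- the model sum over the palindromes with a leading digit and a middle digit -/
lemma model_l2 (b : ℕ) (hb : 2 ≤ b) (K z a l e : ℕ) (hl1 : 1 ≤ l) (hz : 2 * b ≤ z) (ε : ℝ) (hε : 0 < ε) (hε1 : ε ≤ 1)
    (Λ C : ℝ) (hΛ : Λ = Real.log b * (2 * (K + 1 : ℕ))) (hC : 0 ≤ C) (hCΛ : C ≤ ε * Λ) (hΛ0 : 0 < Λ)
    (ha : Real.log ((a + b ^ (2 * (K + 1) + 1) : ℕ) : ℝ) ≤ Λ + C)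
    (hs : |(((OE b l e (K + 1)).filter (fun v => GG b z a v)).card : ℝ) - (b : ℝ) ^ K * Wb (2 * b) z| ≤ ε * ((b : ℝ) ^ K * Wb (2 * b) z)) :
    |∑ v ∈ OE b l e (K + 1), Mo z ((a + v : ℕ) : ℤ) - (if okD b a l e then (b : ℝ) ^ K * (((2 * b : ℕ) : ℝ) / Nat.totient (2 * b)) / Λ else 0)| ≤
      2 * ε * ((b : ℝ) ^ K * (((2 * b : ℕ) : ℝ) / Nat.totient (2 * b)) / Λ) := by
  have hbr : (1 : ℝ) < b := by exact_mod_cast (by omega : 1 < b)
  have hb0 : (0 : ℝ) < b := by linarith
  have hbL : 0 < (b : ℝ) ^ K := by positivity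
  have hφ : (0 : ℝ) < Nat.totient (2 * b) := by exact_mod_cast Nat.totient_pos.2 (by omega)
  have h2b : (0 : ℝ) < ((2 * b : ℕ) : ℝ) := by exact_mod_cast (by omega : 0 < 2 * b)
  have hW := Wb_pos (2 * b) z
  have hVs := Vz_split (2 * b) z (by omega) hz
  have hV0 : 0 < Vz z := Vz_pos z
  split_ifs with hcop
  · obtain ⟨c, hc⟩ : ∃ c : ℕ, c = ((OE b l e (K + 1)).filter (fun v => GG b z a v)).card := ⟨_, rfl⟩
    rw [← hc] at hs
    have hMo : ∀ v ∈ OE b l e (K + 1), Mo z ((a + v : ℕ) : ℤ) = if GG b z a v then 1 / (Real.log ((a + v : ℕ) : ℝ) * Vz z) else 0 := by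
      intro v hv
      obtain ⟨h1, h2, h3, h30⟩ := OE_facts b l e (K + 1) hb hl1 v hv
      have hv2 : 2 ≤ a + v := by
        have : 2 ≤ b ^ (2 * (K + 1)) := by
          calc 2 ≤ b := by omega
            _ ≤ b ^ (2 * (K + 1)) := Nat.le_self_pow (by omega) b
        omega
      rw [Mo_cast]
      unfold moN
      have hV : (∏ p ∈ (Icc 1 z).filter Nat.Prime, (1 - 1 / (p : ℝ))) = Vz z := rfl
      rw [hV, max_eq_left hv2]
      have hiff : (1 ≤ a + v ∧ ∀ p : ℕ, p.Prime → p ≤ z → ¬ p ∣ a + v) ↔ GG b z a v := by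
        constructor
        · rintro ⟨_, h⟩ p hp
          rw [mem_pzb] at hp
          exact h p hp.1.2 hp.1.1
        · intro h
          refine ⟨by omega, fun p hp hpz hd => ?_⟩
          by_cases hpb : p ∣ b
          · have e1 : a + v ≡ a + l [MOD b] := Nat.ModEq.add_left a h3
            have e2 : p ∣ a + l := (Nat.ModEq.dvd_iff (e1.of_dvd hpb) dvd_rfl).1 hd
            have e3 := Nat.dvd_gcd e2 hpb
            rw [hcop.1] at e3
            exact hp.one_lt.ne' (Nat.dvd_one.1 e3)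
          · by_cases hp2 : p = 2
            · have hbo : b % 2 = 1 := by
                rw [hp2] at hpb
                omega
              have e1 := h30 hbo
              rcases hcop.2 with h8 | h8
              · rw [Nat.even_iff] at h8
                omega
              · rw [Nat.odd_iff] at h8
                rw [hp2] at hd
                omega
            · refine h p (mem_pzb.2 ⟨⟨hpz, hp⟩, fun h9 => ?_⟩) hd
              rcases (hp.dvd_mul).1 h9 with h10 | h10
              · exact hp2 ((Nat.prime_dvd_prime_iff_eq hp Nat.prime_two).1 h10)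
              · exact hpb h10
      by_cases h : GG b z a v
      · rw [if_pos h, if_pos (hiff.2 h)]
      · rw [if_neg h, if_neg (fun h' => h (hiff.1 h'))]
    rw [sum_congr rfl hMo, ← sum_filter]
    have hlog : ∀ v ∈ OE b l e (K + 1), Λ ≤ Real.log ((a + v : ℕ) : ℝ) ∧ Real.log ((a + v : ℕ) : ℝ) ≤ Λ + C := by
      intro v hv
      obtain ⟨h1, h2, h3, _⟩ := OE_facts b l e (K + 1) hb hl1 v hv
      constructor
      · have e1 : Λ = Real.log (((b ^ (2 * (K + 1)) : ℕ) : ℝ)) := by
          rw [hΛ]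
          push_cast
          rw [Real.log_pow]
          push_cast
          ring
        rw [e1]
        apply Real.log_le_log
        · exact_mod_cast Nat.pos_of_ne_zero (pow_ne_zero _ (by omega))
        · exact_mod_cast (by omega : b ^ (2 * (K + 1)) ≤ a + v)
      · refine le_trans (Real.log_le_log ?_ ?_) ha
        · have : 0 < b ^ (2 * (K + 1)) := Nat.pos_of_ne_zero (pow_ne_zero _ (by omega))
          exact_mod_cast (by omega : 0 < a + v)
        · exact_mod_cast (by omega : a + v ≤ a + b ^ (2 * (K + 1) + 1))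
    have hup : ∑ v ∈ (OE b l e (K + 1)).filter (fun v => GG b z a v), 1 / (Real.log ((a + v : ℕ) : ℝ) * Vz z) ≤ c * (1 / (Λ * Vz z)) := by
      rw [hc, ← nsmul_eq_mul, ← sum_const]
      apply sum_le_sum
      intro v hv
      rw [mem_filter] at hv
      exact one_div_le_one_div_of_le (by positivity) (mul_le_mul_of_nonneg_right (hlog v hv.1).1 hV0.le)
    have hlow : c * (1 / ((Λ + C) * Vz z)) ≤ ∑ v ∈ (OE b l e (K + 1)).filter (fun v => GG b z a v), 1 / (Real.log ((a + v : ℕ) : ℝ) * Vz z) := by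
      rw [hc, ← nsmul_eq_mul, ← sum_const]
      apply sum_le_sum
      intro v hv
      rw [mem_filter] at hv
      have h1 := hlog v hv.1
      exact one_div_le_one_div_of_le (mul_pos (by linarith) hV0) (mul_le_mul_of_nonneg_right h1.2 hV0.le)
    obtain ⟨Q, hQ⟩ : ∃ Q : ℝ, Q = (b : ℝ) ^ K * (((2 * b : ℕ) : ℝ) / Nat.totient (2 * b)) / Λ := ⟨_, rfl⟩
    have hQ0 : 0 < Q := by rw [hQ]; positivity
    rw [← hQ]
    have hQW : (b : ℝ) ^ K * Wb (2 * b) z * (1 / (Λ * Vz z)) = Q := by
      rw [hQ, hVs]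
      field_simp
    rw [abs_le] at hs
    have hc1 : (c : ℝ) * (1 / (Λ * Vz z)) ≤ (1 + ε) * Q := by
      rw [← hQW]
      have e1 : (c : ℝ) ≤ (1 + ε) * ((b : ℝ) ^ K * Wb (2 * b) z) := by linarith [hs.2]
      calc (c : ℝ) * (1 / (Λ * Vz z)) ≤ (1 + ε) * ((b : ℝ) ^ K * Wb (2 * b) z) * (1 / (Λ * Vz z)) := mul_le_mul_of_nonneg_right e1 (by positivity)
        _ = _ := by ring
    have hc2 : (1 - ε) * Q ≤ (c : ℝ) * (1 / (Λ * Vz z)) := by
      rw [← hQW]
      have e1 : (1 - ε) * ((b : ℝ) ^ K * Wb (2 * b) z) ≤ c := by linarith [hs.1]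
      calc _ = (1 - ε) * ((b : ℝ) ^ K * Wb (2 * b) z) * (1 / (Λ * Vz z)) := by ring
        _ ≤ _ := mul_le_mul_of_nonneg_right e1 (by positivity)
    have hc3 : (1 - ε) * ((1 - ε) * Q) ≤ (c : ℝ) * (1 / ((Λ + C) * Vz z)) := by
      have e1 : (c : ℝ) * (1 / ((Λ + C) * Vz z)) = (c : ℝ) * (1 / (Λ * Vz z)) * (Λ / (Λ + C)) := by
        have : Λ + C ≠ 0 := by linarith
        field_simp
      rw [e1, mul_comm]
      have e2 : 1 - ε ≤ Λ / (Λ + C) := by
        rw [le_div_iff₀ (by linarith)]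
        nlinarith
      have e3 : 0 ≤ (c : ℝ) * (1 / (Λ * Vz z)) := by positivity
      apply mul_le_mul hc2 e2 (by linarith) e3
    rw [abs_le]
    constructor
    · nlinarith [hlow, hc3, hQ0, mul_pos hε hQ0, mul_pos (mul_pos hε hε) hQ0]
    · nlinarith [hup, hc1, hQ0, mul_pos hε hQ0]
  · have h0 : ∑ v ∈ OE b l e (K + 1), Mo z ((a + v : ℕ) : ℤ) = 0 := by
      apply sum_eq_zero
      intro v hv
      obtain ⟨h1, h2, h3, h30⟩ := OE_facts b l e (K + 1) hb hl1 v hv
      rw [Mo_cast]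
      unfold moN
      rw [if_neg]
      rintro ⟨_, h⟩
      apply hcop
      constructor
      · by_contra hcon
        obtain ⟨p, hp, h4, h5⟩ := Nat.Prime.not_coprime_iff_dvd.1 hcon
        have e1 : a + v ≡ a + l [MOD b] := Nat.ModEq.add_left a h3
        exact h p hp ((Nat.le_of_dvd (by omega) h5).trans (by omega)) ((Nat.ModEq.dvd_iff (e1.of_dvd h5) dvd_rfl).2 h4)
      · by_contra hcon
        push Not at hcon
        obtain ⟨h7, h8⟩ := hcon
        rw [Nat.even_iff] at h7
        have h9 := h30 (by omega)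
        have h10 := h 2 Nat.prime_two (by omega)
        apply h8
        rw [Nat.odd_iff]
        omega
    rw [h0, sub_zero, abs_zero]
    positivity

end Pool.Agent.V11251.DS
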