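import Pool.Agent.V11251.DS.TransG
import Pool.Agent.V11251.DS.TransE

set_option autoImplicit false

/-! All bases: the asymptotic formula. -/

namespace Pool.Agent.V11251.DS
open Finset Filter
open Pool.Agent.H373R2.T7
open Pool.Agent.TH872.Mir (Pals)

open Classical in
/-- the number of the pairs of a leading digit and a middle digit -/
noncomputable def R2 (b a : ℕ) : ℕ := ((Icc 1 (b - 1) ×ˢ range b).filter (fun x => okD b a x.1 x.2)).card

open Classical in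
/-- the model sum over all the palindromes -/
lemma model_all2 (b : ℕ) (hb : 2 ≤ b) (K z a : ℕ) (hz : 2 * b ≤ z) (ε : ℝ) (hε : 0 < ε) (hε1 : ε ≤ 1)
    (Λ C : ℝ) (hΛ : Λ = Real.log b * (2 * (K + 1 : ℕ))) (hC : 0 ≤ C) (hCΛ : C ≤ ε * Λ) (hΛ0 : 0 < Λ)
    (ha : Real.log ((a + b ^ (2 * (K + 1) + 1) : ℕ) : ℝ) ≤ Λ + C)
    (hs : ∀ l e, 1 ≤ l → l < b → e < b →
      |(((OE b l e (K + 1)).filter (fun v => GG b z a v)).card : ℝ) - (b : ℝ) ^ K * Wb (2 * b) z| ≤ ε * ((b : ℝ) ^ K * Wb (2 * b) z)) :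
    |∑ v ∈ Pals b (2 * (K + 1) + 1), Mo z ((a + v : ℕ) : ℤ) - R2 b a * ((b : ℝ) ^ K * (((2 * b : ℕ) : ℝ) / Nat.totient (2 * b)) / Λ)| ≤
      b ^ 2 * (2 * ε * ((b : ℝ) ^ K * (((2 * b : ℕ) : ℝ) / Nat.totient (2 * b)) / Λ)) := by
  obtain ⟨Q, hQ⟩ : ∃ Q : ℝ, Q = (b : ℝ) ^ K * (((2 * b : ℕ) : ℝ) / Nat.totient (2 * b)) / Λ := ⟨_, rfl⟩
  have hQ0 : 0 ≤ Q := by rw [hQ]; positivity
  rw [← hQ]
  have h1 : (R2 b a : ℝ) * Q = ∑ x ∈ Icc 1 (b - 1) ×ˢ range b, (if okD b a x.1 x.2 then Q else 0) := by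
    rw [← sum_filter, sum_const, nsmul_eq_mul]
    unfold R2
    congr
  rw [h1, sum_pals2 b (K + 1) hb, ← sum_sub_distrib]
  refine (abs_sum_le_sum_abs _ _).trans ?_
  have h2 : ∀ x ∈ Icc 1 (b - 1) ×ˢ range b, |∑ v ∈ OE b x.1 x.2 (K + 1), Mo z ((a + v : ℕ) : ℤ) - (if okD b a x.1 x.2 then Q else 0)| ≤
      2 * ε * Q := by
    intro x hx
    rw [mem_product, mem_Icc, mem_range] at hx
    have h3 := model_l2 b hb K z a x.1 x.2 hx.1.1 hz ε hε hε1 Λ C hΛ hC hCΛ hΛ0 ha (hs x.1 x.2 hx.1.1 (by omega) hx.2)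
    rw [← hQ] at h3
    convert h3
  refine (sum_le_sum h2).trans ?_
  rw [sum_const, nsmul_eq_mul, card_product, Nat.card_Icc, card_range]
  apply mul_le_mul_of_nonneg_right _ (by positivity)
  have h4 : (b - 1 + 1 - 1) * b ≤ b ^ 2 := by
    rw [pow_two]
    exact Nat.mul_le_mul_right _ (by omega)
  exact_mod_cast h4

open Classical in
theorem final2 (b : ℕ) (hb : 2 ≤ b) (hlev : LevB b) (ε : ℝ) (hε : 0 < ε) (B U : ℕ) : ∃ L₀ : ℕ, ∀ K : ℕ, L₀ ≤ K →
    ∀ N : ℕ, b ^ (2 * (K + 1)) ≤ B * N → N ≤ B * b ^ (2 * (K + 1)) → ∀ c : ℕ, c ≤ B * N →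
    ∀ G : ℕ → Prop, (∀ n : ℕ, |(((Pals b (2 * (K + 1) + 1)).filter (fun v => (c + n + v).Prime)).card : ℝ) -
      R2 b (c + n) * ((b : ℝ) ^ K * (((2 * b : ℕ) : ℝ) / Nat.totient (2 * b)) / (Real.log b * (2 * (K + 1 : ℕ))))| ≤ ε * ((b : ℝ) ^ (K + 1) / (K + 1 : ℕ)) → G n) →
    (((Icc 1 N).filter fun n => ¬ G n).card : ℝ) ≤ N / Real.log N ^ U := by
  obtain ⟨ε1, hε1d⟩ : ∃ ε1 : ℝ, ε1 = min 1 (ε / (8 * b ^ 2)) := ⟨_, rfl⟩
  have hbr : (1 : ℝ) < b := by exact_mod_cast (by omega : 1 < b)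
  have hb3 : (2 : ℝ) ≤ b := by exact_mod_cast hb
  have hε1 : 0 < ε1 := by rw [hε1d]; exact lt_min one_pos (by positivity)
  have hε11 : ε1 ≤ 1 := by rw [hε1d]; exact min_le_left _ _
  have hε12 : ε1 * (8 * b ^ 2) ≤ ε := by
    have h1 : ε1 ≤ ε / (8 * b ^ 2) := by rw [hε1d]; exact min_le_right _ _
    rwa [le_div_iff₀ (by positivity)] at h1
  have hlb : 69 / 100 ≤ Real.log b := by
    have h1 := Real.log_two_gt_d9
    have h2 := Real.log_le_log (by norm_num) hb3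
    linarith
  obtain ⟨E₀, hT⟩ := trans_pal' b (by omega) 1 1 (by norm_num) (by norm_num) (b * B) (U + 2)
  obtain ⟨N₀, hT1⟩ := hT (E₀ + 1) (by omega)
  obtain ⟨L1, z₀, hz₀b, hS⟩ := sieve_l2 b hb hlev ε1 hε1 (2 * (2 * (E₀ + 1 + 1)))
  obtain ⟨C, hCd⟩ : ∃ C : ℝ, C = Real.log (((B + 1) * B + b : ℕ) : ℝ) := ⟨_, rfl⟩
  have hC0 : 0 ≤ C := by rw [hCd]; exact Real.log_natCast_nonneg _
  obtain ⟨L₀, hL₀⟩ : ∃ L₀ : ℕ, L₀ = L1 + z₀ + B * N₀ + 3 * B + 4 + ⌈Real.log b⌉₊ * 2 + ⌈C / ε1⌉₊ + ⌈2 * b / ε⌉₊ := ⟨_, rfl⟩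
  refine ⟨L₀, fun K hK N hN1 hN2 c hc G hG => ?_⟩
  obtain ⟨L, hLK⟩ : ∃ L : ℕ, L = K + 1 := ⟨_, rfl⟩
  rw [← hLK] at hN1 hN2 hG
  have hL : L₀ ≤ L := by omega
  have hLr : ((L₀ : ℕ) : ℝ) ≤ L := Nat.cast_le.2 hL
  rw [hL₀] at hLr
  push_cast at hLr
  have k1 := Nat.le_ceil (Real.log b)
  have k2 := Nat.le_ceil (C / ε1)
  have k3 := Nat.le_ceil (2 * (b : ℝ) / ε)
  have k4 : (0 : ℝ) ≤ L1 := Nat.cast_nonneg _
  have k5 : (0 : ℝ) ≤ z₀ := Nat.cast_nonneg _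
  have k6 : (0 : ℝ) ≤ (B : ℝ) * N₀ := by positivity
  have k7 : (0 : ℝ) ≤ B := Nat.cast_nonneg _
  have k8 : (0 : ℝ) ≤ (⌈Real.log b⌉₊ : ℝ) := Nat.cast_nonneg _
  have k9 : (0 : ℝ) ≤ (⌈C / ε1⌉₊ : ℝ) := Nat.cast_nonneg _
  have k10 : (0 : ℝ) ≤ (⌈2 * (b : ℝ) / ε⌉₊ : ℝ) := Nat.cast_nonneg _
  have hL4 : (4 : ℝ) ≤ L := by linarith
  have hL1 : 1 ≤ L := by exact_mod_cast (by linarith : (1 : ℝ) ≤ L)
  have hL0 : (0 : ℝ) < L := by linarith
  have hbLL : L < b ^ (2 * L) := by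
    calc L < 2 ^ L := Nat.lt_two_pow_self
      _ ≤ b ^ L := Nat.pow_le_pow_left (by omega) _
      _ ≤ b ^ (2 * L) := Nat.pow_le_pow_right (by omega) (by omega)
  have hN0 : N₀ ≤ N := by
    by_contra hcon
    push Not at hcon
    have h1 : B * N ≤ B * N₀ := Nat.mul_le_mul_left _ hcon.le
    have h2 : B * N₀ ≤ L := by omega
    omega
  have hNB : 0 < B := by
    rcases Nat.eq_zero_or_pos B with h0 | h0
    · rw [h0, zero_mul] at hN1
      omega
    · exact h0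
  have hNpos : 0 < N := by
    rcases Nat.eq_zero_or_pos N with h0 | h0
    · rw [h0, mul_zero] at hN1
      omega
    · exact h0
  have hNr : (0 : ℝ) < N := by exact_mod_cast hNpos
  have hBr : (0 : ℝ) < B := by exact_mod_cast hNB
  have hlogB : Real.log B ≤ B := (Real.log_le_sub_one_of_pos hBr).trans (by linarith)
  have hlogB0 : 0 ≤ Real.log B := Real.log_natCast_nonneg _
  have hbp : (0 : ℝ) < (b : ℝ) ^ (2 * L) := by positivity
  have hlogp : Real.log ((b : ℝ) ^ (2 * L)) = Real.log b * (2 * L) := by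
    rw [Real.log_pow]
    push_cast
    ring
  have hlN1 : Real.log b * (2 * L) ≤ Real.log B + Real.log N := by
    rw [← hlogp, ← Real.log_mul hBr.ne' hNr.ne']
    apply Real.log_le_log hbp
    exact_mod_cast hN1
  have hlN2 : Real.log N ≤ Real.log B + Real.log b * (2 * L) := by
    rw [← hlogp, ← Real.log_mul hBr.ne' hbp.ne']
    apply Real.log_le_log hNr
    exact_mod_cast hN2
  have hlbL : (69 / 50 : ℝ) * L ≤ Real.log b * (2 * L) := by nlinarith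
  have hlNL : (L : ℝ) ≤ Real.log N := by linarith
  have hlNU : Real.log N ≤ (L : ℝ) ^ 2 := by
    have e1 : Real.log b * 2 + B ≤ L := by nlinarith
    calc Real.log N ≤ Real.log B + Real.log b * (2 * L) := hlN2
      _ ≤ B * L + Real.log b * (2 * L) := by nlinarith
      _ = (Real.log b * 2 + B) * L := by ring
      _ ≤ L * L := mul_le_mul_of_nonneg_right e1 hL0.le
      _ = (L : ℝ) ^ 2 := by ring
  have hlN0 : 1 ≤ Real.log N := by linarith
  have hLKr : (L : ℝ) ≤ (K : ℝ) ^ 2 := by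
    have e1 : (L : ℝ) = K + 1 := by rw [hLK]; push_cast; ring
    nlinarith
  obtain ⟨z, hzd⟩ : ∃ z : ℕ, z = ⌈Real.log N ^ (E₀ + 1)⌉₊ := ⟨_, rfl⟩
  have hz1 : Real.log N ^ (E₀ + 1) ≤ z := by rw [hzd]; exact Nat.le_ceil _
  have hz2 : (z : ℝ) ≤ Real.log N ^ (E₀ + 1 + 1) := by
    have e1 : (z : ℝ) < Real.log N ^ (E₀ + 1) + 1 := by rw [hzd]; exact Nat.ceil_lt_add_one (by positivity)
    have e2 : 1 ≤ Real.log N ^ (E₀ + 1) := one_le_pow₀ hlN0
    have e3 : Real.log N ^ (E₀ + 1 + 1) = Real.log N ^ (E₀ + 1) * Real.log N := pow_succ _ _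
    nlinarith
  have hz3 : z₀ ≤ z := by
    have e1 : (z₀ : ℝ) ≤ z := by
      calc (z₀ : ℝ) ≤ L := by linarith
        _ ≤ Real.log N := hlNL
        _ ≤ Real.log N ^ (E₀ + 1) := le_self_pow₀ hlN0 (by omega)
        _ ≤ z := hz1
    exact_mod_cast e1
  have hz4 : (z : ℝ) ≤ (K : ℝ) ^ (2 * (2 * (E₀ + 1 + 1))) := by
    refine hz2.trans ?_
    have e1 : Real.log N ^ (E₀ + 1 + 1) ≤ ((L : ℝ) ^ 2) ^ (E₀ + 1 + 1) := pow_le_pow_left₀ (by linarith) hlNU _
    have e2 : ((L : ℝ) ^ 2) ^ (E₀ + 1 + 1) = (L : ℝ) ^ (2 * (E₀ + 1 + 1)) := by rw [← pow_mul]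
    rw [e2] at e1
    refine e1.trans ?_
    rw [pow_mul (K : ℝ) 2]
    exact pow_le_pow_left₀ hL0.le hLKr _
  have hbz : 2 * b ≤ z := hz₀b.trans hz3
  have hmain := hT1 N hN0 (2 * L + 1) (by
      calc b ^ (2 * L + 1) = b * b ^ (2 * L) := by ring
        _ ≤ b * (B * N) := Nat.mul_le_mul_left _ hN1
        _ = b * B * N := by ring) (by
      calc N ≤ B * b ^ (2 * L) := hN2
        _ ≤ b * B * b ^ (2 * L + 1) := by
            apply Nat.mul_le_mul
            · exact Nat.le_mul_of_pos_left _ (by omega)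
            · exact Nat.pow_le_pow_right (by omega) (by omega)) (c : ℤ) (by
      rw [abs_of_nonneg (by positivity)]
      have e1 : c ≤ b * B * N := hc.trans (Nat.mul_le_mul_right _ (Nat.le_mul_of_pos_left _ (by omega)))
      exact_mod_cast e1) z hz1 hz2 (fun n => G n ∨ ¬ (1 ≤ n ∧ n ≤ N)) (fun n hn => ?_)
  · refine le_trans (Nat.cast_le.2 (card_le_card ?_)) (hmain.trans ?_)
    · intro n hn
      rw [mem_filter] at hn ⊢
      refine ⟨hn.1, fun h => ?_⟩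
      rw [mem_Icc] at hn
      rcases h with h | h
      · exact hn.2 h
      · exact h hn.1
    · apply div_le_div_of_nonneg_left hNr.le (by positivity)
      exact pow_le_pow_right₀ hlN0 (by omega)
  · by_cases hnN : 1 ≤ n ∧ n ≤ N
    swap
    · exact Or.inr hnN
    left
    apply hG
    have hcast : ∀ v : ℕ, ((c : ℤ) + 1 * (n : ℤ) + 1 * ((v : ℕ) : ℤ)) = ((c + n + v : ℕ) : ℤ) := fun v => by push_cast; ring
    simp only [hcast, Int.toNat_natCast] at hn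
    have hm := model_all2 b hb K z (c + n) hbz ε1 hε1 hε11 (Real.log b * (2 * (K + 1 : ℕ))) C rfl hC0 (by
        rw [← hLK]
        have e1 : C / ε1 ≤ L := by linarith
        rw [div_le_iff₀ hε1] at e1
        nlinarith) (by positivity) (by
        rw [← hLK]
        have e1 : c + n + b ^ (2 * L + 1) ≤ b ^ (2 * L) * ((B + 1) * B + b) := by
          have a1 : c + n ≤ (B + 1) * N := by nlinarith [hnN.2]
          have a2 : (B + 1) * N ≤ (B + 1) * (B * b ^ (2 * L)) := Nat.mul_le_mul_left _ hN2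
          calc c + n + b ^ (2 * L + 1) ≤ (B + 1) * (B * b ^ (2 * L)) + b ^ (2 * L + 1) := by omega
            _ = b ^ (2 * L) * ((B + 1) * B + b) := by ring
        have e2 : ((c + n + b ^ (2 * L + 1) : ℕ) : ℝ) ≤ ((b ^ (2 * L) * ((B + 1) * B + b) : ℕ) : ℝ) := Nat.cast_le.2 e1
        refine (Real.log_le_log ?_ e2).trans ?_
        · have : 0 < c + n + b ^ (2 * L + 1) := by omega
          exact_mod_cast this
        · have e3 : ((b ^ (2 * L) * ((B + 1) * B + b) : ℕ) : ℝ) = (b : ℝ) ^ (2 * L) * (((B + 1) * B + b : ℕ) : ℝ) := by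
            push_cast
            ring
          have e4 : (((B + 1) * B + b : ℕ) : ℝ) ≠ 0 := by
            have : 0 < (B + 1) * B + b := by omega
            exact_mod_cast this.ne'
          rw [e3, Real.log_mul hbp.ne' e4, hlogp, ← hCd]) (fun l e hl1 hl2 he =>
          @hS K (by omega) z hz3 hz4 (c + n) l e hl1 hl2 he (fun v => Classical.propDecidable _))
    rw [← hLK] at hm
    have hpc := pals_card_le b L (by omega) hL1
    have hbKL : (b : ℝ) ^ K * b = (b : ℝ) ^ L := by rw [hLK, pow_succ]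
    have hX0 : 0 < (b : ℝ) ^ L / L := by positivity
    have hQle : (b : ℝ) ^ K * (((2 * b : ℕ) : ℝ) / Nat.totient (2 * b)) / (Real.log b * (2 * L)) ≤ 2 * ((b : ℝ) ^ L / L) := by
      have hφ : (1 : ℝ) ≤ Nat.totient (2 * b) := by exact_mod_cast Nat.totient_pos.2 (by omega)
      have e1 : ((2 * b : ℕ) : ℝ) / Nat.totient (2 * b) ≤ 2 * b := by
        refine (div_le_self (by positivity) hφ).trans ?_
        push_cast
        exact le_rfl
      calc (b : ℝ) ^ K * (((2 * b : ℕ) : ℝ) / Nat.totient (2 * b)) / (Real.log b * (2 * L)) ≤ (b : ℝ) ^ K * (2 * b) / L := by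
            apply div_le_div₀ (by positivity) (mul_le_mul_of_nonneg_left e1 (by positivity)) hL0
            linarith
        _ = 2 * ((b : ℝ) ^ L / L) := by rw [← hbKL]; ring
    have hpart2 : b ^ 2 * (2 * ε1 * ((b : ℝ) ^ K * (((2 * b : ℕ) : ℝ) / Nat.totient (2 * b)) / (Real.log b * (2 * L)))) ≤ ε / 2 * ((b : ℝ) ^ L / L) := by
      calc b ^ 2 * (2 * ε1 * ((b : ℝ) ^ K * (((2 * b : ℕ) : ℝ) / Nat.totient (2 * b)) / (Real.log b * (2 * L)))) ≤ b ^ 2 * (2 * ε1 * (2 * ((b : ℝ) ^ L / L))) := by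
            apply mul_le_mul_of_nonneg_left _ (by positivity)
            exact mul_le_mul_of_nonneg_left hQle (by positivity)
        _ = (ε1 * (8 * b ^ 2)) / 2 * ((b : ℝ) ^ L / L) := by ring
        _ ≤ ε / 2 * ((b : ℝ) ^ L / L) := by
            apply mul_le_mul_of_nonneg_right _ hX0.le
            linarith
    have hpart1 : ((Pals b (2 * L + 1)).card : ℝ) / Real.log N ^ (U + 2) ≤ ε / 2 * ((b : ℝ) ^ L / L) := by
      have e1 : (L : ℝ) ^ 2 ≤ Real.log N ^ (U + 2) := by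
        calc (L : ℝ) ^ 2 ≤ Real.log N ^ 2 := pow_le_pow_left₀ hL0.le hlNL _
          _ ≤ Real.log N ^ (U + 2) := pow_le_pow_right₀ hlN0 (by omega)
      have e2 : 2 * (b : ℝ) / ε ≤ L := by linarith
      rw [div_le_iff₀ hε] at e2
      calc ((Pals b (2 * L + 1)).card : ℝ) / Real.log N ^ (U + 2) ≤ (b * (b : ℝ) ^ L) / (L : ℝ) ^ 2 :=
            div_le_div₀ (by positivity) hpc (by positivity) e1
        _ = (b / L) * ((b : ℝ) ^ L / L) := by
            field_simp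
        _ ≤ ε / 2 * ((b : ℝ) ^ L / L) := by
            apply mul_le_mul_of_nonneg_right _ hX0.le
            rw [div_le_iff₀ hL0]
            linarith
    have htri := abs_sub_le (((Pals b (2 * L + 1)).filter (fun v => (c + n + v).Prime)).card : ℝ)
      (∑ v ∈ Pals b (2 * L + 1), Mo z ((c + n + v : ℕ) : ℤ))
      (R2 b (c + n) * ((b : ℝ) ^ K * (((2 * b : ℕ) : ℝ) / Nat.totient (2 * b)) / (Real.log b * (2 * L))))
    have hn' : |(((Pals b (2 * L + 1)).filter (fun v => (c + n + v).Prime)).card : ℝ) -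
      ∑ v ∈ Pals b (2 * L + 1), Mo z ((c + n + v : ℕ) : ℤ)| ≤ ((Pals b (2 * L + 1)).card : ℝ) / Real.log N ^ (U + 2) := by
      convert hn
    linarith

end Pool.Agent.V11251.DS
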